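import Pool.Agent.GRW.A1

/-! # GRW row A2 : locality, tail equality (deterministic) -/

namespace Pool.Agent.GRW

open MeasureTheory Filter Topology

/-- `F ω` at a dart depends only on `ω` at the next site.  Induction on `n`. -/
theorem orb_congr_le {ω ω' : Env} {x : Dart} (N : ℕ)
    (h : ∀ n, 0 < n → n ≤ N → ω' (orb ω x n).1 = ω (orb ω x n).1) :
    ∀ n, n ≤ N → orb ω' x n = orb ω x n := by
  intro n
  induction n with
  | zero => intro _; rfl
  | succ n ih =>
    intro hn
    have h1 := h (n + 1) (by omega) hn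
    rw [orb_base_succ] at h1
    rw [orb_succ, orb_succ, ih (by omega)]
    simp only [F, h1]

theorem orb_congr {ω ω' : Env} {x : Dart}
    (h : ∀ n, 0 < n → ω' (orb ω x n).1 = ω (orb ω x n).1) (n : ℕ) : orb ω' x n = orb ω x n :=
  orb_congr_le n (fun k hk _ => h k hk) n le_rfl

theorem TEq.refl (s : ℕ → Dart) : TEq s s := ⟨0, 0, fun _ => rfl⟩

theorem TEq.symm {s t : ℕ → Dart} (h : TEq s t) : TEq t s := by
  obtain ⟨m, n, h⟩ := h
  exact ⟨n, m, fun k => (h k).symm⟩

theorem TEq.trans {s t r : ℕ → Dart} (h : TEq s t) (h' : TEq t r) : TEq s r := by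
  obtain ⟨m, n, h⟩ := h
  obtain ⟨m', n', h'⟩ := h'
  refine ⟨m + m', n' + n, fun k => ?_⟩
  have e1 := h (m' + k)
  have e2 := h' (n + k)
  rw [show m + m' + k = m + (m' + k) by omega, e1, show n + (m' + k) = m' + (n + k) by omega, e2,
    show n' + n + k = n' + (n + k) by omega]

theorem TEq_orb (ω : Env) (x : Dart) (n : ℕ) : TEq (orb ω x) (orb ω (orb ω x n)) := by
  refine ⟨n, 0, fun k => ?_⟩
  rw [orb_add, Nat.zero_add]

theorem TEq.finV {s t : ℕ → Dart} (h : TEq s t) {S : Set (ℤ × ℤ)} (hs : FinV S s) : FinV S t := by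
  obtain ⟨m, n, h⟩ := h
  unfold FinV at hs ⊢
  refine ((Set.finite_Iio n).union (hs.image (fun j => n + (j - m)))).subset ?_
  intro i hi
  by_cases hin : i < n
  · exact Or.inl hin
  · right
    refine ⟨m + (i - n), ?_, ?_⟩
    · show (s (m + (i - n))).1 ∈ S
      rw [h (i - n), show n + (i - n) = i by omega]
      exact hi
    · show n + (m + (i - n) - m) = i
      omega

/-- The tail of `orb ω' y` is injective, so `y` is not periodic. -/
theorem TEq.inf {ω ω' : Env} {x y : Dart} (h : TEq (orb ω x) (orb ω' y)) (hx : Inf ω x) :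
    Inf ω' y := by
  obtain ⟨m, n, h⟩ := h
  intro p hp hy
  have h1 : orb ω' y (n + p) = orb ω' y n := by
    rw [show n + p = p + n by omega, orb_add, hy]
  have h2 := h p
  have h3 := h 0
  rw [Nat.add_zero, Nat.add_zero] at h3
  rw [h1, ← h3] at h2
  have := inf_injective hx h2
  omega

/-- `orb x m = orb y n =: w` and `R x`, `R y` are both in the forward orbit of `R w` (`orb_R`). -/
theorem TEq.rev {ω : Env} {x y : Dart} (h : TEq (orb ω x) (orb ω y)) :
    TEq (orb ω (R ω x)) (orb ω (R ω y)) := by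
  obtain ⟨m, n, h⟩ := h
  have h0 := h 0
  rw [Nat.add_zero, Nat.add_zero] at h0
  have e1 := orb_R ω x (le_refl m)
  have e2 := orb_R ω y (le_refl n)
  rw [Nat.sub_self, orb_zero] at e1 e2
  have t1 := TEq_orb ω (R ω (orb ω x m)) m
  have t2 := TEq_orb ω (R ω (orb ω y n)) n
  rw [e1] at t1
  rw [e2, ← h0] at t2
  exact t1.symm.trans t2

/-- An infinite orbit leaves the finite set `{s | ω s ≠ ω' s}` (`finV_of_finite`); take
`x' = orb ω x n` for `n` after the last visit and use `orb_congr`. -/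
theorem exists_tail_finMod {ω ω' : Env} (hm : FinMod ω ω') {x : Dart} (h : Inf ω x) :
    ∃ x', Inf ω' x' ∧ TEq (orb ω x) (orb ω' x') := by
  have h1 := finV_of_finite h hm
  unfold FinV at h1
  obtain ⟨N, hN⟩ := h1.bddAbove
  have h2 : ∀ n, 0 < n → ω' (orb ω (orb ω x N) n).1 = ω (orb ω (orb ω x N) n).1 := by
    intro n hn
    by_contra hc
    have h3 : N + n ∈ {n | (orb ω x n).1 ∈ {s | ω s ≠ ω' s}} := by
      show ω (orb ω x (N + n)).1 ≠ ω' (orb ω x (N + n)).1
      rw [orb_add]
      exact fun h4 => hc h4.symm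
    have h5 := hN h3
    omega
  have h3 : orb ω' (orb ω x N) = orb ω (orb ω x N) := funext fun n => orb_congr h2 n
  refine ⟨orb ω x N, ?_, ?_⟩
  · intro n hn
    rw [h3]
    exact inf_orb h N n hn
  · rw [h3]
    exact TEq_orb ω x N

theorem FinMod.symm {ω ω' : Env} (h : FinMod ω ω') : FinMod ω' ω := by
  unfold FinMod at h ⊢
  refine h.subset fun s hs => ?_
  exact fun h1 => hs h1.symm

theorem FinMod.trans {ω ω' ω'' : Env} (h : FinMod ω ω') (h' : FinMod ω' ω'') : FinMod ω ω'' := by
  unfold FinMod at h h' ⊢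
  refine (h.union h').subset fun s hs => ?_
  by_cases h1 : ω s = ω' s
  · right
    exact fun h2 => hs (h1.trans h2)
  · left
    exact h1

theorem FinMod.update (ω : Env) (s : ℤ × ℤ) (c : Fin 3) : FinMod ω (Function.update ω s c) := by
  unfold FinMod
  refine (Set.finite_singleton s).subset fun t ht => ?_
  by_contra hc
  exact ht (Function.update_of_ne hc _ _).symm

/-- finite visits only depend on the set up to a finite set, for an infinite orbit -/
theorem finV_of_diff {ω : Env} {x : Dart} (h : Inf ω x) {S T : Set (ℤ × ℤ)} (hST : (T \ S).Finite)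
    (hS : FinV S (orb ω x)) : FinV T (orb ω x) := by
  have h1 := finV_of_finite h hST
  unfold FinV at h1 hS ⊢
  refine (hS.union h1).subset fun n hn => ?_
  by_cases hc : (orb ω x n).1 ∈ S
  · exact Or.inl hc
  · exact Or.inr ⟨hn, hc⟩

end Pool.Agent.GRW
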