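import Pool.Agent.GRW.C1

/-! # GRW row C3 : translation and rotation -/

namespace Pool.Agent.GRW

open MeasureTheory Filter Topology

theorem c3_reindex (e : ℤ × ℤ ≃ ℤ × ℤ) : MeasurePreserving (fun (ω : Env) s => ω (e s)) P P := by
  have hm : Measurable (fun (ω : Env) s => ω (e s)) := by
    refine measurable_pi_lambda _ ?_
    intro s
    exact measurable_pi_apply _
  refine ⟨hm, ?_⟩
  unfold P
  refine Measure.eq_infinitePi _ ?_
  intro s t ht
  rw [Measure.map_apply hm (.pi s.countable_toSet fun _ _ => ht _)]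
  have h1 : (fun (ω : Env) s => ω (e s)) ⁻¹' ((s : Set (ℤ × ℤ)).pi t) =
      Set.pi ((s.map e.toEmbedding : Finset (ℤ × ℤ)) : Set (ℤ × ℤ)) (fun j => t (e.symm j)) := by
    ext ω
    simp only [Set.mem_preimage, Set.mem_pi, Finset.mem_coe, Finset.mem_map, Equiv.coe_toEmbedding]
    constructor
    · rintro h j ⟨i, hi, rfl⟩
      rw [Equiv.symm_apply_apply]
      exact h i hi
    · intro h i hi
      have := h (e i) ⟨i, hi, rfl⟩
      rwa [Equiv.symm_apply_apply] at this
  rw [h1, Measure.infinitePi_pi _ (fun i _ => ht _), Finset.prod_map]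
  refine Finset.prod_congr rfl ?_
  intro i _
  change unif (t (e.symm (e i))) = unif (t i)
  rw [Equiv.symm_apply_apply]

/-- `Measure.eq_infinitePi` (or `infinitePi_map_piCongrLeft` with `Equiv.addRight v`). -/
theorem mp_shift (v : ℤ × ℤ) : MeasurePreserving (shift v) P P :=
  c3_reindex (Equiv.addRight v)

def c3_sw : Equiv.Perm (Fin 3) := ⟨sw, sw, sw_sw, sw_sw⟩

def c3_rho : ℤ × ℤ ≃ ℤ × ℤ where
  toFun := rho
  invFun := fun s => (s.2, -s.1)
  left_inv := by
    intro s
    simp [rho]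
  right_inv := by
    intro s
    simp [rho]

/-- `rotE` is the composition of a permutation of the sites (`rho` is a bijection) and of the
coordinatewise involution `sw` (`unif` is invariant under `sw`). -/
theorem mp_rotE : MeasurePreserving rotE P P :=
  (mp_perm (fun _ => c3_sw)).comp (c3_reindex c3_rho)

theorem F_tr (ω : Env) (v : ℤ × ℤ) (x : Dart) : F ω (tr v x) = tr v (F (shift v ω) x) := by
  unfold F tr shift
  simp only
  rw [add_right_comm x.1 v (dv x.2)]

theorem R_tr (ω : Env) (v : ℤ × ℤ) (x : Dart) : R ω (tr v x) = tr v (R (shift v ω) x) := rfl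

theorem orb_tr (ω : Env) (v : ℤ × ℤ) (x : Dart) (n : ℕ) :
    orb ω (tr v x) n = tr v (orb (shift v ω) x n) := by
  induction n with
  | zero => rfl
  | succ n ih => rw [orb_succ, orb_succ, ih, F_tr]

theorem c3_rho_add (a b : ℤ × ℤ) : rho (a + b) = rho a + rho b := by
  unfold rho
  ext
  · simp; ring
  · simp

theorem F_rot (ω : Env) (x : Dart) : F ω (rotD x) = rotD (F (rotE ω) x) := by
  have h1 : rho x.1 + dv (x.2 + 1) = rho (x.1 + dv x.2) := by
    rw [dv_rot, c3_rho_add]
  have h2 : x.2 + 1 + 2 = x.2 + 2 + 1 := by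
    rw [add_right_comm]
  unfold F rotD rotE
  simp only
  rw [h1, h2, ← pr_sw, sw_sw]

theorem R_rot (ω : Env) (x : Dart) : R ω (rotD x) = rotD (R (rotE ω) x) := by
  unfold R rotD rotE
  simp only
  rw [← pr_sw, sw_sw]

theorem orb_rot (ω : Env) (x : Dart) (n : ℕ) : orb ω (rotD x) n = rotD (orb (rotE ω) x n) := by
  induction n with
  | zero => rfl
  | succ n ih => rw [orb_succ, orb_succ, ih, F_rot]

theorem tr_injective (v : ℤ × ℤ) : Function.Injective (tr v) := by
  intro x y h
  have h1 := congrArg Prod.fst h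
  have h2 := congrArg Prod.snd h
  simp only [tr] at h1 h2
  exact Prod.ext (add_right_cancel h1) h2

theorem rotD_bijective : Function.Bijective rotD := by
  constructor
  · intro x y h
    have h1 := congrArg Prod.fst h
    have h2 := congrArg Prod.snd h
    simp only [rotD] at h1 h2
    exact Prod.ext (c3_rho.injective h1) (add_right_cancel h2)
  · intro y
    refine ⟨(c3_rho.symm y.1, y.2 - 1), ?_⟩
    unfold rotD
    simp only
    have h1 : rho (c3_rho.symm y.1) = y.1 := c3_rho.apply_symm_apply y.1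
    rw [h1, sub_add_cancel]

theorem inf_tr (ω : Env) (v : ℤ × ℤ) (x : Dart) : Inf ω (tr v x) ↔ Inf (shift v ω) x := by
  unfold Inf
  refine forall_congr' fun n => forall_congr' fun _ => not_congr ?_
  rw [orb_tr]
  exact (tr_injective v).eq_iff

theorem inf_rot (ω : Env) (x : Dart) : Inf ω (rotD x) ↔ Inf (rotE ω) x := by
  unfold Inf
  refine forall_congr' fun n => forall_congr' fun _ => not_congr ?_
  rw [orb_rot]
  exact rotD_bijective.1.eq_iff

/-- the visits of `tr v x` to `S` under `ω` are the visits of `x` to `S - v` under `shift v ω` -/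
theorem finV_tr (ω : Env) (v : ℤ × ℤ) (x : Dart) (S : Set (ℤ × ℤ)) :
    FinV S (orb ω (tr v x)) ↔ FinV {s | s + v ∈ S} (orb (shift v ω) x) := by
  unfold FinV
  have h : {n | (orb ω (tr v x) n).1 ∈ S} = {n | (orb (shift v ω) x n).1 ∈ {s | s + v ∈ S}} := by
    ext n
    change (orb ω (tr v x) n).1 ∈ S ↔ (orb (shift v ω) x n).1 + v ∈ S
    rw [orb_tr]
    rfl
  rw [h]

theorem finV_rot (ω : Env) (x : Dart) (S : Set (ℤ × ℤ)) :
    FinV S (orb ω (rotD x)) ↔ FinV {s | rho s ∈ S} (orb (rotE ω) x) := by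
  unfold FinV
  have h : {n | (orb ω (rotD x) n).1 ∈ S} = {n | (orb (rotE ω) x n).1 ∈ {s | rho s ∈ S}} := by
    ext n
    change (orb ω (rotD x) n).1 ∈ S ↔ rho (orb (rotE ω) x n).1 ∈ S
    rw [orb_rot]
    rfl
  rw [h]

theorem rho_mem_ray (v s : ℤ × ℤ) : rho s ∈ ray (rho v) ↔ s ∈ ray v := by
  have h : ∀ k : ℤ, rho (k • v) = k • rho v := by
    intro k
    unfold rho
    ext
    · simp
    · simp
  constructor
  · rintro ⟨k, hk⟩
    refine ⟨k, ?_⟩
    rw [← h] at hk
    exact c3_rho.injective hk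
  · rintro ⟨k, hk⟩
    refine ⟨k, ?_⟩
    rw [← h, ← hk]

theorem rho_rho (v : ℤ × ℤ) : rho (rho v) = -v := by
  unfold rho
  ext
  · simp
  · simp

end Pool.Agent.GRW
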