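import Pool.Agent.GRW.Defs

/-! # GRW row C5 : measurability -/

namespace Pool.Agent.GRW

open MeasureTheory Filter Topology

theorem c5_meas_F (y : Dart) : Measurable fun ω : Env => F ω y := by
  have h1 : Measurable fun ω : Env => ω (y.1 + dv y.2) := measurable_pi_apply _
  have h2 : Measurable fun p : Fin 3 => ((y.1 + dv y.2, pr p (y.2 + 2)) : Dart) :=
    measurable_of_countable _
  exact h2.comp h1

theorem c5_meas_R (y : Dart) : Measurable fun ω : Env => R ω y := by
  have h1 : Measurable fun ω : Env => ω y.1 := measurable_pi_apply _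
  have h2 : Measurable fun p : Fin 3 => ((y.1, pr p y.2) : Dart) := measurable_of_countable _
  exact h2.comp h1

theorem c5_comp {G : Env → Dart → Dart} (hG : ∀ y, Measurable fun ω => G ω y) {g : Env → Dart}
    (hg : Measurable g) : Measurable fun ω => G ω (g ω) := by
  refine measurable_to_countable' fun y' => ?_
  have h1 : (fun ω => G ω (g ω)) ⁻¹' {y'} =
      ⋃ y : Dart, (g ⁻¹' {y}) ∩ ((fun ω => G ω y) ⁻¹' {y'}) := by
    ext ω
    simp only [Set.mem_preimage, Set.mem_singleton_iff, Set.mem_iUnion, Set.mem_inter_iff]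
    constructor
    · intro h
      exact ⟨g ω, rfl, h⟩
    · rintro ⟨y, hy, h⟩
      rw [hy]
      exact h
  rw [h1]
  exact MeasurableSet.iUnion fun y =>
    (hg (measurableSet_singleton y)).inter (hG y (measurableSet_singleton y'))

/-- `Dart` is countable and discrete.  Induction on `n`; the map `ω ↦ F ω (g ω)` is measurable because
for every dart `y` the map `ω ↦ F ω y` is (it depends on one coordinate), and `{g = y}` is measurable:
`measurable_to_countable'`, or write the preimage of `{y'}` as `⋃ y, {g = y} ∩ {F ω y = y'}`. -/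
theorem measurable_F {g : Env → Dart} (hg : Measurable g) : Measurable fun ω => F ω (g ω) :=
  c5_comp c5_meas_F hg

theorem measurable_R {g : Env → Dart} (hg : Measurable g) : Measurable fun ω => R ω (g ω) :=
  c5_comp c5_meas_R hg

theorem measurable_orb {g : Env → Dart} (hg : Measurable g) (n : ℕ) :
    Measurable fun ω => orb ω (g ω) n := by
  induction n with
  | zero => exact hg
  | succ n ih =>
    have h1 : (fun ω => orb ω (g ω) (n + 1)) = fun ω => F ω (orb ω (g ω) n) := by
      funext ω
      rw [orb_succ]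
    rw [h1]
    exact measurable_F ih

/-- countable unions and intersections of preimages under `measurable_orb` -/
theorem measurableSet_orb_mem {g : Env → Dart} (hg : Measurable g) (n : ℕ) (T : Set Dart) :
    MeasurableSet {ω | orb ω (g ω) n ∈ T} :=
  (measurable_orb hg n) (Set.to_countable T).measurableSet

theorem measurableSet_inf {g : Env → Dart} (hg : Measurable g) :
    MeasurableSet {ω | Inf ω (g ω)} := by
  have h1 : {ω | Inf ω (g ω)} = ⋂ n : ℕ, {ω | 0 < n → orb ω (g ω) n ≠ g ω} := by
    ext ω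
    simp only [Inf, Set.mem_ofPred_eq, Set.mem_iInter]
  rw [h1]
  refine MeasurableSet.iInter fun n => ?_
  by_cases hn : 0 < n
  · have h2 : {ω : Env | 0 < n → orb ω (g ω) n ≠ g ω} = {ω | orb ω (g ω) n = g ω}ᶜ := by
      ext ω
      simp [hn]
    rw [h2]
    exact (measurableSet_eq_fun (measurable_orb hg n) hg).compl
  · have h2 : {ω : Env | 0 < n → orb ω (g ω) n ≠ g ω} = Set.univ := by
      ext ω
      simp [hn]
    rw [h2]
    exact MeasurableSet.univ

/-- `FinV S s ↔ ∃ N, ∀ n ≥ N, (s n).1 ∉ S` -/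
theorem finV_iff (S : Set (ℤ × ℤ)) (s : ℕ → Dart) :
    FinV S s ↔ ∃ N, ∀ n, N ≤ n → (s n).1 ∉ S := by
  unfold FinV
  constructor
  · intro h
    obtain ⟨N, hN⟩ := h.bddAbove
    refine ⟨N + 1, fun n hn hs => ?_⟩
    have := hN (show n ∈ {n | (s n).1 ∈ S} from hs)
    omega
  · rintro ⟨N, hN⟩
    refine (Set.finite_Iio N).subset fun n hn => ?_
    by_contra hc
    exact hN n (not_lt.1 hc) hn

theorem measurableSet_finV (S : Set (ℤ × ℤ)) {g : Env → Dart} (hg : Measurable g) :
    MeasurableSet {ω | FinV S (orb ω (g ω))} := by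
  have h1 : {ω | FinV S (orb ω (g ω))} =
      ⋃ N : ℕ, ⋂ n : ℕ, {ω | N ≤ n → (orb ω (g ω) n).1 ∉ S} := by
    ext ω
    simp only [finV_iff, Set.mem_ofPred_eq, Set.mem_iUnion, Set.mem_iInter]
  rw [h1]
  refine MeasurableSet.iUnion fun N => MeasurableSet.iInter fun n => ?_
  by_cases hn : N ≤ n
  · have h2 : {ω : Env | N ≤ n → (orb ω (g ω) n).1 ∉ S} =
        {ω | orb ω (g ω) n ∈ {x : Dart | x.1 ∉ S}} := by
      ext ω
      simp [hn]
    rw [h2]
    exact measurableSet_orb_mem hg n _
  · have h2 : {ω : Env | N ≤ n → (orb ω (g ω) n).1 ∉ S} = Set.univ := by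
      ext ω
      simp [hn]
    rw [h2]
    exact MeasurableSet.univ

end Pool.Agent.GRW
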