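import Pool.Agent.GRW.A2
import Pool.Agent.GRW.C3
import Pool.Agent.GRW.C5

/-! # GRW row D1 : first entrance to a row (deterministic facts, measurability) -/

namespace Pool.Agent.GRW

open MeasureTheory Filter Topology

/-- Two trails which enter `W` and stay in it, and have a dart in common, are equal: if `n < m` then
`x = orb ω y (m - n)` (injectivity), whose site is in `W`, contradiction. -/
theorem ent_inj {ω : Env} {x y : Dart} {W : Set (ℤ × ℤ)} (hx : x.1 ∉ W) (hy : y.1 ∉ W) {n m : ℕ}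
    (hn : ∀ i, 0 < i → i ≤ n → (orb ω x i).1 ∈ W) (hm : ∀ i, 0 < i → i ≤ m → (orb ω y i).1 ∈ W)
    (h : orb ω x n = orb ω y m) : n = m ∧ x = y := by
  rcases le_total n m with hnm | hnm
  · have e : orb ω y m = orb ω (orb ω y (m - n)) n := by
      rw [← orb_add]
      congr 1
      omega
    rw [e] at h
    have hxy := orb_injective ω n h
    rcases Nat.eq_zero_or_pos (m - n) with h0 | h0
    · rw [h0, orb_zero] at hxy
      exact ⟨by omega, hxy⟩
    · exact absurd (hxy ▸ hm (m - n) h0 (by omega)) hx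
  · have e : orb ω x n = orb ω (orb ω x (n - m)) m := by
      rw [← orb_add]
      congr 1
      omega
    rw [e] at h
    have hxy := orb_injective ω m h
    rcases Nat.eq_zero_or_pos (n - m) with h0 | h0
    · rw [h0, orb_zero] at hxy
      exact ⟨by omega, hxy⟩
    · exact absurd (hxy ▸ hn (n - m) h0 (by omega)) hy

/-- `Hit ω h x x'`: the trail leaving `(x, -1)` northwards arrives at row `h` for the first time at the
site `(x', h)`, and does not return to row `-1` before. -/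
def Hit (ω : Env) (h : ℕ) (x x' : ℤ) : Prop :=
  ∃ n, orb ω ((x, -1), 1) n = ((x', (h : ℤ) - 1), 1) ∧
    ∀ i, 0 < i → i ≤ n → 0 ≤ (orb ω ((x, -1), 1) i).1.2 ∧ (orb ω ((x, -1), 1) i).1.2 < h

/-- if `n < m` are the two times, the dart at time `n + 1` is at row `h` but should be below it -/
theorem Hit.right_unique {ω : Env} {h : ℕ} {x x' x'' : ℤ} (h1 : Hit ω h x x') (h2 : Hit ω h x x'') :
    x' = x'' := by
  obtain ⟨n, hn, hn'⟩ := h1
  obtain ⟨m, hm, hm'⟩ := h2
  rcases lt_trichotomy n m with hnm | hnm | hnm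
  · have h3 := (hm' (n + 1) (by omega) (by omega)).2
    rw [orb_base_succ, hn] at h3
    simp [dv] at h3
  · subst hnm
    rw [hn] at hm
    simpa using hm
  · have h3 := (hn' (m + 1) (by omega) (by omega)).2
    rw [orb_base_succ, hm] at h3
    simp [dv] at h3

/-- `ent_inj` with `W` = rows `0, ..., h-1` -/
theorem Hit.left_unique {ω : Env} {h : ℕ} {x y x' : ℤ} (h1 : Hit ω h x x') (h2 : Hit ω h y x') :
    x = y := by
  obtain ⟨n, hn, hn'⟩ := h1
  obtain ⟨m, hm, hm'⟩ := h2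
  have := (ent_inj (ω := ω) (x := ((x, -1), 1)) (y := ((y, -1), 1))
    (W := {s : ℤ × ℤ | 0 ≤ s.2 ∧ s.2 < h}) (by simp) (by simp) (n := n) (m := m)
    hn' hm' (hn.trans hm.symm)).2
  simpa using this

/-- `orb_tr` -/
theorem Hit_shift (ω : Env) (h : ℕ) (x x' a : ℤ) :
    Hit (shift (a, 0) ω) h x x' ↔ Hit ω h (x + a) (x' + a) := by
  have key : ∀ n, orb ω ((x + a, -1), 1) n = tr (a, 0) (orb (shift (a, 0) ω) ((x, -1), 1) n) := by
    intro n
    rw [← orb_tr]
    congr 1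
  unfold Hit
  constructor
  · rintro ⟨n, hn, hn'⟩
    refine ⟨n, ?_, ?_⟩
    · rw [key, hn]
      simp [tr]
    · intro i hi hin
      rw [key]
      simpa [tr] using hn' i hi hin
  · rintro ⟨n, hn, hn'⟩
    refine ⟨n, ?_, ?_⟩
    · rw [key] at hn
      have h1 := congrArg (fun d : Dart => d.1.1) hn
      have h2 := congrArg (fun d : Dart => d.1.2) hn
      have h3 := congrArg (fun d : Dart => d.2) hn
      simp only [tr, Prod.fst_add, Prod.snd_add, add_zero, add_left_inj] at h1 h2 h3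
      exact Prod.ext (Prod.ext h1 h2) h3
    · intro i hi hin
      have := hn' i hi hin
      rw [key] at this
      simpa [tr] using this

theorem d1_congr {ω ω' : Env} {h : ℕ} (hω : ∀ s : ℤ × ℤ, 0 ≤ s.2 → s.2 < h → ω s = ω' s)
    {x x' : ℤ} (hh : Hit ω h x x') : Hit ω' h x x' := by
  obtain ⟨n, hn, hn'⟩ := hh
  have key := orb_congr_le (ω := ω) (ω' := ω') (x := ((x, -1), 1)) n (fun i hi hin =>
    (hω _ (hn' i hi hin).1 (hn' i hi hin).2).symm)
  refine ⟨n, ?_, ?_⟩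
  · rw [key n le_rfl, hn]
  · intro i hi hin
    rw [key i hin]
    exact hn' i hi hin

theorem d1_dv (d : Fin 4) : (dv d).2 ≤ 1 ∧ -1 ≤ (dv d).2 ∧ ((dv d).2 = 1 → d = 1) := by
  revert d; decide

theorem d1_row_succ (ω : Env) (x : Dart) (n : ℕ) :
    (orb ω x (n + 1)).1.2 = (orb ω x n).1.2 + (dv (orb ω x n).2).2 := by
  rw [orb_base_succ]; rfl

/-- the last step before the first visit of row `h` -/
theorem d1_enter {ω : Env} {h : ℕ} {x : ℤ} {n : ℕ}
    (hlt : ∀ i, 0 < i → i ≤ n → 0 ≤ (orb ω ((x, -1), 1) i).1.2 ∧ (orb ω ((x, -1), 1) i).1.2 < h)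
    (hr : (orb ω ((x, -1), 1) (n + 1)).1.2 = h) : ∃ x', Hit ω h x x' := by
  have h1 := d1_row_succ ω ((x, -1), 1) n
  have h2 := d1_dv (orb ω ((x, -1), 1) n).2
  have h3 : (orb ω ((x, -1), 1) n).1.2 ≤ (h : ℤ) - 1 := by
    rcases Nat.eq_zero_or_pos n with h0 | h0
    · subst h0
      rw [orb_zero]
      show (-1 : ℤ) ≤ (h : ℤ) - 1
      omega
    · have := (hlt n h0 le_rfl).2
      omega
  have h4 : (dv (orb ω ((x, -1), 1) n).2).2 = 1 := by omega
  refine ⟨(orb ω ((x, -1), 1) n).1.1, n, ?_, hlt⟩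
  refine Prod.ext (Prod.ext rfl ?_) (h2.2.2 h4)
  show (orb ω ((x, -1), 1) n).1.2 = (h : ℤ) - 1
  omega

/-- `Hit ω h` only depends on the rows `0, ..., h-1` (`orb_congr_le`) -/
theorem Hit_congr {ω ω' : Env} {h : ℕ} (hω : ∀ s : ℤ × ℤ, 0 ≤ s.2 → s.2 < h → ω s = ω' s) (x x' : ℤ) :
    Hit ω h x x' ↔ Hit ω' h x x' := by
  constructor
  · intro hh
    exact d1_congr hω hh
  · intro hh
    exact d1_congr (fun s h0 h1 => (hω s h0 h1).symm) hh

/-- The first time the trail is at row `h`; one time unit before it is at row `h - 1` and goes north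
(the second coordinate changes by at most one in each step; for `h = 0` take time zero). -/
theorem Hit_pred {ω : Env} {h : ℕ} {x x'' : ℤ} (h1 : Hit ω (h + 1) x x'') : ∃ x', Hit ω h x x' := by
  obtain ⟨n, hn, hn'⟩ := h1
  have hrow : (orb ω ((x, -1), 1) n).1.2 = h := by
    rw [hn]
    simp
  have hex : ∃ k, (orb ω ((x, -1), 1) k).1.2 = h := ⟨n, hrow⟩
  classical
  obtain ⟨k, hk, hkm⟩ : ∃ k, (orb ω ((x, -1), 1) k).1.2 = h ∧
      ∀ i, i < k → (orb ω ((x, -1), 1) i).1.2 ≠ h :=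
    ⟨Nat.find hex, Nat.find_spec hex, fun i hi => Nat.find_min hex hi⟩
  have hkn : k ≤ n := by
    by_contra hc
    exact hkm n (by omega) hrow
  rcases k with _ | k
  · rw [orb_zero] at hk
    simp only at hk
    omega
  · refine d1_enter (n := k) ?_ hk
    intro i hi hik
    have h1 := hn' i hi (by omega)
    have h2 := hkm i (by omega)
    push_cast at h1
    omega

/-- A trail leaving `(x,-1)` northwards which never returns to row `-1` either stays in the rows
`0, ..., h-1` for ever or hits row `h`. -/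
theorem Hit_or_stay {ω : Env} {x : ℤ} (h : ℕ)
    (hn : ∀ n, 0 < n → (orb ω ((x, -1), 1) n).1.2 ≠ -1) :
    (∃ x', Hit ω h x x') ∨
      ∀ n, 0 < n → 0 ≤ (orb ω ((x, -1), 1) n).1.2 ∧ (orb ω ((x, -1), 1) n).1.2 < h := by
  have hnn := hn
  clear hn
  by_cases hst : ∀ n, 0 < n → 0 ≤ (orb ω ((x, -1), 1) n).1.2 ∧ (orb ω ((x, -1), 1) n).1.2 < h
  · exact Or.inr hst
  left
  push Not at hst
  obtain ⟨n, hn0, hn⟩ := hst
  have hex : ∃ k, 0 < k ∧ ¬ (0 ≤ (orb ω ((x, -1), 1) k).1.2 ∧ (orb ω ((x, -1), 1) k).1.2 < h) :=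
    ⟨n, hn0, by
      rintro ⟨h1, h2⟩
      exact absurd (hn h1) (by omega)⟩
  classical
  obtain ⟨k, ⟨hk0, hk⟩, hkm⟩ : ∃ k, (0 < k ∧
      ¬ (0 ≤ (orb ω ((x, -1), 1) k).1.2 ∧ (orb ω ((x, -1), 1) k).1.2 < h)) ∧
      ∀ i, i < k → ¬ (0 < i ∧
        ¬ (0 ≤ (orb ω ((x, -1), 1) i).1.2 ∧ (orb ω ((x, -1), 1) i).1.2 < h)) :=
    ⟨Nat.find hex, Nat.find_spec hex, fun i hi => Nat.find_min hex hi⟩
  obtain ⟨m, rfl⟩ : ∃ m, k = m + 1 := ⟨k - 1, by omega⟩
  have hlt : ∀ i, 0 < i → i ≤ m →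
      0 ≤ (orb ω ((x, -1), 1) i).1.2 ∧ (orb ω ((x, -1), 1) i).1.2 < h := by
    intro i hi him
    have h1 := hkm i (by omega)
    by_contra hc
    exact h1 ⟨hi, hc⟩
  refine d1_enter (n := m) hlt ?_
  have h1 := d1_row_succ ω ((x, -1), 1) m
  have h2 := d1_dv (orb ω ((x, -1), 1) m).2
  have h3 := hnn (m + 1) (by omega)
  rcases Nat.eq_zero_or_pos m with h0 | h0
  · subst h0
    have h5 : (orb ω ((x, -1), 1) (0 + 1)).1.2 = 0 := by
      rw [h1, orb_zero]
      simp [dv]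
    rw [h5] at hk ⊢
    omega
  · have h4 := hlt m h0 le_rfl
    omega

theorem measurableSet_Hit (h : ℕ) (x x' : ℤ) : MeasurableSet {ω | Hit ω h x x'} := by
  have heq : {ω | Hit ω h x x'} = ⋃ n : ℕ, ({ω : Env | orb ω ((x, -1), 1) n ∈
      ({((x', (h : ℤ) - 1), 1)} : Set Dart)} ∩ ⋂ i : ℕ, ⋂ _ : 0 < i, ⋂ _ : i ≤ n,
        {ω : Env | orb ω ((x, -1), 1) i ∈ {d : Dart | 0 ≤ d.1.2 ∧ d.1.2 < h}}) := by
    ext ω
    simp [Hit]
  rw [heq]
  refine MeasurableSet.iUnion fun n => MeasurableSet.inter ?_ ?_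
  · exact measurableSet_orb_mem (g := fun _ => ((x, -1), 1)) measurable_const n _
  · refine MeasurableSet.iInter fun i => MeasurableSet.iInter fun _ => MeasurableSet.iInter fun _ => ?_
    exact measurableSet_orb_mem (g := fun _ => ((x, -1), 1)) measurable_const i _

end Pool.Agent.GRW
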