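import Pool.Agent.GRW.Defs

/-! # GRW row C1 : the measure `P`, single sites, finite independence -/

namespace Pool.Agent.GRW

open MeasureTheory Filter Topology

theorem c1_singleton (c : Fin 3) : unif {c} = (3 : ENNReal)⁻¹ := by
  unfold unif
  rw [Measure.smul_apply, Measure.count_singleton, smul_eq_mul, mul_one]

theorem c1_meas_site (s : ℤ × ℤ) (c : Fin 3) : MeasurableSet {ω : Env | ω s = c} := by
  have h : Measurable fun ω : Env => ω s := measurable_pi_apply s
  exact h (measurableSet_singleton c)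

theorem c1_meas_cyl (D : Finset (ℤ × ℤ)) (c : Env) : MeasurableSet {ω : Env | ∀ s ∈ D, ω s = c s} := by
  have h : {ω : Env | ∀ s ∈ D, ω s = c s} = ⋂ s ∈ D, {ω : Env | ω s = c s} := by
    ext ω
    simp
  rw [h]
  exact Finset.measurableSet_biInter D fun s _ => c1_meas_site s (c s)

/-- extension by `0` -/
def c1ext (D : Finset (ℤ × ℤ)) (c : {s // s ∈ D} → Fin 3) : Env :=
  fun s => if h : s ∈ D then c ⟨s, h⟩ else 0

theorem c1_ext (D : Finset (ℤ × ℤ)) (c : {s // s ∈ D} → Fin 3) {s : ℤ × ℤ} (h : s ∈ D) :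
    c1ext D c s = c ⟨s, h⟩ := dif_pos h

open scoped Classical in
theorem c1_decomp (D : Finset (ℤ × ℤ)) (J : Set Env) {A : Set Env}
    (hA : ∀ ω ω' : Env, (∀ s ∈ D, ω s = ω' s) → (ω ∈ A ↔ ω' ∈ A)) :
    J ∩ A = ⋃ c ∈ (Finset.univ.filter fun c : {s // s ∈ D} → Fin 3 => c1ext D c ∈ A),
      (J ∩ {ω | ∀ s ∈ D, ω s = c1ext D c s}) := by
  ext ω
  simp only [Set.mem_iUnion, Finset.mem_filter, Finset.mem_univ, true_and, Set.mem_inter_iff,
    Set.mem_ofPred_eq, exists_prop]
  constructor
  · rintro ⟨h1, h2⟩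
    have h3 : ∀ s ∈ D, ω s = c1ext D (fun s => ω s) s := fun s hs =>
      (c1_ext D (fun s : {s // s ∈ D} => ω s) hs).symm
    exact ⟨fun s => ω s, (hA _ _ h3).1 h2, h1, h3⟩
  · rintro ⟨c, h1, h2, h3⟩
    exact ⟨h2, (hA _ _ h3).2 h1⟩


/-- `unif` is invariant under every permutation of `Fin 3`. -/
theorem unif_map (e : Equiv.Perm (Fin 3)) : unif.map e = unif := by
  refine Measure.ext_of_singleton fun c => ?_
  rw [Measure.map_apply (measurable_of_countable _) (measurableSet_singleton c)]
  have h : (e : Fin 3 → Fin 3) ⁻¹' {c} = {e.symm c} := by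
    ext x
    simp [Equiv.eq_symm_apply]
  rw [h, c1_singleton, c1_singleton]

/-- coordinatewise permutations preserve `P` (`Measure.infinitePi_map_pi`) -/
theorem mp_perm (e : ℤ × ℤ → Equiv.Perm (Fin 3)) :
    MeasurePreserving (fun (ω : Env) s => e s (ω s)) P P := by
  refine ⟨?_, ?_⟩
  · exact measurable_pi_lambda _ fun s =>
      (measurable_of_countable (e s)).comp (measurable_pi_apply s)
  · unfold P
    rw [Measure.infinitePi_map_pi (fun _ : ℤ × ℤ => unif) (f := fun s => (e s : Fin 3 → Fin 3))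
      fun s => measurable_of_countable (e s)]
    simp only [unif_map]

/-- `unif t` is the number of elements of `t`, divided by 3. -/
theorem unif_singleton (c : Fin 3) : unif {c} = (3 : ENNReal)⁻¹ := by
  exact c1_singleton c

/-- **Single site.**  `J` does not depend on the site `s`.  The three sets `J ∩ {ω s = c}` are exchanged by
the measure preserving maps `mp_perm` (which act only at `s`), so they have the same measure, and
their disjoint union is `J`. -/
theorem P_single (s : ℤ × ℤ) {J : Set Env} (hJ : MeasurableSet J)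
    (hs : ∀ ω c, ω ∈ J ↔ Function.update ω s c ∈ J) (c : Fin 3) :
    P (J ∩ {ω | ω s = c}) = P J * (3 : ENNReal)⁻¹ := by
  have hinv : ∀ c c' : Fin 3, P (J ∩ {ω | ω s = c}) = P (J ∩ {ω | ω s = c'}) := by
    intro c c'
    let e : ℤ × ℤ → Equiv.Perm (Fin 3) := fun t => if t = s then Equiv.swap c c' else 1
    have h1 := (mp_perm e).measure_preimage
      ((hJ.inter (c1_meas_site s c')).nullMeasurableSet)
    rw [← h1]
    congr 1
    ext ω
    have h2 : (fun t => e t (ω t)) = Function.update ω s (Equiv.swap c c' (ω s)) := by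
      funext t
      by_cases ht : t = s
      · subst ht
        rw [Function.update_self]
        simp [e]
      · rw [Function.update_of_ne ht]
        simp [e, ht]
    change ω ∈ J ∧ ω s = c ↔ (fun t => e t (ω t)) ∈ J ∧ (fun t => e t (ω t)) s = c'
    rw [h2, ← hs, Function.update_self]
    have h3 : ω s = c ↔ Equiv.swap c c' (ω s) = c' := by
      rw [← Equiv.apply_eq_iff_eq (Equiv.swap c c'), Equiv.swap_apply_left]
    rw [h3]
  have hsum : P J = ∑ c : Fin 3, P (J ∩ {ω | ω s = c}) := by
    have h1 : J = ⋃ c : Fin 3, (J ∩ {ω | ω s = c}) := by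
      ext ω
      simp
    conv_lhs => rw [h1]
    rw [measure_iUnion, tsum_fintype]
    · intro c c' hcc
      refine Set.disjoint_left.2 fun ω h2 h3 => hcc ?_
      exact h2.2.symm.trans h3.2
    · exact fun c => hJ.inter (c1_meas_site s c)
  have h3 : P J = 3 * P (J ∩ {ω | ω s = c}) := by
    rw [hsum, Finset.sum_congr rfl fun c' _ => hinv c' c, Finset.sum_const, Finset.card_univ,
      Fintype.card_fin, nsmul_eq_mul]
    norm_num
  rw [h3, mul_comm 3 (P _), mul_assoc, ENNReal.mul_inv_cancel (by norm_num) (by norm_num), mul_one]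

/-- Induction on `D` with `P_single`. -/
theorem P_inter_cyl (D : Finset (ℤ × ℤ)) {J : Set Env} (hJ : MeasurableSet J)
    (hJD : ∀ ω ω' : Env, (∀ s, s ∉ D → ω s = ω' s) → (ω ∈ J ↔ ω' ∈ J)) (c : Env) :
    P (J ∩ {ω | ∀ s ∈ D, ω s = c s}) = P J * (3 : ENNReal)⁻¹ ^ D.card := by
  induction D using Finset.induction_on with
  | empty => simp
  | insert s D hsD ih =>
    have h1 : J ∩ {ω : Env | ∀ t ∈ insert s D, ω t = c t} =
        (J ∩ {ω : Env | ∀ t ∈ D, ω t = c t}) ∩ {ω | ω s = c s} := by
      ext ω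
      simp only [Set.mem_inter_iff, Set.mem_ofPred_eq, Finset.mem_insert, forall_eq_or_imp]
      tauto
    have h2 := ih (fun ω ω' h => hJD ω ω' fun t ht => h t fun ht' => ht (Finset.mem_insert_of_mem ht'))
    rw [h1, P_single s (hJ.inter (c1_meas_cyl D c)) ?_ (c s), h2, Finset.card_insert_of_notMem hsD,
      pow_succ, mul_assoc]
    intro ω a
    have h3 : ω ∈ J ↔ Function.update ω s a ∈ J := by
      apply hJD
      intro t ht
      rw [Function.update_of_ne]
      rintro rfl
      exact ht (Finset.mem_insert_self _ _)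
    have h4 : (∀ t ∈ D, ω t = c t) ↔ ∀ t ∈ D, Function.update ω s a t = c t := by
      refine forall_congr' fun t => forall_congr' fun ht => ?_
      rw [Function.update_of_ne]
      rintro rfl
      exact hsD ht
    exact and_congr h3 h4

/-- **Finite independence.**  `A` is a disjoint union of finitely many sets `{ω | ∀ s ∈ D, ω s = c s}`;
sum `P_inter_cyl` (for `J` and for `univ`). -/
theorem P_indep (D : Finset (ℤ × ℤ)) {J A : Set Env} (hJ : MeasurableSet J)
    (hJD : ∀ ω ω' : Env, (∀ s, s ∉ D → ω s = ω' s) → (ω ∈ J ↔ ω' ∈ J))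
    (hA : ∀ ω ω' : Env, (∀ s ∈ D, ω s = ω' s) → (ω ∈ A ↔ ω' ∈ A)) :
    P (J ∩ A) = P J * P A := by
  classical
  have key : ∀ K : Set Env, MeasurableSet K →
      (∀ ω ω' : Env, (∀ s, s ∉ D → ω s = ω' s) → (ω ∈ K ↔ ω' ∈ K)) →
      P (K ∩ A) = P K * (((Finset.univ.filter fun c : {s // s ∈ D} → Fin 3 =>
        c1ext D c ∈ A).card : ENNReal) * (3 : ENNReal)⁻¹ ^ D.card) := by
    intro K hK hKD
    rw [c1_decomp D K hA, measure_biUnion_finset]
    · rw [Finset.sum_congr rfl fun c _ => P_inter_cyl D hK hKD (c1ext D c), Finset.sum_const,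
        nsmul_eq_mul]
      ring
    · intro c _ c' _ hcc
      refine Set.disjoint_left.2 fun ω h2 h3 => hcc ?_
      funext s
      have h4 := h2.2 s s.2
      have h5 := h3.2 s s.2
      rw [c1_ext D c s.2] at h4
      rw [c1_ext D c' s.2] at h5
      exact h4.symm.trans h5
    · exact fun c _ => hK.inter (c1_meas_cyl D _)
  have h1 := key J hJ hJD
  have h2 := key Set.univ MeasurableSet.univ (fun _ _ _ => Iff.rfl)
  rw [Set.univ_inter, measure_univ, one_mul] at h2
  rw [h1, h2]

/-- such a set `A` is measurable -/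
theorem measurableSet_of_finset (D : Finset (ℤ × ℤ)) {A : Set Env}
    (hA : ∀ ω ω' : Env, (∀ s ∈ D, ω s = ω' s) → (ω ∈ A ↔ ω' ∈ A)) : MeasurableSet A := by
  classical
  have h := c1_decomp D Set.univ hA
  rw [Set.univ_inter] at h
  rw [h]
  exact Finset.measurableSet_biUnion _ fun c _ => MeasurableSet.univ.inter (c1_meas_cyl D _)

end Pool.Agent.GRW
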