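import Pool.Agent.GRW.K1

/-! # GRW row K4 : environments compatible with a history; forced steps (deterministic) -/

namespace Pool.Agent.GRW

/-- the environment `ω` with the values on `D` replaced by those of `c` -/
def modEnv (D : Finset (ℤ × ℤ)) (c ω : Env) : Env := fun u => if u ∈ D then c u else ω u

/-- at every site other than `x L`, the pairing maps crossed directions to crossed directions -/
def Compat (ω : Env) (x : ℕ → ℤ × ℤ) (L : ℕ) : Prop :=
  ∀ u, u ≠ x L → ∀ d, d ∉ freshDirs x L u → pr (ω u) d ∉ freshDirs x L u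

theorem k4_pairing : ∀ S : Finset (Fin 4), Even S.card → ∃ p : Fin 3, ∀ d, d ∉ S → pr p d ∉ S := by
  decide

theorem k4_fresh_univ {x : ℕ → ℤ × ℤ} {L : ℕ} {u : ℤ × ℤ} (h : ∀ j ≤ L, x j ≠ u) :
    freshDirs x L u = Finset.univ := by
  ext d
  simp only [Finset.mem_univ, iff_true]
  rw [mem_freshDirs]
  intro k hk he
  have hu : u ∈ s(x k, x (k + 1)) := by
    rw [← he]
    exact Sym2.mem_mk_left _ _
  rw [Sym2.mem_iff] at hu
  rcases hu with hu | hu
  · exact h k hk.le hu.symm
  · exact h (k + 1) hk hu.symm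

theorem k4_new {S : Finset (Fin 4)} {p : Fin 3} {a : Fin 4} (ha : a ∈ S)
    (h : ∀ d, d ∉ S → pr p d ∉ S) :
    a ∉ S.erase a ∧ ∀ d, d ∉ S.erase a → d ≠ a → pr p d ∉ S.erase a ∧ pr p d ≠ a := by
  refine ⟨Finset.notMem_erase a S, fun d hd hda => ?_⟩
  have hdS : d ∉ S := fun hh => hd (Finset.mem_erase.2 ⟨hda, hh⟩)
  have h1 := h d hdS
  refine ⟨fun hh => h1 (Finset.mem_of_mem_erase hh), fun hh => h1 ?_⟩
  rw [hh]
  exact ha

/-- For every even subset `S` of `Fin 4` there is a pairing which maps the complement of `S` into itself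
(`decide`).  `D` = the sites `u` among `x 0, ..., x L` with `freshDirs x L u ≠ univ`. -/
theorem exists_compat {x : ℕ → ℤ × ℤ} {L : ℕ} (hE : EvenAt x L) :
    ∃ (D : Finset (ℤ × ℤ)) (c : Env), (∀ u ∈ D, freshDirs x L u ≠ Finset.univ) ∧
      ∀ ω, Compat (modEnv D c ω) x L := by
  classical
  have hch : ∀ u, ∃ p : Fin 3, ∀ d, d ∉ freshDirs x L u → pr p d ∉ freshDirs x L u :=
    fun u => k4_pairing _ (hE u)
  choose c hc using hch
  refine ⟨((Finset.range (L + 1)).image x).filter (fun u => freshDirs x L u ≠ Finset.univ), c,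
    fun u hu => (Finset.mem_filter.1 hu).2, ?_⟩
  intro ω u _ d hd
  have hmem : u ∈ ((Finset.range (L + 1)).image x).filter
      (fun u => freshDirs x L u ≠ Finset.univ) := by
    have hne : freshDirs x L u ≠ Finset.univ := by
      intro h
      rw [h] at hd
      exact hd (Finset.mem_univ d)
    rw [Finset.mem_filter]
    refine ⟨?_, hne⟩
    by_contra hni
    apply hne
    apply k4_fresh_univ
    intro j hj hju
    exact hni (Finset.mem_image.2 ⟨j, Finset.mem_range.2 (by omega), hju⟩)
  have he : modEnv (((Finset.range (L + 1)).image x).filter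
      (fun u => freshDirs x L u ≠ Finset.univ)) c ω u = c u := if_pos hmem
  rw [he]
  exact hc u d hd

/-- **Forced steps.**  Invariant, for `L < r ≤ N`, with `a_r = (orb ω (x L, k) (r - L - 1)).2 + 2` the direction from
`x r` back to `x (r-1)`: for all `u ≠ x L`, if `u ≠ x r` then `pr (ω u)` maps crossed directions at `u` (time `r`) to
crossed directions; if `u = x r` then `a_r` is crossed and `pr (ω u)` maps `{crossed at time r} \ {a_r}` into itself.
(At time `L + 1`: `Compat`.  Step: the orbit leaves `x r` in the direction `pr (ω (x r)) a_r`, which is the direction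
of the step of `x`; use `freshDirs_succ_*`.)  At time `N` there are three crossed directions: `a_N` and a set `C` of
two elements stable under `pr`; so `pr a_N ∉ C`, `pr a_N ≠ a_N`, and `pr a_N` is the unique fresh direction. -/
theorem forced {ω : Env} {x : ℕ → ℤ × ℤ} {L N : ℕ} (hLN : L < N) (hE : EvenAt x L)
    (hC : Compat ω x L) (hf : ∀ r, L ≤ r → r < N → FreshStep x r)
    (hr : ∀ r, L < r → r ≤ N → x r ≠ x L) {k : Fin 4}
    (hfol : ∀ i, i ≤ N - L → (orb ω (x L, k) i).1 = x (L + i))
    (hcard : (freshDirs x N (x N)).card = 1) :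
    (orb ω (x L, k) (N - L)).2 ∈ freshDirs x N (x N) := by
  have hstep : ∀ i, L + i + 1 ≤ N → x (L + i + 1) = x (L + i) + dv (orb ω (x L, k) i).2 := by
    intro i hi
    have h1 := hfol (i + 1) (by omega)
    rw [orb_base_succ, hfol i (by omega)] at h1
    exact h1.symm
  have hfresh : ∀ i, L + i + 1 ≤ N → (orb ω (x L, k) i).2 ∈ freshDirs x (L + i) (x (L + i)) := by
    intro i hi
    obtain ⟨d, hd, hd2⟩ := hf (L + i) (by omega) (by omega)
    rw [hstep i hi] at hd2
    have h1 : dv (orb ω (x L, k) i).2 = dv d := add_left_cancel hd2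
    rw [dv_inj h1]
    exact hd
  have hdir : ∀ i, L + i + 1 ≤ N →
      (orb ω (x L, k) (i + 1)).2 = pr (ω (x (L + i + 1))) ((orb ω (x L, k) i).2 + 2) := by
    intro i hi
    rw [orb_succ]
    show pr (ω ((orb ω (x L, k) i).1 + dv (orb ω (x L, k) i).2)) ((orb ω (x L, k) i).2 + 2) = _
    rw [hfol i (by omega), ← hstep i hi]
  have hinv : ∀ i, L + i + 1 ≤ N →
      (∀ u, u ≠ x L → u ≠ x (L + i + 1) → ∀ d, d ∉ freshDirs x (L + i + 1) u →
        pr (ω u) d ∉ freshDirs x (L + i + 1) u) ∧
      ((orb ω (x L, k) i).2 + 2 ∉ freshDirs x (L + i + 1) (x (L + i + 1)) ∧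
      ∀ d, d ∉ freshDirs x (L + i + 1) (x (L + i + 1)) → d ≠ (orb ω (x L, k) i).2 + 2 →
        pr (ω (x (L + i + 1))) d ∉ freshDirs x (L + i + 1) (x (L + i + 1)) ∧
          pr (ω (x (L + i + 1))) d ≠ (orb ω (x L, k) i).2 + 2) := by
    intro i
    induction i with
    | zero =>
      intro hi
      have h1 := hstep 0 hi
      have h2 := hfresh 0 hi
      obtain ⟨h3, h4⟩ := freshDirs_succ_new h1 h2
      have hne : x (L + 0 + 1) ≠ x L := hr (L + 0 + 1) (by omega) hi
      refine ⟨fun u hu hu' d hd => ?_, ?_⟩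
      · have e : freshDirs x (L + 0 + 1) u = freshDirs x (L + 0) u := freshDirs_succ_other hu hu'
        rw [e] at hd ⊢
        exact hC u hu d hd
      · rw [h4]
        exact k4_new h3 (fun d hd => hC _ hne d hd)
    | succ i ih =>
      intro hi
      obtain ⟨hA, hB1, hB2⟩ := ih (by omega)
      have h1 : x (L + (i + 1) + 1) = x (L + (i + 1)) + dv (orb ω (x L, k) (i + 1)).2 := hstep (i + 1) hi
      have h2 := hfresh (i + 1) hi
      have h5 := hdir i (by omega)
      obtain ⟨h3, h4⟩ := freshDirs_succ_new h1 h2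
      have h6 := freshDirs_succ_self h1 h2
      have hne : x (L + (i + 1) + 1) ≠ x L := hr _ (by omega) hi
      have hne' : x (L + (i + 1) + 1) ≠ x (L + (i + 1)) := by
        intro h
        rw [h1] at h
        exact dv_ne_zero _ (by simpa using h)
      have eL : L + (i + 1) = L + i + 1 := by omega
      refine ⟨fun u hu hu' d hd => ?_, ?_⟩
      · by_cases hux : u = x (L + (i + 1))
        · subst hux
          rw [h6] at hd ⊢
          rw [Finset.mem_erase, not_and_or, not_not] at hd
          rcases hd with hd | hd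
          · intro hh
            have h7 := Finset.mem_of_mem_erase hh
            rw [hd, h5, eL, pr_pr] at h7
            exact hB1 h7
          · by_cases hda : d = (orb ω (x L, k) i).2 + 2
            · have h8 : pr (ω (x (L + (i + 1)))) d = (orb ω (x L, k) (i + 1)).2 := by
                rw [hda, h5, eL]
              rw [h8]
              exact Finset.notMem_erase _ _
            · rw [eL] at hd ⊢
              exact fun hh => (hB2 d hd hda).1 (Finset.mem_of_mem_erase hh)
        · have e : freshDirs x (L + (i + 1) + 1) u = freshDirs x (L + (i + 1)) u :=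
            freshDirs_succ_other hux hu'
          rw [e] at hd ⊢
          exact hA u hu hux d hd
      · rw [h4]
        exact k4_new h3 (fun d hd => hA _ hne hne' d hd)
  obtain ⟨i, rfl⟩ : ∃ i, N = L + i + 1 := ⟨N - L - 1, by omega⟩
  obtain ⟨_, hB1, hB2⟩ := hinv i le_rfl
  have e : L + i + 1 - L = i + 1 := by omega
  rw [e, hdir i le_rfl]
  by_contra hno
  exact (hB2 _ hno (pr_ne _ _)).2 (pr_pr _ _)

end Pool.Agent.GRW
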