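import Pool.Agent.GRW.K3
import Pool.Agent.GRW.K4
import Pool.Agent.GRW.C1
import Pool.Agent.GRW.C5

/-! # GRW row K5 : comparison of the walk with the environment -/

namespace Pool.Agent.GRW

open MeasureTheory Filter Topology

variable {Ω : Type*} [MeasurableSpace Ω] {μ : Measure Ω} {X : ℕ → Ω → ℤ × ℤ}

/-- the trail from `(x L, k)` follows `x` from time `L` to time `N` -/
def Follow (D : Finset (ℤ × ℤ)) (c : Env) (x : ℕ → ℤ × ℤ) (L : ℕ) (k : Fin 4) (N : ℕ) : Set Env :=
  {ω | ∀ i, i ≤ N - L → (orb (modEnv D c ω) (x L, k) i).1 = x (L + i)}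

theorem measurable_modEnv (D : Finset (ℤ × ℤ)) (c : Env) : Measurable (modEnv D c) := by
  refine measurable_pi_iff.2 fun u => ?_
  unfold modEnv
  by_cases hu : u ∈ D
  · simp only [hu, if_true]
    exact measurable_const
  · simp only [hu, if_false]
    exact measurable_pi_apply u

theorem measurableSet_follow (D : Finset (ℤ × ℤ)) (c : Env) (x : ℕ → ℤ × ℤ) (L : ℕ) (k : Fin 4)
    (N : ℕ) : MeasurableSet (Follow D c x L k N) := by
  have h : Follow D c x L k N = ⋂ i ∈ Set.Iic (N - L), (modEnv D c) ⁻¹'
      {ω | orb ω ((fun _ : Env => ((x L, k) : Dart)) ω) i ∈ {z : Dart | z.1 = x (L + i)}} := by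
    ext ω
    simp only [Follow, Set.mem_setOf_eq, Set.mem_iInter, Set.mem_preimage, Set.mem_Iic]
  rw [h]
  refine MeasurableSet.biInter (Set.to_countable _) fun i _ => ?_
  exact measurable_modEnv D c (measurableSet_orb_mem measurable_const i _)

theorem k5_congr {D : Finset (ℤ × ℤ)} {c : Env} {x : ℕ → ℤ × ℤ} {L : ℕ} {k : Fin 4} {N : ℕ} (hLN : L < N)
    (hne : ∀ r, L < r → r < N → x r ≠ x N) {ω ω' : Env} (h : ∀ u, u ≠ x N → ω u = ω' u)
    (hω : ω ∈ Follow D c x L k N) : ω' ∈ Follow D c x L k N := by
  have hmod : ∀ u, u ≠ x N → modEnv D c ω u = modEnv D c ω' u := by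
    intro u hu
    unfold modEnv
    split_ifs
    · rfl
    · exact h u hu
  have key : ∀ i, i ≤ N - L - 1 →
      orb (modEnv D c ω) (x L, k) i = orb (modEnv D c ω') (x L, k) i := by
    intro i
    induction i with
    | zero => intro _; rfl
    | succ i ih =>
      intro hi
      have h1 := ih (by omega)
      have h2 : (orb (modEnv D c ω) (x L, k) (i + 1)).1 = x (L + (i + 1)) := hω (i + 1) (by omega)
      rw [orb_base_succ] at h2
      rw [orb_succ, orb_succ, ← h1]
      have h3 : x (L + (i + 1)) ≠ x N := hne _ (by omega) (by omega)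
      simp only [F]
      rw [h2, hmod _ h3]
  intro i hi
  rcases Nat.lt_or_ge i (N - L) with h1 | h1
  · rw [← key i (by omega)]
    exact hω i hi
  · obtain ⟨j, rfl⟩ : ∃ j, i = j + 1 := ⟨i - 1, by omega⟩
    rw [orb_base_succ, ← key j (by omega), ← orb_base_succ]
    exact hω (j + 1) hi

/-- **Comparison.**  Induction on `N`.  `N = L + 1`: `Follow` is everything.  Step `N → N + 1`: the number of fresh
directions at `x N` is odd (`odd_fresh`).
* It is `1`: `Follow (N+1) = Follow N` by `forced` (the only fresh direction is that of the step), and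
  `μ (cyl (N+1)) ≤ μ (cyl N)`.
* It is `3`: `greedyProb = 1/3`, so `μ (cyl (N+1)) = μ (cyl N) / 3` (`IsGRW.step`).  The only crossed direction at
  `x N` is `a`, the one back to `x (N-1)`; hence `freshDirs x L (x N) = univ` (so `x N ∉ D`) and `x N` is not among
  `x (L+1), ..., x (N-1)`, so `Follow N` does not depend on `ω (x N)` (`orb_congr_le`-like induction), and
  `Follow (N+1) = Follow N ∩ {ω | ω (x N) = p}` where `p` is the unique pairing with `pr p a = b`, `b` the direction of
  the step; so `P (Follow (N+1)) = P (Follow N) / 3` (`P_single`). -/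
theorem compare [IsProbabilityMeasure μ] (hX : IsGRW μ X) {x : ℕ → ℤ × ℤ} {L : ℕ} (hE : EvenAt x L)
    {D : Finset (ℤ × ℤ)} {c : Env} (hD : ∀ u ∈ D, freshDirs x L u ≠ Finset.univ)
    (hC : ∀ ω, Compat (modEnv D c ω) x L) {k : Fin 4} (hk : x (L + 1) = x L + dv k) (N : ℕ)
    (hLN : L + 1 ≤ N) (hf : ∀ r, L ≤ r → r < N → FreshStep x r)
    (hr : ∀ r, L < r → r ≤ N → x r ≠ x L) :
    μ (cyl X N x) ≤ P (Follow D c x L k N) := by
  induction N, hLN using Nat.le_induction with
  | base =>
    have h1 : Follow D c x L k (L + 1) = Set.univ := by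
      refine Set.eq_univ_of_forall fun ω => ?_
      intro i hi
      have : i = 0 ∨ i = 1 := by omega
      rcases this with rfl | rfl
      · rfl
      · rw [orb_base_succ, orb_zero, hk]
    rw [h1, measure_univ]
    exact prob_le_one
  | succ N hN ih =>
    have hf' : ∀ r, L ≤ r → r < N → FreshStep x r := fun r h1 h2 => hf r h1 (by omega)
    have hr' : ∀ r, L < r → r ≤ N → x r ≠ x L := fun r h1 h2 => hr r h1 (by omega)
    have ih' := ih hf' hr'
    obtain ⟨b, hb, hxb⟩ := hf N (by omega) (by omega)
    have hodd := odd_fresh hE (by omega : L ≤ N) hf' (hr' N (by omega) le_rfl)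
    have hcard4 : (freshDirs x N (x N)).card ≤ 4 := by
      simpa using Finset.card_le_univ (freshDirs x N (x N))
    have hcases : (freshDirs x N (x N)).card = 1 ∨ (freshDirs x N (x N)).card = 3 := by
      obtain ⟨t, ht⟩ := hodd
      omega
    -- the last step before `N`
    obtain ⟨a, ha, hxa⟩ := hf (N - 1) (by omega) (by omega)
    have eN : N - 1 + 1 = N := by omega
    rw [eN] at hxa
    rcases hcases with h1 | h3
    · have hsub : Follow D c x L k N ⊆ Follow D c x L k (N + 1) := by
        intro ω hω i hi
        rcases Nat.lt_or_ge i (N - L + 1) with h2 | h2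
        · exact hω i (by omega)
        · have hi' : i = N - L + 1 := by omega
          subst hi'
          have hfo := forced (by omega : L < N) hE (hC ω) hf' hr' (k := k) (fun i hi => hω i hi) h1
          obtain ⟨e, he⟩ := Finset.card_eq_one.1 h1
          rw [he, Finset.mem_singleton] at hb hfo
          rw [orb_base_succ, hω (N - L) le_rfl, hfo, ← hb]
          have e1 : L + (N - L) = N := by omega
          have e2 : L + (N - L + 1) = N + 1 := by omega
          rw [e1, e2, hxb]
      calc μ (cyl X (N + 1) x) ≤ μ (cyl X N x) := by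
            refine measure_mono fun ω hω k hk => hω k (by omega)
        _ ≤ P (Follow D c x L k N) := ih'
        _ ≤ _ := measure_mono hsub
    · have hnew := freshDirs_succ_new (n := N - 1) (d := a) (by rw [eN]; exact hxa) ha
      rw [eN] at hnew
      obtain ⟨hn1, hn2⟩ := hnew
      have huniv : freshDirs x (N - 1) (x N) = Finset.univ := by
        rw [← Finset.card_eq_iff_eq_univ]
        have h4 := Finset.card_erase_of_mem hn1
        rw [← hn2, h3] at h4
        have h5 : (freshDirs x (N - 1) (x N)).card ≤ Fintype.card (Fin 4) := Finset.card_le_univ _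
        have h6 : Fintype.card (Fin 4) = 4 := by simp
        omega
      have hxD : x N ∉ D := by
        intro hmem
        refine hD _ hmem ?_
        have := freshDirs_anti x (by omega : L ≤ N - 1) (x N)
        rw [huniv] at this
        exact Finset.univ_subset_iff.1 this
      have hne : ∀ r, L < r → r < N → x r ≠ x N := by
        intro r hr1 hr2 heq
        have hr3 : r ≠ N - 1 := by
          rintro rfl
          rw [hxa] at heq
          exact dv_ne_zero a (by simpa using heq)
        obtain ⟨d, hd, hxd⟩ := hf r (by omega) (by omega)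
        have h7 := freshDirs_succ_self hxd hd
        have h8 := freshDirs_anti x (by omega : r + 1 ≤ N - 1) (x r)
        rw [h7, heq, huniv] at h8
        have h9 := h8 (Finset.mem_univ d)
        simp at h9
      have hab : a + 2 ≠ b := by
        intro h
        rw [hn2, ← h] at hb
        simp at hb
      obtain ⟨p, hp⟩ := pr_exists (a + 2) b hab
      have hsub : Follow D c x L k N ∩ {ω | ω (x N) = p} ⊆ Follow D c x L k (N + 1) := by
        rintro ω ⟨hω, hωp⟩ i hi
        rcases Nat.lt_or_ge i (N - L + 1) with h2 | h2
        · exact hω i (by omega)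
        · have hi' : i = N - L + 1 := by omega
          subst hi'
          obtain ⟨j, hj⟩ : ∃ j, N - L = j + 1 := ⟨N - L - 1, by omega⟩
          have e1 : L + (N - L) = N := by omega
          have e2 : L + (N - L + 1) = N + 1 := by omega
          have e3 : L + j = N - 1 := by omega
          have hj1 : (orb (modEnv D c ω) (x L, k) j).1 = x (N - 1) := by
            rw [← e3]; exact hω j (by omega)
          have hj2 : (orb (modEnv D c ω) (x L, k) (j + 1)).1 = x N := by
            rw [← hj, hω (N - L) le_rfl, e1]
          have hj3 : (orb (modEnv D c ω) (x L, k) j).2 = a := by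
            rw [orb_base_succ, hj1, hxa] at hj2
            exact dv_inj (add_left_cancel hj2)
          have hj4 : (orb (modEnv D c ω) (x L, k) (j + 1)).2 = b := by
            rw [orb_succ]
            simp only [F]
            rw [hj1, hj3, ← hxa]
            have : modEnv D c ω (x N) = p := by
              unfold modEnv
              rw [if_neg hxD]
              exact hωp
            rw [this, hp]
          rw [orb_base_succ, hj, hj2, hj4, ← hj, e2, hxb]
      have hgp : greedyProb x N (x (N + 1)) = (3 : ENNReal)⁻¹ := by
        unfold greedyProb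
        have hne' : freshDirs x N (x N) ≠ ∅ := by
          intro h
          rw [h] at h3
          simp at h3
        rw [if_neg hne', if_pos ⟨b, hb, hxb⟩, h3]
        norm_num
      have hstep : μ (cyl X (N + 1) x) = μ (cyl X N x) * (3 : ENNReal)⁻¹ := by
        have := hX.step N x
        rw [hgp] at this
        exact this
      have hPs := P_single (x N) (measurableSet_follow D c x L k N) (fun ω c' => by
        constructor
        · intro h
          refine k5_congr (by omega) hne (fun u hu => ?_) h
          rw [Function.update_of_ne hu]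
        · intro h
          refine k5_congr (by omega) hne (fun u hu => ?_) h
          rw [Function.update_of_ne hu]) p
      calc μ (cyl X (N + 1) x) = μ (cyl X N x) * (3 : ENNReal)⁻¹ := hstep
        _ ≤ P (Follow D c x L k N) * (3 : ENNReal)⁻¹ := by gcongr
        _ = P (Follow D c x L k N ∩ {ω | ω (x N) = p}) := hPs.symm
        _ ≤ _ := measure_mono hsub

end Pool.Agent.GRW
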