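import Pool.Agent.GRW.C1

/-! # GRW row C2 : finite modifications and null sets; zero-one law for tail events -/

namespace Pool.Agent.GRW

open MeasureTheory Filter Topology

/-- One site.  Let `N` be a measurable null set containing the bad set; `U = {ω | update ω s c ∈ N}` is
measurable, does not depend on `s`, and `U ∩ {ω s = c} ⊆ N`; so `P U = 0` by `P_single`. -/
theorem ae_update {p : Env → Prop} (h : ∀ᵐ ω ∂P, p ω) (s : ℤ × ℤ) (c : Fin 3) :
    ∀ᵐ ω ∂P, p (Function.update ω s c) := by
  have h0 : P {ω | ¬ p ω} = 0 := h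
  set N : Set Env := toMeasurable P {ω | ¬ p ω} with hN
  have hNm : MeasurableSet N := measurableSet_toMeasurable _ _
  have hN0 : P N = 0 := by rw [hN, measure_toMeasurable, h0]
  have hsub : {ω | ¬ p ω} ⊆ N := subset_toMeasurable _ _
  have hmeas : Measurable fun ω : Env => Function.update ω s c := by
    apply measurable_pi_lambda
    intro s'
    by_cases hs : s' = s
    · subst hs
      simp only [Function.update_self]
      exact measurable_const
    · simp only [Function.update_of_ne hs]
      exact measurable_pi_apply s'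
  set U : Set Env := (fun ω : Env => Function.update ω s c) ⁻¹' N with hU
  have hUm : MeasurableSet U := hmeas hNm
  have h1 := P_single s hUm (fun ω c' => by
    simp only [hU, Set.mem_preimage, Function.update_idem]) c
  have h2 : U ∩ {ω | ω s = c} ⊆ N := by
    rintro ω ⟨h3, h4⟩
    have h5 : Function.update ω s c = ω := by
      rw [Function.update_eq_self_iff]
      exact h4.symm
    simp only [hU, Set.mem_preimage] at h3
    rwa [h5] at h3
  have h3 : P (U ∩ {ω | ω s = c}) = 0 := measure_mono_null h2 hN0
  rw [h3] at h1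
  have h4 : P U = 0 := by
    rcases mul_eq_zero.1 h1.symm with h5 | h5
    · exact h5
    · exact absurd h5 (ENNReal.inv_ne_zero.2 (by norm_num))
  refine measure_mono_null ?_ h4
  intro ω hω
  exact hsub hω

/-- **Finite modifications preserve almost sure properties.**  First show by induction on the finset
`D`, for all `p`: `∀ᵐ ω, ∀ ω', (∀ s ∉ D, ω' s = ω s) → p ω'` (apply `ae_update` to the induction
hypothesis; `ω'` agrees with `update ω s (ω' s)` off `D`); then `ae_all_iff` over the countable type
`Finset (ℤ × ℤ)`. -/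
theorem ae_finMod {p : Env → Prop} (h : ∀ᵐ ω ∂P, p ω) :
    ∀ᵐ ω ∂P, ∀ ω', FinMod ω ω' → p ω' := by
  have key : ∀ D : Finset (ℤ × ℤ), ∀ᵐ ω ∂P, ∀ ω' : Env, (∀ s, s ∉ D → ω' s = ω s) → p ω' := by
    intro D
    induction D using Finset.induction_on with
    | empty =>
      filter_upwards [h] with ω hω ω' h'
      have : ω' = ω := funext fun s => h' s (Finset.notMem_empty s)
      rwa [this]
    | insert a D _ ih =>
      have h1 : ∀ᵐ ω ∂P, ∀ c : Fin 3, ∀ ω' : Env, (∀ s, s ∉ D → ω' s = Function.update ω a c s) → p ω' := by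
        rw [ae_all_iff]
        intro c
        exact ae_update ih a c
      filter_upwards [h1] with ω hω ω' h'
      apply hω (ω' a)
      intro s hs
      by_cases hsa : s = a
      · rw [hsa, Function.update_self]
      · rw [Function.update_of_ne hsa]
        apply h'
        rw [Finset.mem_insert]
        push Not
        exact ⟨hsa, hs⟩
  have h2 : ∀ᵐ ω ∂P, ∀ D : Finset (ℤ × ℤ), ∀ ω' : Env, (∀ s, s ∉ D → ω' s = ω s) → p ω' :=
    ae_all_iff.2 key
  filter_upwards [h2] with ω hω ω' hfin
  apply hω hfin.toFinset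
  intro s hs
  rw [Set.Finite.mem_toFinset] at hs
  by_contra hne
  exact hs (fun h3 => hne h3.symm)

/-- **Tail zero-one law.**  If `P J ≠ 0` let `ν = (P J)⁻¹ • P.restrict J`.  By `P_indep` (with `D = s`) and
`Measure.infinitePi_pi`, `ν` agrees with `P` on measurable boxes, so `ν = P` by `Measure.eq_infinitePi`,
and `P J = ν J = 1`. -/
theorem zero_one_finMod {J : Set Env} (hJ : MeasurableSet J)
    (h : ∀ ω ω', FinMod ω ω' → ω ∈ J → ω' ∈ J) : P J = 0 ∨ P J = 1 := by
  by_cases h0 : P J = 0
  · exact Or.inl h0
  right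
  have hfin : P J ≠ ⊤ := measure_ne_top _ _
  have htail : ∀ (D : Finset (ℤ × ℤ)) (ω ω' : Env), (∀ s, s ∉ D → ω s = ω' s) → (ω ∈ J ↔ ω' ∈ J) := by
    intro D ω ω' hD
    have h1 : ({s | ω s ≠ ω' s} : Set (ℤ × ℤ)).Finite := by
      apply D.finite_toSet.subset
      intro s hs
      by_contra hn
      exact hs (hD s hn)
    have h2 : ({s | ω' s ≠ ω s} : Set (ℤ × ℤ)).Finite := by
      apply h1.subset
      intro s hs
      exact Ne.symm hs
    exact ⟨h _ _ h1, h _ _ h2⟩
  have hν : (P J)⁻¹ • P.restrict J = P := by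
    apply Measure.eq_infinitePi
    intro s t ht
    have hboxm : MeasurableSet (Set.pi (s : Set (ℤ × ℤ)) t) :=
      MeasurableSet.pi s.countable_toSet fun i _ => ht i
    have h1 := P_indep s hJ (htail s) (A := Set.pi (s : Set (ℤ × ℤ)) t) (by
      intro ω ω' hωω
      simp only [Set.mem_pi]
      constructor
      · intro h2 i hi
        rw [← hωω i hi]
        exact h2 i hi
      · intro h2 i hi
        rw [hωω i hi]
        exact h2 i hi)
    rw [Measure.smul_apply, Measure.restrict_apply hboxm, Set.inter_comm, h1, smul_eq_mul, ← mul_assoc,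
      ENNReal.inv_mul_cancel h0 hfin, one_mul]
    exact Measure.infinitePi_pi _ fun i _ => ht i
  have h3 : ((P J)⁻¹ • P.restrict J) J = 1 := by
    rw [Measure.smul_apply, Measure.restrict_apply hJ, Set.inter_self, smul_eq_mul,
      ENNReal.inv_mul_cancel h0 hfin]
  rw [hν] at h3
  exact h3

end Pool.Agent.GRW
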