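import Pool.Agent.GRW.K5
import Pool.Agent.GRW.C2

/-! # GRW row K6 : finitely many stuck times -/

namespace Pool.Agent.GRW

open MeasureTheory Filter Topology

variable {Ω : Type*} [MeasurableSpace Ω] {μ : Measure Ω} {X : ℕ → Ω → ℤ × ℤ}

/-- extension of a finite path by zero -/
def k6_pad (s : ℕ) (y : Fin (s + 1) → ℤ × ℤ) : ℕ → ℤ × ℤ :=
  fun k => if h : k < s + 1 then y ⟨k, h⟩ else 0

theorem k6_even_congr {s : ℕ} {x y : ℕ → ℤ × ℤ} (h : ∀ k ≤ s, x k = y k)
    (hx : EvenAt x s) : EvenAt y s := by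
  intro u
  rw [← freshDirs_congr h]
  exact hx u

theorem k6_fresh_congr {s : ℕ} {x y : ℕ → ℤ × ℤ} (h : ∀ k ≤ s, x k = y k) {r : ℕ} (hr : r < s)
    (hx : FreshStep x r) : FreshStep y r := by
  obtain ⟨d, hd, h1⟩ := hx
  refine ⟨d, ?_, ?_⟩
  · rw [← freshDirs_congr (fun k hk => h k (hk.trans hr.le)), ← h r hr.le]
    exact hd
  · rw [← h r hr.le, ← h (r + 1) hr]
    exact h1

/-- **Comparison of events.**  The left event is the union of the cylinders `cyl X N y` with `y = x` up to
time `L`, `y (L+1) = x L + dv k`, fresh steps, no return to `x L`, `y r ∉ S` for `M ≤ r ≤ N` (finitely or countably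
many: `cyl_sum_le`); by `compare` (`freshDirs_congr`: `EvenAt`, `Compat` for `y` and `x` are the same) each has measure at
most `P (Follow D c y L k N)`, and these events are disjoint and contained in the right one
(`measurableSet_follow`, `measure_iUnion`). -/
theorem compare_event [IsProbabilityMeasure μ] (hX : IsGRW μ X) {x : ℕ → ℤ × ℤ} {L : ℕ}
    (hE : EvenAt x L) {D : Finset (ℤ × ℤ)} {c : Env}
    (hD : ∀ u ∈ D, freshDirs x L u ≠ Finset.univ) (hC : ∀ ω, Compat (modEnv D c ω) x L) (k : Fin 4)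
    (S : Set (ℤ × ℤ)) (M N : ℕ) (hM : L ≤ M) (hLN : L + 1 ≤ N) :
    μ {ω | ω ∈ cyl X L x ∧ X (L + 1) ω = x L + dv k ∧
        (∀ r, L ≤ r → r < N → FreshStep (fun j => X j ω) r) ∧
        (∀ r, L < r → r ≤ N → X r ω ≠ x L) ∧ ∀ r, M ≤ r → r ≤ N → X r ω ∉ S} ≤
      P {ω | (∀ i, 0 < i → i ≤ N - L → (orb (modEnv D c ω) (x L, k) i).1 ≠ x L) ∧
        ∀ i, M - L ≤ i → i ≤ N - L → (orb (modEnv D c ω) (x L, k) i).1 ∉ S} := by
  classical
  set E : Set Ω := {ω | ω ∈ cyl X L x ∧ X (L + 1) ω = x L + dv k ∧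
        (∀ r, L ≤ r → r < N → FreshStep (fun j => X j ω) r) ∧
        (∀ r, L < r → r ≤ N → X r ω ≠ x L) ∧ ∀ r, M ≤ r → r ≤ N → X r ω ∉ S} with hEdef
  -- the good paths
  let Good : (Fin (N + 1) → ℤ × ℤ) → Prop := fun y =>
    (∀ j ≤ L, k6_pad N y j = x j) ∧ k6_pad N y (L + 1) = x L + dv k ∧
      (∀ r, L ≤ r → r < N → FreshStep (k6_pad N y) r) ∧
      (∀ r, L < r → r ≤ N → k6_pad N y r ≠ x L) ∧ ∀ r, M ≤ r → r ≤ N → k6_pad N y r ∉ S
  let Fo : (Fin (N + 1) → ℤ × ℤ) → Set Env := fun y =>
    if Good y then Follow D c (k6_pad N y) L k N else ∅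
  have hFm : ∀ y, MeasurableSet (Fo y) := by
    intro y
    by_cases hy : Good y
    · simp only [Fo]
      rw [if_pos hy]
      exact measurableSet_follow D c _ L k N
    · simp only [Fo]
      rw [if_neg hy]
      exact MeasurableSet.empty
  have hFd : Pairwise (Function.onFun Disjoint Fo) := by
    intro y y' hyy
    refine Set.disjoint_left.2 fun ω h1 h2 => hyy ?_
    by_cases hy : Good y
    · by_cases hy' : Good y'
      · simp only [Fo] at h1 h2
        rw [if_pos hy] at h1
        rw [if_pos hy'] at h2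
        funext j
        have hj := j.2
        have e1 : k6_pad N y j = y j := by
          unfold k6_pad
          rw [dif_pos j.2]
        have e2 : k6_pad N y' j = y' j := by
          unfold k6_pad
          rw [dif_pos j.2]
        rw [← e1, ← e2]
        rcases Nat.lt_or_ge (j : ℕ) (L + 1) with h | h
        · rw [hy.1 j (by omega), hy'.1 j (by omega)]
        · have h3 := h1 ((j : ℕ) - L) (by omega)
          have h4 := h2 ((j : ℕ) - L) (by omega)
          have h5 : L + ((j : ℕ) - L) = j := by omega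
          rw [h5, hy.1 L le_rfl] at h3
          rw [h5, hy'.1 L le_rfl] at h4
          rw [← h3, ← h4]
      · simp only [Fo] at h2
        rw [if_neg hy'] at h2
        exact absurd h2 (Set.notMem_empty _)
    · simp only [Fo] at h1
      rw [if_neg hy] at h1
      exact absurd h1 (Set.notMem_empty _)
  have hFsub : (⋃ y, Fo y) ⊆
      {ω | (∀ i, 0 < i → i ≤ N - L → (orb (modEnv D c ω) (x L, k) i).1 ≠ x L) ∧
        ∀ i, M - L ≤ i → i ≤ N - L → (orb (modEnv D c ω) (x L, k) i).1 ∉ S} := by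
    intro ω hω
    obtain ⟨y, hy⟩ := Set.mem_iUnion.1 hω
    by_cases hg : Good y
    · simp only [Fo] at hy
      rw [if_pos hg] at hy
      have hfo : ∀ i, i ≤ N - L → (orb (modEnv D c ω) (x L, k) i).1 = k6_pad N y (L + i) := by
        intro i hi
        have := hy i hi
        rwa [hg.1 L le_rfl] at this
      refine ⟨fun i h0 hi => ?_, fun i h0 hi => ?_⟩
      · rw [hfo i hi]
        exact hg.2.2.2.1 (L + i) (by omega) (by omega)
      · rw [hfo i hi]
        exact hg.2.2.2.2 (L + i) (by omega) (by omega)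
    · simp only [Fo] at hy
      rw [if_neg hg] at hy
      exact absurd hy (Set.notMem_empty _)
  have hle : ∀ y : Fin (N + 1) → ℤ × ℤ, μ (E ∩ cyl X N (k6_pad N y)) ≤ P (Fo y) := by
    intro y
    by_cases hne : (E ∩ cyl X N (k6_pad N y)).Nonempty
    · obtain ⟨ω, ⟨h1, h2, h3, h4, h5⟩, h6⟩ := hne
      have h7 : ∀ j ≤ N, X j ω = k6_pad N y j := h6
      have hg : Good y := by
        refine ⟨fun j hj => ?_, ?_, fun r hr hrN => ?_, fun r hr hrN => ?_, fun r hr hrN => ?_⟩
        · rw [← h7 j (by omega)]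
          exact h1 j hj
        · rw [← h7 (L + 1) hLN]
          exact h2
        · exact k6_fresh_congr (x := fun j => X j ω) h7 hrN (h3 r hr hrN)
        · rw [← h7 r hrN]
          exact h4 r hr hrN
        · rw [← h7 r hrN]
          exact h5 r hr hrN
      simp only [Fo]
      rw [if_pos hg]
      have hcg : ∀ u, freshDirs (k6_pad N y) L u = freshDirs x L u := fun u =>
        freshDirs_congr hg.1 u
      have hL : k6_pad N y L = x L := hg.1 L le_rfl
      calc μ (E ∩ cyl X N (k6_pad N y)) ≤ μ (cyl X N (k6_pad N y)) :=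
            measure_mono Set.inter_subset_right
        _ ≤ P (Follow D c (k6_pad N y) L k N) := by
            refine compare hX (k6_even_congr (fun j hj => (hg.1 j hj).symm) hE) ?_ ?_ ?_ N hLN
              hg.2.2.1 ?_
            · intro u hu
              rw [hcg]
              exact hD u hu
            · intro ω' u hu d hd
              rw [hcg] at hd ⊢
              rw [hL] at hu
              exact hC ω' u hu d hd
            · rw [hL]
              exact hg.2.1
            · intro r hr hrN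
              rw [hL]
              exact hg.2.2.2.1 r hr hrN
    · rw [Set.not_nonempty_iff_eq_empty.1 hne, measure_empty]
      exact zero_le
  calc μ E ≤ ∑' y : Fin (N + 1) → ℤ × ℤ, μ (E ∩ cyl X N (k6_pad N y)) := cyl_sum_le N E
    _ ≤ ∑' y, P (Fo y) := ENNReal.tsum_le_tsum hle
    _ = P (⋃ y, Fo y) := (measure_iUnion hFd hFm).symm
    _ ≤ _ := measure_mono hFsub

/-- **Finitely many stuck times.**  Let `D`, `c` be as in `exists_compat`.  The event is contained in the union over
`k` and `M` of the intersections over `N` of the left events of `compare_event`; by continuity from above its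
measure is at most `P` of the event that the orbit of `(x L, k)` under `modEnv D c ω` never returns to `x L` (so it is
infinite) and visits `S` finitely often, which is zero by `hS` and `ae_finMod`. -/
theorem caseII_null [IsProbabilityMeasure μ] (hX : IsGRW μ X) {S : Set (ℤ × ℤ)}
    (hS : ∀ᵐ ω ∂P, ∀ y, Inf ω y → ¬ FinV S (orb ω y)) (L : ℕ) (x : ℕ → ℤ × ℤ) :
    μ ({ω | EvenAt (fun j => X j ω) L ∧ (∀ r, L ≤ r → FreshStep (fun j => X j ω) r) ∧
        (∀ r, L < r → X r ω ≠ X L ω) ∧ {n | X n ω ∈ S}.Finite} ∩ cyl X L x) = 0 := by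
  by_cases hE : EvenAt x L
  · obtain ⟨D, c, hD, hC⟩ := exists_compat hE
    -- the limit event in the environment
    have hnull : ∀ (k : Fin 4) (M : ℕ), L ≤ M →
        P (⋂ N : ℕ, {ω | (∀ i, 0 < i → i ≤ N → (orb (modEnv D c ω) (x L, k) i).1 ≠ x L) ∧
          ∀ i, M - L ≤ i → i ≤ N → (orb (modEnv D c ω) (x L, k) i).1 ∉ S}) = 0 := by
      intro k M hM
      have h1 := ae_finMod hS
      refine measure_mono_null ?_ (ae_iff.1 h1)
      intro ω hω hcon
      rw [Set.mem_iInter] at hω
      have hm : FinMod ω (modEnv D c ω) := by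
        refine (D.finite_toSet).subset ?_
        intro s hs
        by_contra hsD
        refine hs ?_
        have : s ∉ D := hsD
        simp [modEnv, this]
      refine hcon _ hm (x L, k) ?_ ?_
      · intro n hn h2
        exact (hω n).1 n hn le_rfl (by rw [h2])
      · refine (Set.finite_lt_nat (M - L)).subset ?_
        intro n hn
        by_contra h3
        have h4 : M - L ≤ n := by simpa using h3
        exact (hω n).2 n h4 le_rfl hn
    have hmeas : ∀ (k : Fin 4) (M N : ℕ), MeasurableSet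
        {ω | (∀ i, 0 < i → i ≤ N → (orb (modEnv D c ω) (x L, k) i).1 ≠ x L) ∧
          ∀ i, M - L ≤ i → i ≤ N → (orb (modEnv D c ω) (x L, k) i).1 ∉ S} := by
      intro k M N
      have h1 : MeasurableSet
          {ω : Env | (∀ i, 0 < i → i ≤ N → (orb ω (x L, k) i).1 ≠ x L) ∧
            ∀ i, M - L ≤ i → i ≤ N → (orb ω (x L, k) i).1 ∉ S} := by
        have : {ω : Env | (∀ i, 0 < i → i ≤ N → (orb ω (x L, k) i).1 ≠ x L) ∧
            ∀ i, M - L ≤ i → i ≤ N → (orb ω (x L, k) i).1 ∉ S} =
            ⋂ i : ℕ, {ω | orb ω ((fun _ : Env => ((x L, k) : Dart)) ω) i ∈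
              {d : Dart | (0 < i → i ≤ N → d.1 ≠ x L) ∧ (M - L ≤ i → i ≤ N → d.1 ∉ S)}} := by
          ext ω
          simp only [Set.mem_iInter]
          exact ⟨fun h i => ⟨h.1 i, h.2 i⟩, fun h => ⟨fun i => (h i).1, fun i => (h i).2⟩⟩
        rw [this]
        exact MeasurableSet.iInter fun i => measurableSet_orb_mem measurable_const i _
      exact (measurable_modEnv D c) h1
    have hB : ∀ (k : Fin 4) (M : ℕ), L ≤ M →
        μ {ω | ω ∈ cyl X L x ∧ X (L + 1) ω = x L + dv k ∧
          (∀ r, L ≤ r → FreshStep (fun j => X j ω) r) ∧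
          (∀ r, L < r → X r ω ≠ x L) ∧ ∀ r, M ≤ r → X r ω ∉ S} = 0 := by
      intro k M hM
      have hanti : Antitone fun N : ℕ =>
          {ω | (∀ i, 0 < i → i ≤ N → (orb (modEnv D c ω) (x L, k) i).1 ≠ x L) ∧
            ∀ i, M - L ≤ i → i ≤ N → (orb (modEnv D c ω) (x L, k) i).1 ∉ S} := by
        intro a b hab ω hω
        exact ⟨fun i h0 hi => hω.1 i h0 (hi.trans hab), fun i h0 hi => hω.2 i h0 (hi.trans hab)⟩
      have ht := tendsto_measure_iInter_atTop (μ := P)
        (fun N => (hmeas k M N).nullMeasurableSet) hanti ⟨0, measure_ne_top _ _⟩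
      rw [hnull k M hM] at ht
      refine le_antisymm ?_ zero_le
      refine ge_of_tendsto ht ?_
      filter_upwards [eventually_ge_atTop 1] with N hN
      have h1 := compare_event hX hE hD hC k S M (L + N) hM (by omega)
      rw [Nat.add_sub_cancel_left] at h1
      refine le_trans (measure_mono ?_) h1
      rintro ω ⟨h2, h3, h4, h5, h6⟩
      exact ⟨h2, h3, fun r hr _ => h4 r hr, fun r hr _ => h5 r hr, fun r hr _ => h6 r hr⟩
    have hsub : ({ω | EvenAt (fun j => X j ω) L ∧ (∀ r, L ≤ r → FreshStep (fun j => X j ω) r) ∧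
        (∀ r, L < r → X r ω ≠ X L ω) ∧ {n | X n ω ∈ S}.Finite} ∩ cyl X L x) ⊆
        ⋃ k : Fin 4, ⋃ M : ℕ, {ω | ω ∈ cyl X L x ∧ X (L + 1) ω = x L + dv k ∧
          (∀ r, L ≤ r → FreshStep (fun j => X j ω) r) ∧
          (∀ r, L < r → X r ω ≠ x L) ∧ ∀ r, L + M ≤ r → X r ω ∉ S} := by
      rintro ω ⟨⟨_, h2, h3, h4⟩, h5⟩
      have hL : X L ω = x L := h5 L le_rfl
      obtain ⟨k, _, hk⟩ := h2 L le_rfl
      obtain ⟨B, hB'⟩ := h4.bddAbove
      rw [Set.mem_iUnion]
      refine ⟨k, Set.mem_iUnion.2 ⟨B + 1, h5, ?_, h2, ?_, ?_⟩⟩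
      · rw [← hL]
        exact hk
      · intro r hr
        rw [← hL]
        exact h3 r hr
      · intro r hr hrS
        have := hB' (show r ∈ {n | X n ω ∈ S} from hrS)
        omega
    refine measure_mono_null hsub ?_
    rw [measure_iUnion_null_iff]
    intro k
    rw [measure_iUnion_null_iff]
    intro M
    exact hB k (L + M) (by omega)
  · have : ({ω | EvenAt (fun j => X j ω) L ∧ (∀ r, L ≤ r → FreshStep (fun j => X j ω) r) ∧
        (∀ r, L < r → X r ω ≠ X L ω) ∧ {n | X n ω ∈ S}.Finite} ∩ cyl X L x) = ∅ := by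
      ext ω
      simp only [Set.mem_empty_iff_false, iff_false]
      rintro ⟨⟨h2, _⟩, h4⟩
      exact hE (k6_even_congr (x := fun j => X j ω) h4 h2)
    rw [this, measure_empty]

end Pool.Agent.GRW
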