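import Pool.Agent.GRW.D1

/-! # GRW row D3 : mass transport for `Hit` -/

namespace Pool.Agent.GRW

open MeasureTheory Filter Topology

/-- probability that the trail leaving `(0,-1)` northwards reaches row `h` before returning to row `-1` -/
noncomputable def nh (h : ℕ) : ENNReal := P {ω | ∃ x', Hit ω h 0 x'}

/-- `x'` is the first hitting point of row `h` of a trail which does not reach row `h + 1` -/
def Turn (ω : Env) (h : ℕ) (x' : ℤ) : Prop := ∃ x, Hit ω h x x' ∧ ¬ ∃ x'', Hit ω (h + 1) x x''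

/-- **Mass transport.**  For sets `A x x'` of environments which are measurable, translation covariant,
and disjoint in `x'` for fixed `x`, and in `x` for fixed `x'`:
`P (⋃ x, A x x') = ∑ x, P (A x x') = ∑ x, P (A 0 (x' - x)) = ∑ y, P (A 0 y) = P (⋃ y, A 0 y)`. -/
theorem mass_transport (A : ℤ → ℤ → Set Env) (hA : ∀ x x', MeasurableSet (A x x'))
    (ht : ∀ (a x x' : ℤ) (ω : Env), shift (a, 0) ω ∈ A x x' ↔ ω ∈ A (x + a) (x' + a))
    (hd : ∀ x x' x'' (ω : Env), ω ∈ A x x' → ω ∈ A x x'' → x' = x'')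
    (hd' : ∀ x y x' (ω : Env), ω ∈ A x x' → ω ∈ A y x' → x = y) (x' : ℤ) :
    P {ω | ∃ x, ω ∈ A x x'} = P {ω | ∃ y, ω ∈ A 0 y} := by
  have h1 : {ω | ∃ x, ω ∈ A x x'} = ⋃ x, A x x' := by
    ext ω
    simp
  have h2 : {ω | ∃ y, ω ∈ A 0 y} = ⋃ y, A 0 y := by
    ext ω
    simp
  have key : ∀ x, P (A x x') = P (A 0 (x' - x)) := by
    intro x
    have he : A x x' = (shift (x, 0)) ⁻¹' (A 0 (x' - x)) := by
      ext ω
      have := ht x 0 (x' - x) ω
      rw [zero_add, sub_add_cancel] at this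
      exact this.symm
    rw [he, (mp_shift (x, 0)).measure_preimage (hA _ _).nullMeasurableSet]
  rw [h1, h2, measure_iUnion (fun x y hxy => Set.disjoint_left.2 fun ω ha hb =>
      hxy (hd' x y x' ω ha hb)) (fun x => hA x x'),
    measure_iUnion (fun y z hyz => Set.disjoint_left.2 fun ω ha hb =>
      hyz (hd 0 y z ω ha hb)) (fun y => hA 0 y)]
  simp_rw [key]
  exact (Equiv.subLeft x').tsum_eq (fun y => P (A 0 y))

/-- `mass_transport` for `A x x' = {Hit ω h x x'}` -/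
theorem P_image (h : ℕ) (x' : ℤ) : P {ω | ∃ x, Hit ω h x x'} = nh h := by
  exact mass_transport (fun x x' => {ω | Hit ω h x x'}) (fun x x' => measurableSet_Hit h x x')
    (fun a x x' ω => Hit_shift ω h x x' a) (fun _ _ _ _ h1 h2 => h1.right_unique h2)
    (fun _ _ _ _ h1 h2 => h1.left_unique h2) x'

theorem d3_measurableSet_ex (h : ℕ) (x : ℤ) : MeasurableSet {ω | ∃ x', Hit ω h x x'} := by
  have he : {ω | ∃ x', Hit ω h x x'} = ⋃ x', {ω | Hit ω h x x'} := by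
    ext ω
    simp
  rw [he]
  exact MeasurableSet.iUnion fun x' => measurableSet_Hit h x x'

theorem d3_measurableSet (h : ℕ) (x x' : ℤ) :
    MeasurableSet {ω | Hit ω h x x' ∧ ¬ ∃ x'', Hit ω (h + 1) x x''} :=
  (measurableSet_Hit h x x').inter (d3_measurableSet_ex (h + 1) x).compl

/-- `mass_transport` for `A x x' = {Hit ω h x x' ∧ ¬ ∃ x'', Hit ω (h+1) x x''}`, and `Hit_pred` -/
theorem P_turn (h : ℕ) (x' : ℤ) : P {ω | Turn ω h x'} + nh (h + 1) = nh h := by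
  have h1 : P {ω | Turn ω h x'} =
      P {ω | ∃ y, ω ∈ {ω | Hit ω h 0 y ∧ ¬ ∃ x'', Hit ω (h + 1) 0 x''}} := by
    refine mass_transport (fun x x' => {ω | Hit ω h x x' ∧ ¬ ∃ x'', Hit ω (h + 1) x x''})
      (fun x x' => d3_measurableSet h x x') ?_ (fun _ _ _ _ h1 h2 => h1.1.right_unique h2.1)
      (fun _ _ _ _ h1 h2 => h1.1.left_unique h2.1) x'
    intro a x x' ω
    simp only [Set.mem_setOf_eq, Hit_shift]
    refine and_congr Iff.rfl (not_congr ?_)
    constructor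
    · rintro ⟨x'', hx⟩
      exact ⟨_, hx⟩
    · rintro ⟨x'', hx⟩
      exact ⟨x'' - a, by rwa [sub_add_cancel]⟩
  have h2 : {ω | ∃ y, ω ∈ {ω | Hit ω h 0 y ∧ ¬ ∃ x'', Hit ω (h + 1) 0 x''}} =
      {ω | ∃ x', Hit ω h 0 x'} \ {ω | ∃ x', Hit ω (h + 1) 0 x'} := by
    ext ω
    simp only [Set.mem_setOf_eq, Set.mem_diff]
    constructor
    · rintro ⟨y, hy, hy'⟩
      exact ⟨⟨y, hy⟩, hy'⟩
    · rintro ⟨⟨y, hy⟩, hy'⟩
      exact ⟨y, hy, hy'⟩
  have h3 : {ω | ∃ x', Hit ω h 0 x'} ∩ {ω | ∃ x', Hit ω (h + 1) 0 x'} =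
      {ω | ∃ x', Hit ω (h + 1) 0 x'} := by
    refine Set.inter_eq_self_of_subset_right ?_
    rintro ω ⟨x', hx'⟩
    exact Hit_pred hx'
  have h4 := measure_inter_add_diff (μ := P) {ω | ∃ x', Hit ω h 0 x'}
    (d3_measurableSet_ex (h + 1) 0)
  rw [h3] at h4
  rw [h1, h2, add_comm]
  exact h4

theorem measurableSet_turn (h : ℕ) (x' : ℤ) : MeasurableSet {ω | Turn ω h x'} := by
  have he : {ω | Turn ω h x'} = ⋃ x, {ω | Hit ω h x x' ∧ ¬ ∃ x'', Hit ω (h + 1) x x''} := by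
    ext ω
    simp [Turn]
  rw [he]
  exact MeasurableSet.iUnion fun x => d3_measurableSet h x x'

theorem nh_le_one (h : ℕ) : nh h ≤ 1 := prob_le_one

theorem nh_anti : Antitone nh := by
  refine antitone_nat_of_succ_le fun h => ?_
  refine measure_mono ?_
  rintro ω ⟨x', hx'⟩
  exact Hit_pred hx'

end Pool.Agent.GRW
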