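import Pool.Agent.GRW.K1

/-! # GRW row K2 : the two cases (deterministic) -/

namespace Pool.Agent.GRW

theorem k2_fresh {x : ℕ → ℤ × ℤ} (hx : Greedy x) {t n : ℕ}
    (h : ∀ r, t ≤ r → r < n → ¬ Stuck x r) : ∀ r, t ≤ r → r < n → FreshStep x r :=
  fun r h1 h2 => (hx.2 r).2 (h r h1 h2)

theorem k2_stuck {x : ℕ → ℤ × ℤ} (hx : Greedy x) {t s : ℕ} (hts : t ≤ s) (ht : EvenAt x t)
    (h : ∀ r, t ≤ r → r < s → ¬ Stuck x r) (hs : Stuck x s) : EvenAt x s ∧ EvenAt x (s + 1) := by
  have h1 := stuck_return ht hts (k2_fresh hx h) hs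
  have h2 := evenAt_of_return ht hts (k2_fresh hx h) h1
  exact ⟨h2, evenAt_succ_stuck h2 hs (hx.2 s).1⟩

/-- Before every time `n` there is the start `t` of the present run.  Induction on `n`: if the walk is stuck at
time `n` then it is even at time `n` (`stuck_return`, `evenAt_of_return`) and at time `n + 1`
(`evenAt_succ_stuck`), so take `t = n + 1`; otherwise keep `t`. -/
theorem exists_run {x : ℕ → ℤ × ℤ} (hx : Greedy x) (n : ℕ) :
    ∃ t ≤ n, EvenAt x t ∧ ∀ r, t ≤ r → r < n → ¬ Stuck x r := by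
  induction n with
  | zero => exact ⟨0, le_rfl, evenAt_zero x, fun r _ h => absurd h (Nat.not_lt_zero r)⟩
  | succ n ih =>
    obtain ⟨t, htn, ht, hr⟩ := ih
    by_cases hs : Stuck x n
    · exact ⟨n + 1, le_rfl, (k2_stuck hx htn ht hr hs).2, fun r h1 h2 => by omega⟩
    · refine ⟨t, by omega, ht, fun r h1 h2 => ?_⟩
      rcases Nat.lt_succ_iff_lt_or_eq.1 h2 with h | h
      · exact hr r h1 h
      · rw [h]
        exact hs

/-- every stuck time is even, and so is the next time -/
theorem evenAt_stuck {x : ℕ → ℤ × ℤ} (hx : Greedy x) {s : ℕ} (hs : Stuck x s) :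
    EvenAt x s ∧ EvenAt x (s + 1) := by
  obtain ⟨t, htn, ht, hr⟩ := exists_run hx s
  exact k2_stuck hx htn ht hr hs

/-- **Finitely many stuck times.**  Let `t` be even with no stuck time `≥ t` (after the last stuck
time, or `0`).  At every time `s ≥ t` with `x s = x t` a fresh edge of `x t` is used, so
`(freshDirs x (s+1) (x t)).card < (freshDirs x s (x t)).card ≤ 4`: there are at most four such times.  Let `L` be
the last one (`evenAt_of_return`). -/
theorem caseII {x : ℕ → ℤ × ℤ} (hx : Greedy x) (hf : {n | Stuck x n}.Finite) :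
    ∃ L, EvenAt x L ∧ (∀ s, L ≤ s → FreshStep x s) ∧ ∀ s, L < s → x s ≠ x L := by
  obtain ⟨t, ht, hns⟩ : ∃ t, EvenAt x t ∧ ∀ r, t ≤ r → ¬ Stuck x r := by
    rcases Set.eq_empty_or_nonempty {n | Stuck x n} with h | h
    · refine ⟨0, evenAt_zero x, fun r _ hr => ?_⟩
      have : r ∈ {n | Stuck x n} := hr
      rw [h] at this
      exact this
    · obtain ⟨m, hm, hmax⟩ := Set.exists_max_image {n | Stuck x n} id hf h
      refine ⟨m + 1, (evenAt_stuck hx hm).2, fun r hr hrs => ?_⟩
      have := hmax r hrs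
      simp only [id] at this
      omega
  have hfr : ∀ s, t ≤ s → FreshStep x s := fun s hs => (hx.2 s).2 (hns s hs)
  have hdec : ∀ s, t ≤ s → x s = x t →
      (freshDirs x (s + 1) (x t)).card < (freshDirs x s (x t)).card := by
    intro s hs he
    obtain ⟨d, hd1, hd2⟩ := hfr s hs
    rw [← he, freshDirs_succ_self hd2 hd1]
    exact Finset.card_erase_lt_of_mem hd1
  have hfin : {s | t ≤ s ∧ x s = x t}.Finite := by
    refine Set.Finite.of_injOn (f := fun s => (freshDirs x s (x t)).card) (t := Set.Iic 4) ?_ ?_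
      (Set.finite_Iic 4)
    · intro s _
      have := Finset.card_le_univ (freshDirs x s (x t))
      simpa using this
    · have key : ∀ s s', t ≤ s → x s = x t → s < s' →
          (freshDirs x s' (x t)).card < (freshDirs x s (x t)).card := by
        intro s s' h1 h2 h3
        exact (Finset.card_le_card (freshDirs_anti x h3 (x t))).trans_lt (hdec s h1 h2)
      intro s hs s' hs' he
      simp only at he
      rcases lt_trichotomy s s' with h | h | h
      · have := key s s' hs.1 hs.2 h
        omega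
      · exact h
      · have := key s' s hs'.1 hs'.2 h
        omega
  obtain ⟨L, hL, hmax⟩ := Set.exists_max_image {s | t ≤ s ∧ x s = x t} id hfin ⟨t, le_rfl, rfl⟩
  refine ⟨L, evenAt_of_return ht hL.1 (fun r h1 _ => hfr r h1) hL.2,
    fun s hs => hfr s (hL.1.trans hs), fun s hs he => ?_⟩
  have := hmax s ⟨hL.1.trans hs.le, he.trans hL.2⟩
  simp only [id] at this
  omega

/-- `Av z n x t`: there are at least `n` stuck times `≥ t`, and the walk is not at `z` at the first `n` of them
(we follow them one after the other: the next one is searched from `s + 1` on). -/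
def Av (z : ℤ × ℤ) : ℕ → (ℕ → ℤ × ℤ) → ℕ → Prop
  | 0, _, _ => True
  | n + 1, x, t => ∃ s, t ≤ s ∧ Stuck x s ∧ (∀ r, t ≤ r → r < s → ¬ Stuck x r) ∧ x s ≠ z ∧
      Av z n x (s + 1)

/-- **Infinitely many stuck times**, and `z` is not visited after time `M`: there is an even time `t` from
which all the `Av z n` hold (`t = s + 1` for a stuck time `s ≥ M`). -/
theorem caseI {x : ℕ → ℤ × ℤ} (hx : Greedy x) (hi : {n | Stuck x n}.Infinite) {z : ℤ × ℤ}
    (hz : {n | x n = z}.Finite) : ∃ t, EvenAt x t ∧ ∀ n, Av z n x t := by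
  obtain ⟨M, hM⟩ : ∃ M, ∀ n, M ≤ n → x n ≠ z := by
    obtain ⟨M, hM⟩ := hz.bddAbove
    refine ⟨M + 1, fun n hn he => ?_⟩
    have := hM he
    omega
  have key : ∀ n t, M ≤ t → Av z n x t := by
    intro n
    induction n with
    | zero => exact fun t _ => trivial
    | succ n ih =>
      intro t ht
      classical
      have hex : ∃ s, t ≤ s ∧ Stuck x s := by
        obtain ⟨s, hs, hts⟩ := hi.exists_gt t
        exact ⟨s, hts.le, hs⟩
      obtain ⟨h1, h2⟩ := Nat.find_spec hex
      refine ⟨Nat.find hex, h1, h2, fun r hr hlt hst => Nat.find_min hex hlt ⟨hr, hst⟩,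
        hM _ (ht.trans h1), ih _ (by omega)⟩
  obtain ⟨s, hs, hMs⟩ := hi.exists_gt M
  exact ⟨s + 1, (evenAt_stuck hx hs).2, fun n => key n (s + 1) (by omega)⟩

end Pool.Agent.GRW
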