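import Pool.Agent.GRW.K2

/-! # GRW row K3 : cylinders; almost every path is greedy -/

namespace Pool.Agent.GRW

open MeasureTheory Filter Topology

variable {Ω : Type*} [MeasurableSpace Ω] {μ : Measure Ω} {X : ℕ → Ω → ℤ × ℤ}

/-- the event that `X` follows `x` up to time `n` -/
def cyl (X : ℕ → Ω → ℤ × ℤ) (n : ℕ) (x : ℕ → ℤ × ℤ) : Set Ω := {ω | ∀ k ≤ n, X k ω = x k}

theorem measurableSet_cyl (hX : ∀ n, Measurable (X n)) (n : ℕ) (x : ℕ → ℤ × ℤ) :
    MeasurableSet (cyl X n x) := by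
  have h : cyl X n x = ⋂ k, ⋂ (_ : k ≤ n), X k ⁻¹' {x k} := by
    ext ω
    simp [cyl]
  rw [h]
  exact MeasurableSet.iInter fun k => MeasurableSet.iInter fun _ => hX k (measurableSet_singleton _)

/-- the path with the given first values -/
def k3p {n : ℕ} (y : Fin (n + 1) → ℤ × ℤ) : ℕ → ℤ × ℤ := fun k => if h : k < n + 1 then y ⟨k, h⟩ else 0

omit [MeasurableSpace Ω] in
theorem k3_mem {n : ℕ} {y : Fin (n + 1) → ℤ × ℤ} {ω : Ω} :
    ω ∈ cyl X n (k3p y) ↔ y = fun k : Fin (n + 1) => X k ω := by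
  constructor
  · intro h
    funext k
    have h1 := h k (Nat.lt_succ_iff.1 k.2)
    rw [h1, k3p, dif_pos k.2]
  · rintro rfl k hk
    rw [k3p, dif_pos (Nat.lt_succ_of_le hk)]

omit [MeasurableSpace Ω] in
theorem k3_union (n : ℕ) (A : Set Ω) : A = ⋃ y : Fin (n + 1) → ℤ × ℤ, A ∩ cyl X n (k3p y) := by
  ext ω
  simp only [Set.mem_iUnion, Set.mem_inter_iff, k3_mem]
  exact ⟨fun h => ⟨_, h, rfl⟩, fun ⟨_, h, _⟩ => h⟩

/-- `Ω` is the union of countably many cylinders of length `n` (one for each element of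
`Fin (n + 1) → ℤ × ℤ`). -/
theorem null_of_cyl (n : ℕ) {A : Set Ω} (h : ∀ x : ℕ → ℤ × ℤ, μ (A ∩ cyl X n x) = 0) : μ A = 0 := by
  rw [k3_union (X := X) n A]
  exact measure_iUnion_null fun y => h _

/-- the same for a random time: if for all `n` and `x` the set `A n` has measure zero in every cylinder of
length `n`, then the union of the `A n` is null -/
theorem null_of_cyl' {A : ℕ → Set Ω} (h : ∀ (n : ℕ) (x : ℕ → ℤ × ℤ), μ (A n ∩ cyl X n x) = 0) :
    μ (⋃ n, A n) = 0 :=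
  measure_iUnion_null fun n => null_of_cyl n (h n)

/-- **Cylinder decomposition.**  Every set is the union of its intersections with the countably many
disjoint cylinders; `E` is a set of paths, the values of a path after time `n` are irrelevant. -/
theorem cyl_sum_le (n : ℕ) (A : Set Ω) :
    μ A ≤ ∑' y : Fin (n + 1) → ℤ × ℤ,
      μ (A ∩ cyl X n (fun k => if h : k < n + 1 then y ⟨k, h⟩ else 0)) := by
  conv_lhs => rw [k3_union (X := X) n A]
  exact measure_iUnion_le _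

theorem cyl_sum_eq (hX : ∀ n, Measurable (X n)) (n : ℕ) {A : Set Ω} (hA : MeasurableSet A) :
    μ A = ∑' y : Fin (n + 1) → ℤ × ℤ,
      μ (A ∩ cyl X n (fun k => if h : k < n + 1 then y ⟨k, h⟩ else 0)) := by
  conv_lhs => rw [k3_union (X := X) n A]
  refine measure_iUnion ?_ fun y => hA.inter (measurableSet_cyl hX n _)
  intro y z hyz
  refine Set.disjoint_left.2 fun ω h1 h2 => hyz ?_
  rw [k3_mem.1 h1.2, k3_mem.1 h2.2]

theorem k3_prob {x : ℕ → ℤ × ℤ} {n : ℕ}
    (h : ¬ ((∃ d, x (n + 1) = x n + dv d) ∧ (¬ Stuck x n → FreshStep x n))) :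
    greedyProb x n (x (n + 1)) = 0 := by
  unfold greedyProb
  by_cases h1 : freshDirs x n (x n) = ∅
  · rw [if_pos h1, if_neg]
    intro h2
    exact h ⟨h2, fun h3 => absurd h1 h3⟩
  · rw [if_neg h1, if_neg]
    rintro ⟨d, hd, hd'⟩
    exact h ⟨⟨d, hd'⟩, fun _ => ⟨d, hd, hd'⟩⟩

theorem k3_congr {x y : ℕ → ℤ × ℤ} {n : ℕ} (h : ∀ k ≤ n + 1, x k = y k) :
    ((∃ d, x (n + 1) = x n + dv d) ∧ (¬ Stuck x n → FreshStep x n)) ↔
      ((∃ d, y (n + 1) = y n + dv d) ∧ (¬ Stuck y n → FreshStep y n)) := by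
  have h1 : ∀ u, freshDirs x n u = freshDirs y n u := freshDirs_congr fun k hk => h k (by omega)
  simp only [Stuck, FreshStep, h1, h n (by omega), h (n + 1) le_rfl]

/-- `greedyProb` vanishes if the step is not allowed (`null_of_cyl`, `freshDirs_congr`). -/
theorem greedy_ae [IsProbabilityMeasure μ] (hX : IsGRW μ X) : ∀ᵐ ω ∂μ, Greedy fun k => X k ω := by
  refine hX.start.and (ae_all_iff.2 fun n => ?_)
  rw [ae_iff]
  refine null_of_cyl (X := X) (n + 1) fun x => ?_
  by_cases hc : (∃ d, x (n + 1) = x n + dv d) ∧ (¬ Stuck x n → FreshStep x n)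
  · refine measure_mono_null ?_ (measure_empty (μ := μ))
    rintro ω ⟨h1, h2⟩
    exact absurd ((k3_congr h2).2 hc) h1
  · refine measure_mono_null Set.inter_subset_right ?_
    have h1 := hX.step n x
    rw [k3_prob hc, mul_zero] at h1
    exact h1

end Pool.Agent.GRW
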