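import Pool.Agent.GRW.Defs

/-! # GRW row A1 : reversal and infinite orbits (deterministic, only `Defs`) -/

namespace Pool.Agent.GRW

open MeasureTheory Filter Topology

/-- Walking backwards.  Induction on `j`, using `orb_succ`, and `F_R_F` : with `w = orb ω x (n-j-1)`,
`F (R (F w)) = R w`. -/
theorem orb_R (ω : Env) (x : Dart) {j n : ℕ} (h : j ≤ n) :
    orb ω (R ω (orb ω x n)) j = R ω (orb ω x (n - j)) := by
  induction j with
  | zero => rw [orb_zero, Nat.sub_zero]
  | succ j ih =>
    have e : n - j = (n - (j + 1)) + 1 := by omega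
    rw [orb_succ, ih (by omega), e, orb_succ, F_R_F]

/-- An infinite orbit is injective: `orb x m = orb x (m+k)` gives (injectivity of `F^m`, `orb_add`,
`orb_injective`) `x = orb x k`. -/
theorem inf_injective {ω : Env} {x : Dart} (h : Inf ω x) : Function.Injective (orb ω x) := by
  have key : ∀ m k : ℕ, orb ω x m = orb ω x (m + k) → k = 0 := by
    intro m k hmk
    by_contra hk
    rw [Nat.add_comm, orb_add] at hmk
    exact h k (Nat.pos_of_ne_zero hk) (orb_injective ω m hmk).symm
  intro m n hmn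
  rcases le_total m n with hle | hle
  · obtain ⟨k, rfl⟩ := Nat.exists_eq_add_of_le hle
    rw [key m k hmn, Nat.add_zero]
  · obtain ⟨k, rfl⟩ := Nat.exists_eq_add_of_le hle
    rw [key n k hmn.symm, Nat.add_zero]

theorem inf_orb {ω : Env} {x : Dart} (h : Inf ω x) (n : ℕ) : Inf ω (orb ω x n) := by
  intro k hk hn
  rw [← orb_add] at hn
  have := inf_injective h hn
  omega

theorem inf_of_orb {ω : Env} {x : Dart} {n : ℕ} (h : Inf ω (orb ω x n)) : Inf ω x := by
  intro k hk hn
  refine h k hk ?_
  rw [← orb_add, Nat.add_comm, orb_add, hn]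

/-- If `orb (R x) n = R x` with `n > 0`, put `y = orb x n`: `orb (R y) n = R x` by `orb_R`, so
`R y = R x` by `orb_injective`, hence `y = x`. -/
theorem inf_R {ω : Env} {x : Dart} (h : Inf ω x) : Inf ω (R ω x) := by
  intro n hn h1
  have h2 := orb_R ω x (le_refl n)
  rw [Nat.sub_self, orb_zero] at h2
  have h3 : R ω (orb ω x n) = R ω x := orb_injective ω n (h2.trans h1.symm)
  have h4 := congrArg (R ω) h3
  rw [R_R, R_R] at h4
  exact h n hn h4

/-- An infinite orbit visits a finite set of sites finitely often (it is injective and there are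
finitely many darts over a finite set of sites). -/
theorem finV_of_finite {ω : Env} {x : Dart} (h : Inf ω x) {B : Set (ℤ × ℤ)} (hB : B.Finite) :
    FinV B (orb ω x) := by
  have h1 : (B ×ˢ (Set.univ : Set (Fin 4))).Finite := hB.prod Set.finite_univ
  refine (h1.preimage (inf_injective h).injOn).subset fun n hn => ?_
  exact ⟨hn, Set.mem_univ _⟩

/-- The last visit to `B`. -/
theorem exists_last {ω : Env} {x : Dart} {B : Set (ℤ × ℤ)} (hf : FinV B (orb ω x)) {n₀ : ℕ}
    (h₀ : (orb ω x n₀).1 ∈ B) :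
    ∃ n, n₀ ≤ n ∧ (orb ω x n).1 ∈ B ∧ ∀ k, 0 < k → (orb ω (orb ω x n) k).1 ∉ B := by
  obtain ⟨n, hn, hmax⟩ := Set.exists_max_image {n | (orb ω x n).1 ∈ B} id hf ⟨n₀, h₀⟩
  refine ⟨n, hmax n₀ h₀, hn, fun k hk hk' => ?_⟩
  rw [← orb_add] at hk'
  have := hmax (n + k) hk'
  simp only [id] at this
  omega

end Pool.Agent.GRW
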