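import Pool.Agent.GRW.Walk

/-! # GRW row K1 : fresh edges along a path, parity (deterministic) -/

namespace Pool.Agent.GRW

theorem mem_freshDirs {x : ℕ → ℤ × ℤ} {n : ℕ} {u : ℤ × ℤ} {d : Fin 4} :
    d ∈ freshDirs x n u ↔ ∀ k < n, s(u, u + dv d) ≠ s(x k, x (k + 1)) := by
  classical
  simp only [freshDirs, crossed, Finset.mem_filter, Finset.mem_univ, true_and, Set.mem_ofPred_eq,
    not_exists, not_and]

/-- `crossed` at time `n` only depends on `x 0, ..., x n` -/
theorem freshDirs_congr {x y : ℕ → ℤ × ℤ} {n : ℕ} (h : ∀ k ≤ n, x k = y k) (u : ℤ × ℤ) :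
    freshDirs x n u = freshDirs y n u := by
  ext d
  rw [mem_freshDirs, mem_freshDirs]
  constructor
  · intro h1 k hk
    rw [← h k (by omega), ← h (k + 1) (by omega)]
    exact h1 k hk
  · intro h1 k hk
    rw [h k (by omega), h (k + 1) (by omega)]
    exact h1 k hk

theorem freshDirs_anti (x : ℕ → ℤ × ℤ) {m n : ℕ} (h : m ≤ n) (u : ℤ × ℤ) :
    freshDirs x n u ⊆ freshDirs x m u := by
  intro d hd
  rw [mem_freshDirs] at hd ⊢
  exact fun k hk => hd k (by omega)

theorem freshDirs_zero (x : ℕ → ℤ × ℤ) (u : ℤ × ℤ) : freshDirs x 0 u = Finset.univ := by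
  ext d
  rw [mem_freshDirs]
  simp

theorem k1_succ {x : ℕ → ℤ × ℤ} {n : ℕ} {u : ℤ × ℤ} {d : Fin 4} :
    d ∈ freshDirs x (n + 1) u ↔ d ∈ freshDirs x n u ∧ s(u, u + dv d) ≠ s(x n, x (n + 1)) := by
  rw [mem_freshDirs, mem_freshDirs]
  constructor
  · intro h
    exact ⟨fun k hk => h k (by omega), h n (by omega)⟩
  · rintro ⟨h1, h2⟩ k hk
    rcases Nat.lt_succ_iff_lt_or_eq.1 hk with h | h
    · exact h1 k h
    · rw [h]
      exact h2

theorem k1_edge {a : ℤ × ℤ} {d d' : Fin 4} : s(a, a + dv d') = s(a, a + dv d) ↔ d' = d := by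
  constructor
  · intro h
    rw [Sym2.eq_iff] at h
    rcases h with ⟨_, h⟩ | ⟨h, _⟩
    · exact dv_inj (add_left_cancel h)
    · exact absurd (by simpa using h.symm) (dv_ne_zero d)
  · rintro rfl
    rfl

theorem k1_edge_rev (a : ℤ × ℤ) (d : Fin 4) : s(a, a + dv d) = s(a + dv d, a + dv d + dv (d + 2)) := by
  rw [dv_add_two, add_neg_cancel_right, Sym2.eq_swap]

/-- a step along a crossed edge changes nothing -/
theorem freshDirs_succ_stuck {x : ℕ → ℤ × ℤ} {n : ℕ} {d : Fin 4} (hd : x (n + 1) = x n + dv d)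
    (hf : d ∉ freshDirs x n (x n)) (u : ℤ × ℤ) : freshDirs x (n + 1) u = freshDirs x n u := by
  rw [mem_freshDirs] at hf
  push Not at hf
  obtain ⟨k, hk, he⟩ := hf
  ext d'
  rw [k1_succ]
  constructor
  · exact fun h => h.1
  · intro h
    refine ⟨h, ?_⟩
    rw [hd, he]
    exact mem_freshDirs.1 h k hk

/-- after a step in a fresh direction `d`: `d` is removed at the old site -/
theorem freshDirs_succ_self {x : ℕ → ℤ × ℤ} {n : ℕ} {d : Fin 4} (hd : x (n + 1) = x n + dv d)
    (hf : d ∈ freshDirs x n (x n)) : freshDirs x (n + 1) (x n) = (freshDirs x n (x n)).erase d := by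
  ext d'
  rw [k1_succ, Finset.mem_erase, hd, and_comm]
  refine and_congr_left fun _ => ?_
  rw [Ne, k1_edge]

/-- ... and `d + 2` is removed at the new site -/
theorem freshDirs_succ_new {x : ℕ → ℤ × ℤ} {n : ℕ} {d : Fin 4} (hd : x (n + 1) = x n + dv d)
    (hf : d ∈ freshDirs x n (x n)) :
    d + 2 ∈ freshDirs x n (x (n + 1)) ∧
      freshDirs x (n + 1) (x (n + 1)) = (freshDirs x n (x (n + 1))).erase (d + 2) := by
  have he : s(x n, x n + dv d) = s(x (n + 1), x (n + 1) + dv (d + 2)) := by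
    rw [hd]
    exact k1_edge_rev _ _
  constructor
  · rw [mem_freshDirs]
    intro k hk
    rw [← he]
    exact mem_freshDirs.1 hf k hk
  · ext d'
    rw [k1_succ, Finset.mem_erase, and_comm]
    refine and_congr_left fun _ => ?_
    have e2 : s(x n, x (n + 1)) = s(x (n + 1), x (n + 1) + dv (d + 2)) := by
      rw [← he, hd]
    rw [e2, Ne, k1_edge]

theorem freshDirs_succ_other {x : ℕ → ℤ × ℤ} {n : ℕ} {u : ℤ × ℤ} (h1 : u ≠ x n)
    (h2 : u ≠ x (n + 1)) : freshDirs x (n + 1) u = freshDirs x n u := by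
  ext d'
  rw [k1_succ]
  constructor
  · exact fun h => h.1
  · intro h
    refine ⟨h, ?_⟩
    intro he
    rw [Sym2.eq_iff] at he
    rcases he with ⟨h3, _⟩ | ⟨h3, _⟩
    · exact h1 h3
    · exact h2 h3

/-- **Parity.**  Induction on `s` (`x (r+1) ≠ x r` since `dv d ≠ 0`). -/
theorem parity {x : ℕ → ℤ × ℤ} {t s : ℕ} (ht : EvenAt x t) (hts : t ≤ s)
    (hf : ∀ r, t ≤ r → r < s → FreshStep x r) (u : ℤ × ℤ) :
    Even ((freshDirs x s u).card + (if u = x t then 1 else 0) + (if u = x s then 1 else 0)) := by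
  induction s, hts using Nat.le_induction with
  | base =>
    have h := ht u
    split_ifs
    · rw [Nat.even_iff] at h ⊢
      omega
    · exact h
  | succ n hn ih =>
    have ih' := ih (fun r h1 h2 => hf r h1 (by omega))
    obtain ⟨d, hd1, hd2⟩ := hf n hn (by omega)
    have hne : x (n + 1) ≠ x n := by
      rw [hd2]
      intro h
      exact dv_ne_zero d (by simpa using h)
    by_cases hu : u = x n
    · subst hu
      rw [freshDirs_succ_self hd2 hd1, Finset.card_erase_of_mem hd1, if_neg (Ne.symm hne)]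
      rw [if_pos rfl] at ih'
      have hpos : 0 < (freshDirs x n (x n)).card := Finset.card_pos.2 ⟨d, hd1⟩
      rw [Nat.even_iff] at ih' ⊢
      omega
    · by_cases hu2 : u = x (n + 1)
      · subst hu2
        obtain ⟨h3, h4⟩ := freshDirs_succ_new hd2 hd1
        rw [h4, Finset.card_erase_of_mem h3, if_pos rfl]
        rw [if_neg hu] at ih'
        have hpos : 0 < (freshDirs x n (x (n + 1))).card := Finset.card_pos.2 ⟨d + 2, h3⟩
        rw [Nat.even_iff] at ih' ⊢
        omega
      · rw [freshDirs_succ_other hu hu2, if_neg hu2]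
        rw [if_neg hu] at ih'
        exact ih'

theorem evenAt_zero (x : ℕ → ℤ × ℤ) : EvenAt x 0 := by
  intro u
  rw [freshDirs_zero]
  decide

/-- if the walk is stuck at time `s` it is back at the start of the run -/
theorem stuck_return {x : ℕ → ℤ × ℤ} {t s : ℕ} (ht : EvenAt x t) (hts : t ≤ s)
    (hf : ∀ r, t ≤ r → r < s → FreshStep x r) (hs : Stuck x s) : x s = x t := by
  have h := parity ht hts hf (x s)
  have hs' : freshDirs x s (x s) = ∅ := hs
  rw [hs', Finset.card_empty, if_pos rfl] at h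
  by_contra hne
  rw [if_neg hne, Nat.even_iff] at h
  omega

theorem evenAt_of_return {x : ℕ → ℤ × ℤ} {t s : ℕ} (ht : EvenAt x t) (hts : t ≤ s)
    (hf : ∀ r, t ≤ r → r < s → FreshStep x r) (hs : x s = x t) : EvenAt x s := by
  intro u
  have h := parity ht hts hf u
  rw [hs] at h
  split_ifs at h
  · rw [Nat.even_iff] at h ⊢
    omega
  · exact h

/-- the step after a stuck time -/
theorem evenAt_succ_stuck {x : ℕ → ℤ × ℤ} {s : ℕ} (hE : EvenAt x s) (hs : Stuck x s)
    (hd : ∃ d, x (s + 1) = x s + dv d) : EvenAt x (s + 1) := by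
  obtain ⟨d, hd⟩ := hd
  intro u
  rw [freshDirs_succ_stuck hd]
  · exact hE u
  · have hs' : freshDirs x s (x s) = ∅ := hs
    rw [hs']
    simp

/-- away from the start of the run, the number of fresh edges at the present site is odd -/
theorem odd_fresh {x : ℕ → ℤ × ℤ} {t s : ℕ} (ht : EvenAt x t) (hts : t ≤ s)
    (hf : ∀ r, t ≤ r → r < s → FreshStep x r) (hs : x s ≠ x t) :
    Odd (freshDirs x s (x s)).card := by
  have h := parity ht hts hf (x s)
  rw [if_pos rfl, if_neg hs, Nat.even_iff] at h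
  rw [Nat.odd_iff]
  omega

end Pool.Agent.GRW
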