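import Pool.Agent.GRW.Defs

/-! # GRW : the greedy random walk on `ℤ²` -/

namespace Pool.Agent.GRW

open MeasureTheory Filter Topology

/-- the edges crossed by the path `x` during its first `n` steps -/
def crossed (x : ℕ → ℤ × ℤ) (n : ℕ) : Set (Sym2 (ℤ × ℤ)) := {e | ∃ k < n, e = s(x k, x (k + 1))}

/-- the directions of the edges at `u` which are not crossed during the first `n` steps of `x` -/
noncomputable def freshDirs (x : ℕ → ℤ × ℤ) (n : ℕ) (u : ℤ × ℤ) : Finset (Fin 4) := by
  classical exact Finset.univ.filter fun d => s(u, u + dv d) ∉ crossed x n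

/-- the probability that the greedy walk with history `x 0, ..., x n` goes to `y` -/
noncomputable def greedyProb (x : ℕ → ℤ × ℤ) (n : ℕ) (y : ℤ × ℤ) : ENNReal := by
  classical exact
    if freshDirs x n (x n) = ∅ then (if ∃ d, y = x n + dv d then 4⁻¹ else 0)
    else if ∃ d ∈ freshDirs x n (x n), y = x n + dv d then
      ((freshDirs x n (x n)).card : ENNReal)⁻¹
    else 0

/-- `X` is a greedy random walk on `ℤ²` started at the origin -/
structure IsGRW {Ω : Type*} [MeasurableSpace Ω] (μ : Measure Ω) (X : ℕ → Ω → ℤ × ℤ) : Prop where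
  meas : ∀ n, Measurable (X n)
  start : ∀ᵐ ω ∂μ, X 0 ω = 0
  step : ∀ (n : ℕ) (x : ℕ → ℤ × ℤ),
    μ {ω | ∀ k ≤ n + 1, X k ω = x k} = μ {ω | ∀ k ≤ n, X k ω = x k} * greedyProb x n (x (n + 1))

/-- all edges at the present position are crossed -/
def Stuck (x : ℕ → ℤ × ℤ) (n : ℕ) : Prop := freshDirs x n (x n) = ∅

/-- at every site the number of crossed (equivalently of fresh) edges is even -/
def EvenAt (x : ℕ → ℤ × ℤ) (n : ℕ) : Prop := ∀ u, Even (freshDirs x n u).card

/-- the step from time `n` to time `n + 1` is to a neighbour, along a fresh edge -/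
def FreshStep (x : ℕ → ℤ × ℤ) (n : ℕ) : Prop := ∃ d ∈ freshDirs x n (x n), x (n + 1) = x n + dv d

/-- a path of the greedy walk -/
def Greedy (x : ℕ → ℤ × ℤ) : Prop :=
  x 0 = 0 ∧ ∀ n, (∃ d, x (n + 1) = x n + dv d) ∧ (¬ Stuck x n → FreshStep x n)

end Pool.Agent.GRW
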