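import Pool.Agent.GRW.A2

/-! # GRW row B1 : moving the last exit of an end to a neighbouring site -/

namespace Pool.Agent.GRW

open MeasureTheory Filter Topology

/-- The last visit to the site of `x` (`finV_of_finite`, `exists_last`, `TEq_orb`, `inf_orb`). -/
theorem exists_lastAt {ω : Env} {x : Dart} (hx : Inf ω x) :
    ∃ b, b.1 = x.1 ∧ LastAt ω b ∧ TEq (orb ω x) (orb ω b) := by
  obtain ⟨n, _, hn, hlast⟩ := exists_last (finV_of_finite hx (Set.finite_singleton x.1))
    (n₀ := 0) (by simp)
  have hn' : (orb ω x n).1 = x.1 := hn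
  refine ⟨orb ω x n, hn', ⟨inf_orb hx n, fun k hk h => hlast k hk ?_⟩, TEq_orb ω x n⟩
  rw [h, hn']
  exact Set.mem_singleton _

/-- **One switch.**  Let `b = (p, d)` leave `p` for the last time and let `p' = p + dv g`.
If `g = d`: the orbit of `b` is at `p'` at time one; take its last visit to `p'`, `c = ω p`
(`Function.update_eq_self`).
If `g ≠ d`: choose `c` with `pr c g = d` (`pr_exists`) and put `ω' = update ω p c`.  The orbit of `b` is
the same for `ω` and `ω'` (`orb_congr`, it never returns to `p`), and `F ω' (p', g + 2) = (p, d) = b`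
(as `p' + dv (g+2) = p` and `pr c (g + 2 + 2) = pr c g = d`).  So the `ω'`-orbit of `(p', g+2)` is
infinite (`inf_of_orb`, `TEq.inf`) and has the tail of `b`; take its last visit to `p'`. -/
theorem move {ω : Env} {b : Dart} (hb : LastAt ω b) (g : Fin 4) :
    ∃ (c : Fin 3) (b' : Dart), b'.1 = b.1 + dv g ∧ LastAt (Function.update ω b.1 c) b' ∧
      TEq (orb ω b) (orb (Function.update ω b.1 c) b') := by
  by_cases hg : g = b.2
  · refine ⟨ω b.1, ?_⟩
    rw [Function.update_eq_self]
    obtain ⟨b', h1, h2, h3⟩ := exists_lastAt (inf_orb hb.1 1)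
    refine ⟨b', ?_, h2, (TEq_orb ω b 1).trans h3⟩
    rw [h1, hg]
    exact orb_base_succ ω b 0
  · obtain ⟨c, hc⟩ := pr_exists g b.2 hg
    refine ⟨c, ?_⟩
    set ω' : Env := Function.update ω b.1 c with hω'
    have hcongr : ∀ n, orb ω' b n = orb ω b n := by
      refine orb_congr fun n hn => ?_
      rw [hω', Function.update_of_ne (hb.2 n hn)]
    have ht : TEq (orb ω b) (orb ω' b) := ⟨0, 0, fun k => (hcongr _).symm⟩
    have hF : orb ω' ((b.1 + dv g, g + 2) : Dart) 1 = b := by
      have h0 : b.1 + dv g + dv (g + 2) = b.1 := by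
        rw [dv_add_two]; abel
      rw [orb_succ, orb_zero]
      unfold F
      simp only [h0, add_two_add_two]
      rw [hω', Function.update_self, hc]
    have hinf : Inf ω' ((b.1 + dv g, g + 2) : Dart) := by
      refine inf_of_orb (n := 1) ?_
      rw [hF]
      exact ht.inf hb.1
    obtain ⟨b', h1, h2, h3⟩ := exists_lastAt hinf
    refine ⟨b', h1, h2, ht.trans (TEq.trans (TEq.symm ?_) h3)⟩
    have := TEq_orb ω' ((b.1 + dv g, g + 2) : Dart) 1
    rwa [hF] at this

end Pool.Agent.GRW
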