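import Pool.Agent.GRW.B1

/-! # GRW row B2 : reaching a set, joining two ends -/

namespace Pool.Agent.GRW

open MeasureTheory Filter Topology

theorem b2_dir {p q : ℤ × ℤ} (h : p ≠ q) : ∃ g : Fin 4,
    (q.1 - (p + dv g).1).natAbs + (q.2 - (p + dv g).2).natAbs <
      (q.1 - p.1).natAbs + (q.2 - p.2).natAbs := by
  obtain ⟨p1, p2⟩ := p
  obtain ⟨q1, q2⟩ := q
  have h1 : p1 ≠ q1 ∨ p2 ≠ q2 := by
    by_contra hc
    push Not at hc
    exact h (by rw [hc.1, hc.2])
  have d0 : dv 0 = (1, 0) := rfl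
  have d1 : dv 1 = (0, 1) := rfl
  have d2 : dv 2 = (-1, 0) := rfl
  have d3 : dv 3 = (0, -1) := rfl
  rcases h1 with h1 | h1
  · rcases lt_or_gt_of_ne h1 with h2 | h2
    · refine ⟨0, ?_⟩
      rw [d0]
      simp only [Prod.mk_add_mk]
      omega
    · refine ⟨2, ?_⟩
      rw [d2]
      simp only [Prod.mk_add_mk]
      omega
  · rcases lt_or_gt_of_ne h1 with h2 | h2
    · refine ⟨1, ?_⟩
      rw [d1]
      simp only [Prod.mk_add_mk]
      omega
    · refine ⟨3, ?_⟩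
      rw [d3]
      simp only [Prod.mk_add_mk]
      omega

theorem b2_finMod_refl (ω : Env) : FinMod ω ω := by
  unfold FinMod
  simp

theorem b2_reach (A : Set (ℤ × ℤ)) {q : ℤ × ℤ} (hq : q ∈ A) : ∀ (N : ℕ) {ω : Env} {b : Dart},
    (q.1 - b.1.1).natAbs + (q.2 - b.1.2).natAbs ≤ N → LastAt ω b →
    ∃ ω', FinMod ω ω' ∧ (∀ s ∈ A, ω' s = ω s) ∧
      ∃ b', b'.1 ∈ A ∧ LastAt ω' b' ∧ TEq (orb ω b) (orb ω' b') := by
  intro N
  induction N with
  | zero =>
    intro ω b h hb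
    have h1 : b.1 = q := by
      apply Prod.ext <;> omega
    exact ⟨ω, b2_finMod_refl ω, fun _ _ => rfl, b, h1 ▸ hq, hb, TEq.refl _⟩
  | succ N ih =>
    intro ω b h hb
    by_cases hbA : b.1 ∈ A
    · exact ⟨ω, b2_finMod_refl ω, fun _ _ => rfl, b, hbA, hb, TEq.refl _⟩
    · have hne : b.1 ≠ q := fun h1 => hbA (h1 ▸ hq)
      obtain ⟨g, hg⟩ := b2_dir hne
      obtain ⟨c, b₁, hb₁, hL, hT⟩ := move hb g
      obtain ⟨ω', hF, hA, b', hb'A, hb'L, hb'T⟩ := ih (by rw [hb₁]; omega) hL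
      refine ⟨ω', (FinMod.update ω b.1 c).trans hF, ?_, b', hb'A, hb'L, hT.trans hb'T⟩
      intro s hs
      rw [hA s hs, Function.update_of_ne]
      rintro rfl
      exact hbA hs


/-- **Reach.**  Fix `q ∈ A`.  Induction on the lattice distance `|q.1 - b.1.1| + |q.2 - b.1.2|` (natAbs),
generalizing `ω` and `b`.  If `b.1 ∈ A` take `ω' = ω`.  Otherwise `b.1 ≠ q`, choose a direction `g` which
decreases the distance, apply `move` (the modification is at `b.1 ∉ A`) and the induction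
hypothesis (`FinMod.update`, `FinMod.trans`, `TEq.trans`). -/
theorem reach_set {ω : Env} {b : Dart} (hb : LastAt ω b) (A : Set (ℤ × ℤ)) (hA : A.Nonempty) :
    ∃ ω', FinMod ω ω' ∧ (∀ s ∈ A, ω' s = ω s) ∧
      ∃ b', b'.1 ∈ A ∧ LastAt ω' b' ∧ TEq (orb ω b) (orb ω' b') := by
  obtain ⟨q, hq⟩ := hA
  exact b2_reach A hq _ le_rfl hb

theorem reach {ω : Env} {x : Dart} (hx : Inf ω x) (q : ℤ × ℤ) :
    ∃ ω', FinMod ω ω' ∧ ∃ b', b'.1 = q ∧ LastAt ω' b' ∧ TEq (orb ω x) (orb ω' b') := by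
  obtain ⟨b, -, hbL, hbT⟩ := exists_lastAt hx
  obtain ⟨ω', hF, -, b', hb', hL, hT⟩ := reach_set hbL {q} (Set.singleton_nonempty q)
  exact ⟨ω', hF, b', hb', hL, hbT.trans hT⟩

/-- **Join.**  Take `a` with `LastAt ω a` and the tail of `x` (`exists_lastAt`), `b` likewise for `y`, and
`A = {(orb ω a n).1 | n}`.  `reach_set` for `b` and `A` gives `ω'` which agrees with `ω` on `A`, so the
orbit of `a` is the same for `ω'` (`orb_congr`), and `b'` with `b'.1 ∈ A`.  Let `a'` be the last exit of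
the `ω'`-orbit of `a` from the site `b'.1` (`exists_last`): `LastAt ω' a'`, `a'.1 = b'.1`.  `a' ≠ b'` because
otherwise `x` and `y` would have the same tail.  So `a'.2 ≠ b'.2`; choose `c` with `pr c a'.2 = b'.2` and put
`ω'' = update ω' b'.1 c`.  The orbits of `a'` and `b'` never return to that site, so they are the same
for `ω''`, and `R ω'' a' = b'`.  Take `z = a'`. -/
theorem join {ω : Env} {x y : Dart} (hx : Inf ω x) (hy : Inf ω y)
    (hxy : ¬ TEq (orb ω x) (orb ω y)) :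
    ∃ ω', FinMod ω ω' ∧ ∃ z, Inf ω' z ∧ TEq (orb ω x) (orb ω' z) ∧
      TEq (orb ω y) (orb ω' (R ω' z)) := by
  obtain ⟨a, -, haL, haT⟩ := exists_lastAt hx
  obtain ⟨b, -, hbL, hbT⟩ := exists_lastAt hy
  obtain ⟨ω', hF, hA, b', hb'A, hb'L, hb'T⟩ := reach_set hbL {s | ∃ n, s = (orb ω a n).1}
    ⟨a.1, 0, rfl⟩
  -- the orbit of `a` is the same
  have horb : ∀ n, orb ω' a n = orb ω a n := orb_congr fun n _ => hA _ ⟨n, rfl⟩
  have hainf : Inf ω' a := by
    intro n hn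
    rw [horb]
    exact haL.1 n hn
  obtain ⟨n₀, hn₀⟩ := hb'A
  obtain ⟨n, -, hn1, hn2⟩ := exists_last (finV_of_finite hainf (Set.finite_singleton b'.1))
    (n₀ := n₀) (by rw [horb]; exact hn₀.symm)
  set a' := orb ω' a n with ha'
  have ha'1 : a'.1 = b'.1 := hn1
  have ha'inf : Inf ω' a' := inf_orb hainf n
  have hxa' : TEq (orb ω x) (orb ω' a') := by
    have h1 : TEq (orb ω a) (orb ω' a) := ⟨0, 0, fun k => (horb _).symm⟩
    exact (haT.trans h1).trans (TEq_orb ω' a n)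
  have hyb' : TEq (orb ω y) (orb ω' b') := hbT.trans hb'T
  have hne : a' ≠ b' := by
    intro h
    rw [h] at hxa'
    exact hxy (hxa'.trans hyb'.symm)
  have hne2 : a'.2 ≠ b'.2 := fun h => hne (Prod.ext ha'1 h)
  obtain ⟨c, hc⟩ := pr_exists a'.2 b'.2 hne2
  set ω'' := Function.update ω' b'.1 c with hω''
  have horba : ∀ k, orb ω'' a' k = orb ω' a' k := orb_congr fun k hk => by
    rw [hω'', Function.update_of_ne]
    exact fun h => hn2 k hk h
  have horbb : ∀ k, orb ω'' b' k = orb ω' b' k := orb_congr fun k hk => by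
    rw [hω'', Function.update_of_ne]
    exact hb'L.2 k hk
  have hR : R ω'' a' = b' := by
    apply Prod.ext
    · exact ha'1
    · change pr (ω'' a'.1) a'.2 = b'.2
      rw [ha'1, hω'', Function.update_self, hc]
  refine ⟨ω'', hF.trans (FinMod.update ω' b'.1 c), a', ?_, ?_, ?_⟩
  · intro k hk
    rw [horba]
    exact ha'inf k hk
  · have h1 : TEq (orb ω' a') (orb ω'' a') := ⟨0, 0, fun k => (horba _).symm⟩
    exact hxa'.trans h1
  · rw [hR]
    have h1 : TEq (orb ω' b') (orb ω'' b') := ⟨0, 0, fun k => (horbb _).symm⟩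
    exact hyb'.trans h1

end Pool.Agent.GRW
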