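import Pool.Agent.GRW.C3

/-! # GRW row C4 : ergodicity of the shift -/

namespace Pool.Agent.GRW

open MeasureTheory Filter Topology

/-- **Approximation by finitely many sites** (`Measure.MeasureDense.of_generateFrom_isSetAlgebra_finite`
with the algebra of measurable cylinders, `generateFrom_measurableCylinders`). -/
theorem exists_finset_approx {J : Set Env} (hJ : MeasurableSet J) (ε : ENNReal) (hε : 0 < ε) :
    ∃ (D : Finset (ℤ × ℤ)) (A : Set Env), MeasurableSet A ∧
      (∀ ω ω' : Env, (∀ s ∈ D, ω s = ω' s) → (ω ∈ A ↔ ω' ∈ A)) ∧ P (symmDiff J A) ≤ ε := by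
  obtain ⟨δ, hδ, hδε⟩ : ∃ δ : ℝ, 0 < δ ∧ ENNReal.ofReal δ ≤ ε := by
    rcases eq_or_ne ε ⊤ with rfl | h
    · exact ⟨1, one_pos, le_top⟩
    · exact ⟨ε.toReal, ENNReal.toReal_pos hε.ne' h, ENNReal.ofReal_toReal_le⟩
  have hd : P.MeasureDense (measurableCylinders fun _ : ℤ × ℤ => Fin 3) :=
    Measure.MeasureDense.of_generateFrom_isSetAlgebra_finite P isSetAlgebra_measurableCylinders
      generateFrom_measurableCylinders.symm
  obtain ⟨A, hA, hJA⟩ := hd.approx J hJ (measure_ne_top P J) δ hδ
  obtain ⟨D, S, hS, rfl⟩ := (mem_measurableCylinders _).1 hA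
  refine ⟨D, cylinder D S, hS.cylinder, fun ω ω' h => ?_, hJA.le.trans hδε⟩
  rw [mem_cylinder, mem_cylinder]
  have e : D.restrict ω = D.restrict ω' := by
    funext s
    exact h s.1 s.2
  rw [e]

/-- **Shift zero-one law.**  Let `A` over `D` be within `ε` of `J`.  For a natural number `n` large enough
`D` and its translate by `n v` are disjoint, so by `P_indep` `P (A ∩ (shift (n v))⁻¹ A) = (P A)^2`
(`mp_shift`); `J` is invariant under `shift (n v)`, hence
`|P J - (P J)^2| ≤ 4 ε` for every `ε > 0`. -/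
theorem zero_one_shift {J : Set Env} (hJ : MeasurableSet J) {v : ℤ × ℤ} (hv : v ≠ 0)
    (h : ∀ ω, shift v ω ∈ J ↔ ω ∈ J) : P J = 0 ∨ P J = 1 := by
  have hinv : ∀ (n : ℕ) (ω : Env), shift ((n : ℤ) • v) ω ∈ J ↔ ω ∈ J := by
    intro n
    induction n with
    | zero =>
      intro ω
      have e : shift (((0 : ℕ) : ℤ) • v) ω = ω := by
        funext s
        simp [shift]
      rw [e]
    | succ n ih =>
      intro ω
      have e : shift (((n + 1 : ℕ) : ℤ) • v) ω = shift v (shift ((n : ℤ) • v) ω) := by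
        funext s
        simp only [shift]
        congr 1
        push_cast
        rw [add_smul, one_smul]
        abel
      rw [e, h, ih]
  have key : ∀ ε : ℝ, 0 < ε → P.real J ≤ (P.real J + ε) * (P.real J + ε) + 2 * ε := by
    intro ε hε
    obtain ⟨D, A, hA, hAD, hJA⟩ := exists_finset_approx hJ (ENNReal.ofReal ε)
      (ENNReal.ofReal_pos.2 hε)
    -- disjoint translate
    have hfin : (⋃ p ∈ (D ×ˢ D : Finset ((ℤ × ℤ) × (ℤ × ℤ))),
        {n : ℕ | p.1 + (n : ℤ) • v = p.2}).Finite := by
      refine Set.Finite.biUnion (Finset.finite_toSet _) fun p _ => Set.Subsingleton.finite ?_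
      intro n hn m hm
      have h1 : (n : ℤ) • v = (m : ℤ) • v := add_left_cancel (hn.trans hm.symm)
      have h2 : (n : ℤ) = m := smul_left_injective ℤ hv h1
      exact_mod_cast h2
    obtain ⟨n, hn⟩ := hfin.exists_notMem
    have hn' : ∀ s ∈ D, s + (n : ℤ) • v ∉ D := by
      intro s hs hs'
      apply hn
      simp only [Set.mem_iUnion]
      exact ⟨(s, s + (n : ℤ) • v), Finset.mem_product.2 ⟨hs, hs'⟩, rfl⟩
    set w := (n : ℤ) • v with hw
    have hmp := mp_shift w
    have hA' : MeasurableSet (shift w ⁻¹' A) := hmp.measurable hA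
    have hPA' : P (shift w ⁻¹' A) = P A := hmp.measure_preimage hA.nullMeasurableSet
    have hind : P (shift w ⁻¹' A ∩ A) = P A * P A := by
      rw [P_indep D hA' (fun ω ω' hω => ?_) hAD, hPA']
      exact hAD _ _ fun s hs => hω _ (hn' s hs)
    have hsym : P (symmDiff J (shift w ⁻¹' A)) = P (symmDiff J A) := by
      have e : symmDiff J (shift w ⁻¹' A) = shift w ⁻¹' (symmDiff J A) := by
        have e1 : shift w ⁻¹' J = J := by
          ext ω
          exact hinv n ω
        rw [Set.preimage_symmDiff, e1]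
      rw [e]
      exact hmp.measure_preimage (hJ.symmDiff hA).nullMeasurableSet
    have hr1 : P.real (symmDiff J A) ≤ ε := ENNReal.toReal_le_of_le_ofReal hε.le hJA
    have hr2 : P.real (symmDiff J (shift w ⁻¹' A)) ≤ ε := by
      unfold Measure.real at hr1 ⊢
      rw [hsym]
      exact hr1
    have hr3 : P.real (shift w ⁻¹' A ∩ A) = P.real A * P.real A := by
      unfold Measure.real
      rw [hind, ENNReal.toReal_mul]
    have hr4 : P.real A ≤ P.real J + ε := by
      have hsub : A ⊆ J ∪ symmDiff J A := by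
        intro ω hω
        by_cases hJω : ω ∈ J
        · exact Or.inl hJω
        · exact Or.inr (Or.inr ⟨hω, hJω⟩)
      have h1 := (measureReal_mono (μ := P) hsub).trans (measureReal_union_le _ _)
      linarith
    have hr5 : P.real J ≤ P.real (shift w ⁻¹' A ∩ A) + (ε + ε) := by
      have hsub : J ⊆ (shift w ⁻¹' A ∩ A) ∪ (symmDiff J A ∪ symmDiff J (shift w ⁻¹' A)) := by
        intro ω hω
        by_cases h1 : ω ∈ A
        · by_cases h2 : ω ∈ shift w ⁻¹' A
          · exact Or.inl ⟨h2, h1⟩
          · exact Or.inr (Or.inr (Or.inl ⟨hω, h2⟩))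
        · exact Or.inr (Or.inl (Or.inl ⟨hω, h1⟩))
      have h1 := (measureReal_mono (μ := P) hsub).trans (measureReal_union_le _ _)
      have h2 := measureReal_union_le (μ := P) (symmDiff J A) (symmDiff J (shift w ⁻¹' A))
      linarith
    rw [hr3] at hr5
    have h0 : 0 ≤ P.real A := measureReal_nonneg
    have h6 : P.real A * P.real A ≤ (P.real J + ε) * (P.real J + ε) :=
      mul_le_mul hr4 hr4 h0 (h0.trans hr4)
    linarith
  have hp0 : 0 ≤ P.real J := measureReal_nonneg
  have hp1 : P.real J ≤ 1 := measureReal_le_one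
  have hle : P.real J ≤ P.real J * P.real J := by
    refine le_of_forall_pos_le_add fun δ hδ => ?_
    obtain ⟨ε, hε, hε1, hε2⟩ : ∃ ε : ℝ, 0 < ε ∧ ε ≤ 1 ∧ 5 * ε ≤ δ :=
      ⟨min 1 (δ / 5), lt_min one_pos (by positivity), min_le_left _ _, by
        have := min_le_right (1 : ℝ) (δ / 5)
        linarith⟩
    have h1 := key ε hε
    nlinarith
  rcases hp0.eq_or_lt with h0 | h0
  · left
    exact (measureReal_eq_zero_iff).1 h0.symm
  · right
    have h1 : 1 ≤ P.real J := by
      by_contra hcon
      push Not at hcon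
      nlinarith
    have h2 : P.real J = 1 := le_antisymm hp1 h1
    have h3 := ENNReal.ofReal_toReal (measure_ne_top P J)
    unfold Measure.real at h2
    rw [← h3, h2, ENNReal.ofReal_one]

end Pool.Agent.GRW
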