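import Pool.Agent.GRW.D1

/-! # GRW row D2 : turning back in row `h` (deterministic) -/

namespace Pool.Agent.GRW

open MeasureTheory Filter Topology

/-- **Turning back.**  The trail from `(y₁, -1)` arrives at `(x₁, h)` from the south at time `n₁ + 1` and turns east
(`pr 2 3 = 0`), runs straight east along row `h` (`pr 0 2 = 0`), arrives at `(x₂, h)` from the west at time
`n₁ + 1 + (x₂ - x₁)` and turns south (`pr 1 2 = 3`), and one step later it is `R ω` of the dart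
`orb ω ((y₂,-1),1) n₂ = ((x₂, h-1), 1)`; from there it follows the trail of `(y₂, -1)` backwards (`orb_R`)
and is at the site `(y₂, -1)` at time `T = n₁ + 1 + (x₂ - x₁) + 1 + n₂`.  At all times `0 < i < T` the dart is either at a
row `< h`, or at row `h` with direction `0` or `3`.  Hence no `n` is as in `Hit ω (h+1) y₁ x''`: for `n < T`
the dart at time `n` would be at row `h` with direction `1`; for `n ≥ T` the row at time `T` is `-1`. -/
theorem Hit_turn {ω : Env} {h : ℕ} {x₁ x₂ y₁ y₂ : ℤ} (hx : x₁ < x₂) (h1 : Hit ω h y₁ x₁)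
    (h2 : Hit ω h y₂ x₂) (hw1 : ω (x₁, h) = 2) (hw : ∀ x, x₁ < x → x < x₂ → ω (x, h) = 0)
    (hw2 : ω (x₂, h) = 1) (x'' : ℤ) : ¬ Hit ω (h + 1) y₁ x'' := by
  obtain ⟨n₁, a1, b1⟩ := h1
  obtain ⟨n₂, a2, b2⟩ := h2
  rintro ⟨n, a, b⟩
  obtain ⟨L, hL⟩ : ∃ L : ℕ, x₂ = x₁ + L + 1 := ⟨(x₂ - x₁ - 1).toNat, by omega⟩
  have run : ∀ j : ℕ, j ≤ L → orb ω ((y₁, -1), 1) (n₁ + 1 + j) = ((x₁ + j, (h : ℤ)), 0) := by
    intro j
    induction j with
    | zero =>
      intro _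
      rw [add_zero, orb_succ, a1]
      have e : ((x₁, (h : ℤ) - 1) : ℤ × ℤ) + dv 1 = (x₁, (h : ℤ)) := by
        simp [dv]
      simp only [F, e, hw1]
      simp [pr]
    | succ j ih =>
      intro hj
      rw [← add_assoc, orb_succ, ih (by omega)]
      have e : ((x₁ + (j : ℤ), (h : ℤ)) : ℤ × ℤ) + dv 0 = (x₁ + ((j + 1 : ℕ) : ℤ), (h : ℤ)) := by
        simp [dv, add_assoc]
      have hw' : ω (x₁ + ((j + 1 : ℕ) : ℤ), (h : ℤ)) = 0 :=
        hw _ (by push_cast; omega) (by push_cast; omega)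
      simp only [F, e, hw']
      simp [pr]
  have e1 : orb ω ((y₁, -1), 1) (n₁ + 1 + L + 1) = ((x₂, (h : ℤ)), 3) := by
    rw [orb_succ, run L le_rfl]
    have e : ((x₁ + (L : ℤ), (h : ℤ)) : ℤ × ℤ) + dv 0 = (x₂, (h : ℤ)) := by
      simp [dv, hL, add_assoc]
    simp only [F, e, hw2]
    simp [pr]
  have e2 : orb ω ((y₁, -1), 1) (n₁ + 1 + L + 1 + 1) = R ω (orb ω ((y₂, -1), 1) n₂) := by
    rw [orb_succ, e1, a2]
    have e : ((x₂, (h : ℤ)) : ℤ × ℤ) + dv 3 = (x₂, (h : ℤ) - 1) := by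
      simp [dv, sub_eq_add_neg]
    simp only [F, R, e]
    congr 1
  have e3 : ∀ j : ℕ, j ≤ n₂ → orb ω ((y₁, -1), 1) (n₁ + 1 + L + 1 + 1 + j) =
      R ω (orb ω ((y₂, -1), 1) (n₂ - j)) := by
    intro j hj
    rw [orb_add, e2, orb_R _ _ hj]
  by_cases hT : n₁ + 1 + L + 1 + 1 + n₂ ≤ n
  · have h3 := (b (n₁ + 1 + L + 1 + 1 + n₂) (by omega) hT).1
    rw [e3 n₂ le_rfl] at h3
    simp [R] at h3
  · have hd : (orb ω ((y₁, -1), 1) n).2 = 1 := by rw [a]
    have hrow : (orb ω ((y₁, -1), 1) n).1.2 = h := by rw [a]; simp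
    rcases Nat.eq_zero_or_pos n with h0 | h0
    · subst h0
      rw [orb_zero] at hrow
      simp only at hrow
      omega
    by_cases c1 : n ≤ n₁
    · have := (b1 n h0 c1).2
      omega
    by_cases c2 : n ≤ n₁ + 1 + L
    · obtain ⟨j, rfl⟩ : ∃ j, n = n₁ + 1 + j := ⟨n - (n₁ + 1), by omega⟩
      rw [run j (by omega)] at hd
      exact absurd (show (0 : Fin 4) = 1 from hd) (by decide)
    by_cases c3 : n = n₁ + 1 + L + 1
    · subst c3
      rw [e1] at hd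
      exact absurd (show (3 : Fin 4) = 1 from hd) (by decide)
    · obtain ⟨j, rfl⟩ : ∃ j, n = n₁ + 1 + L + 1 + 1 + j := ⟨n - (n₁ + 1 + L + 1 + 1), by omega⟩
      rw [e3 j (by omega)] at hrow
      have := (b2 (n₂ - j) (by omega) (by omega)).2
      simp only [R] at hrow
      omega

end Pool.Agent.GRW
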