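import Pool.Agent.GRW.D2
import Pool.Agent.GRW.D3
import Pool.Agent.GRW.C1

/-! # GRW row D4 : `nh h → 0` -/

namespace Pool.Agent.GRW

open MeasureTheory Filter Topology

/-- there are two first hitting points of row `h` in `[0, K)` -/
def Two (ω : Env) (h K : ℕ) : Prop :=
  ∃ a b : ℤ, 0 ≤ a ∧ a < b ∧ b < K ∧ (∃ x, Hit ω h x a) ∧ ∃ x, Hit ω h x b

theorem d4_meas (h : ℕ) (a : ℤ) : MeasurableSet {ω | ∃ x, Hit ω h x a} := by
  have : {ω : Env | ∃ x, Hit ω h x a} = ⋃ x, {ω | Hit ω h x a} := by
    ext ω; simp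
  rw [this]
  exact MeasurableSet.iUnion fun x => measurableSet_Hit h x a

theorem d4_meas_two (h K : ℕ) : MeasurableSet {ω | Two ω h K} := by
  have : {ω : Env | Two ω h K} = ⋃ a : ℤ, ⋃ b : ℤ, ⋃ (_ : 0 ≤ a ∧ a < b ∧ b < K),
      ({ω | ∃ x, Hit ω h x a} ∩ {ω | ∃ x, Hit ω h x b}) := by
    ext ω
    simp only [Two, Set.mem_iUnion, Set.mem_inter_iff, Set.mem_ofPred_eq, exists_prop, and_assoc]
  rw [this]
  exact MeasurableSet.iUnion fun a => MeasurableSet.iUnion fun b => MeasurableSet.iUnion fun _ =>
    (d4_meas h a).inter (d4_meas h b)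

/-- Let `N ω` be the number of `a ∈ [0,K)` with `∃ x, Hit ω h x a`.  Then `N ≤ K 1[Two] + 1` and
`∫ N = K * nh h ≥ 2` (`P_image`). -/
theorem P_two (h K : ℕ) (hK : 2 ≤ (K : ENNReal) * nh h) : 1 ≤ (K : ENNReal) * P {ω | Two ω h K} := by
  classical
  have h1 : ∑ a ∈ Finset.range K, P {ω | ∃ x, Hit ω h x (a : ℤ)} = (K : ENNReal) * nh h := by
    calc ∑ a ∈ Finset.range K, P {ω | ∃ x, Hit ω h x (a : ℤ)} = ∑ a ∈ Finset.range K, nh h :=
          Finset.sum_congr rfl fun a _ => P_image h (a : ℤ)
      _ = _ := by simp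
  have h2 : ∑ a ∈ Finset.range K, P {ω | ∃ x, Hit ω h x (a : ℤ)} =
      ∫⁻ ω, ∑ a ∈ Finset.range K, Set.indicator {ω | ∃ x, Hit ω h x (a : ℤ)} (fun _ => (1 : ENNReal)) ω ∂P := by
    rw [lintegral_finsetSum]
    · refine Finset.sum_congr rfl fun a _ => ?_
      rw [lintegral_indicator (d4_meas h a)]
      simp
    · intro a _
      exact measurable_const.indicator (d4_meas h a)
  have h3 : ∀ ω : Env, ∑ a ∈ Finset.range K,
      Set.indicator {ω | ∃ x, Hit ω h x (a : ℤ)} (fun _ => (1 : ENNReal)) ω ≤
      (K : ENNReal) * Set.indicator {ω | Two ω h K} (fun _ => (1 : ENNReal)) ω + 1 := by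
    intro ω
    by_cases hT : Two ω h K
    · have e1 : Set.indicator {ω | Two ω h K} (fun _ => (1 : ENNReal)) ω = 1 := by
        rw [Set.indicator_of_mem]
        exact hT
      rw [e1, mul_one]
      calc ∑ a ∈ Finset.range K, Set.indicator {ω | ∃ x, Hit ω h x (a : ℤ)} (fun _ => (1 : ENNReal)) ω
          ≤ ∑ a ∈ Finset.range K, (1 : ENNReal) := by
            refine Finset.sum_le_sum fun a _ => ?_
            exact Set.indicator_le_self' (fun _ _ => zero_le) ω
        _ = (K : ENNReal) := by simp
        _ ≤ _ := le_self_add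
    · refine le_trans ?_ le_add_self
      by_cases hex : ∃ a ∈ Finset.range K, ∃ x, Hit ω h x (a : ℤ)
      · obtain ⟨a, ha, hax⟩ := hex
        rw [Finset.sum_eq_single a]
        · exact Set.indicator_le_self' (fun _ _ => zero_le) ω
        · intro b hb hba
          rw [Set.indicator_of_notMem]
          intro hbx
          apply hT
          rcases lt_or_gt_of_ne hba with hlt | hgt
          · exact ⟨b, a, by positivity, by exact_mod_cast hlt, by exact_mod_cast Finset.mem_range.1 ha,
              hbx, hax⟩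
          · exact ⟨a, b, by positivity, by exact_mod_cast hgt, by exact_mod_cast Finset.mem_range.1 hb,
              hax, hbx⟩
        · intro hna
          exact absurd ha hna
      · push Not at hex
        rw [Finset.sum_eq_zero]
        · exact zero_le
        · intro a ha
          rw [Set.indicator_of_notMem]
          rintro ⟨x, hx⟩
          exact hex a ha x hx
  have h4 : (K : ENNReal) * nh h ≤ (K : ENNReal) * P {ω | Two ω h K} + 1 := by
    rw [← h1, h2]
    calc _ ≤ ∫⁻ ω, ((K : ENNReal) * Set.indicator {ω | Two ω h K} (fun _ => (1 : ENNReal)) ω + 1) ∂P :=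
          lintegral_mono h3
      _ = _ := by
          rw [lintegral_add_right _ measurable_const, lintegral_const_mul _
            (measurable_const.indicator (d4_meas_two h K)), lintegral_indicator (d4_meas_two h K)]
          simp
  have h5 : (1 : ENNReal) + 1 ≤ (K : ENNReal) * P {ω | Two ω h K} + 1 := by
    refine le_trans ?_ (hK.trans h4)
    norm_num
  exact (ENNReal.add_le_add_iff_right ENNReal.one_ne_top).1 h5

/-- the event that `a` and `b` are the extreme first hitting points in `[0, K)` -/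
def d4M (h K : ℕ) (a b : ℤ) : Set Env :=
  {ω | (∃ x, Hit ω h x a) ∧ (∃ x, Hit ω h x b) ∧
    ∀ c : ℤ, 0 ≤ c → c < K → (∃ x, Hit ω h x c) → a ≤ c ∧ c ≤ b}

theorem d4_measM (h K : ℕ) (a b : ℤ) : MeasurableSet (d4M h K a b) := by
  have : d4M h K a b = ({ω | ∃ x, Hit ω h x a} ∩ {ω | ∃ x, Hit ω h x b}) ∩
      ⋂ c : ℤ, ⋂ (_ : 0 ≤ c ∧ c < K ∧ ¬ (a ≤ c ∧ c ≤ b)), {ω | ∃ x, Hit ω h x c}ᶜ := by
    ext ω
    simp only [d4M, Set.mem_inter_iff, Set.mem_ofPred_eq, Set.mem_iInter, Set.mem_compl_iff, and_assoc]
    constructor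
    · rintro ⟨h1, h2, h3⟩
      exact ⟨h1, h2, fun c hc hx => hc.2.2 (h3 c hc.1 hc.2.1 hx)⟩
    · rintro ⟨h1, h2, h3⟩
      refine ⟨h1, h2, fun c hc1 hc2 hx => ?_⟩
      by_contra hcon
      exact h3 c ⟨hc1, hc2, hcon⟩ hx
  rw [this]
  refine ((d4_meas h a).inter (d4_meas h b)).inter ?_
  exact MeasurableSet.iInter fun c => MeasurableSet.iInter fun _ => (d4_meas h c).compl

/-- the row segment between `a` and `b` -/
noncomputable def d4D (h : ℕ) (a b : ℤ) : Finset (ℤ × ℤ) := (Finset.Icc a b).image fun x => (x, (h : ℤ))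

/-- the pattern on the segment -/
def d4c (a b : ℤ) : Env := fun s => if s.1 = a then 2 else if s.1 = b then 1 else 0

theorem d4_pair (h K : ℕ) {a b : ℤ} (ha : 0 ≤ a) (hab : a < b) (hb : b < K) :
    P (d4M h K a b) ≤ 3 ^ K * P (d4M h K a b ∩ {ω | ∀ s ∈ d4D h a b, ω s = d4c a b s}) := by
  have hJD : ∀ ω ω' : Env, (∀ s, s ∉ d4D h a b → ω s = ω' s) →
      (ω ∈ d4M h K a b ↔ ω' ∈ d4M h K a b) := by
    intro ω ω' hs
    have hc : ∀ x x', Hit ω h x x' ↔ Hit ω' h x x' := by
      intro x x'
      refine Hit_congr (fun s _ h2 => hs s ?_) x x'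
      intro hmem
      rw [d4D, Finset.mem_image] at hmem
      obtain ⟨y, _, rfl⟩ := hmem
      simp at h2
    simp only [d4M, Set.mem_ofPred_eq, hc]
  rw [P_inter_cyl (d4D h a b) (d4_measM h K a b) hJD (d4c a b)]
  have hcard : (d4D h a b).card ≤ K := by
    calc (d4D h a b).card ≤ (Finset.Icc a b).card := Finset.card_image_le
      _ = (b + 1 - a).toNat := by rw [Int.card_Icc]
      _ ≤ K := by omega
  have h3 : (1 : ENNReal) ≤ 3 ^ K * (3 : ENNReal)⁻¹ ^ (d4D h a b).card := by
    rw [← ENNReal.inv_pow, ← div_eq_mul_inv, ENNReal.le_div_iff_mul_le (Or.inl (by positivity)) (Or.inl (by finiteness)), one_mul]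
    exact pow_le_pow_right₀ (by norm_num) hcard
  calc P (d4M h K a b) = 1 * P (d4M h K a b) := (one_mul _).symm
    _ ≤ (3 ^ K * (3 : ENNReal)⁻¹ ^ (d4D h a b).card) * P (d4M h K a b) := by gcongr
    _ = _ := by ring

/-- On `Two` let `a < b` be the smallest and the largest first hitting point in `[0,K)`.  The event
`M a b` = {these are `a` and `b`} does not depend on row `h` (`Hit_congr`), so with
`c = 2` at `(a,h)`, `0` at `(x,h)` for `a < x < b`, `1` at `(b,h)`,
`P (M a b ∩ {ω = c on row h between a and b}) = P (M a b) 3^{-(b-a+1)} ≥ P (M a b) 3^{-K}` (`P_inter_cyl`), and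
this event is contained in `{Turn ω h a}` by `Hit_turn`.  Sum over `a < b` (disjoint events). -/
theorem P_two_le (h K : ℕ) :
    P {ω | Two ω h K} ≤ 3 ^ K * ∑ a ∈ Finset.range K, P {ω | Turn ω h a} := by
  classical
  have hcov : {ω : Env | Two ω h K} ⊆
      ⋃ a ∈ Finset.range K, ⋃ b ∈ (Finset.range K).filter (fun b => a < b), d4M h K (a : ℤ) (b : ℤ) := by
    intro ω hω
    obtain ⟨a, b, ha, hab, hb, hA, hB⟩ := hω
    have hne : ((Finset.range K).filter fun c : ℕ => ∃ x, Hit ω h x (c : ℤ)).Nonempty := by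
      refine ⟨a.toNat, Finset.mem_filter.2 ⟨Finset.mem_range.2 (by omega), ?_⟩⟩
      rwa [Int.toNat_of_nonneg ha]
    set S := (Finset.range K).filter fun c : ℕ => ∃ x, Hit ω h x (c : ℤ) with hS
    have hmin := Finset.min'_mem S hne
    have hmax := Finset.max'_mem S hne
    have haS : a.toNat ∈ S := Finset.mem_filter.2 ⟨Finset.mem_range.2 (by omega), by
      rwa [Int.toNat_of_nonneg ha]⟩
    have hbS : b.toNat ∈ S := Finset.mem_filter.2 ⟨Finset.mem_range.2 (by omega), by
      rwa [Int.toNat_of_nonneg (by omega : 0 ≤ b)]⟩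
    have h1 := Finset.min'_le S _ haS
    have h2 := Finset.le_max' S _ hbS
    have hmin' := Finset.mem_filter.1 hmin
    have hmax' := Finset.mem_filter.1 hmax
    simp only [Set.mem_iUnion]
    refine ⟨S.min' hne, hmin'.1, S.max' hne, Finset.mem_filter.2 ⟨hmax'.1, by omega⟩, hmin'.2, hmax'.2, ?_⟩
    intro c hc0 hcK hcx
    have hcS : c.toNat ∈ S := Finset.mem_filter.2 ⟨Finset.mem_range.2 (by omega), by
      rwa [Int.toNat_of_nonneg hc0]⟩
    have h3 := Finset.min'_le S _ hcS
    have h4 := Finset.le_max' S _ hcS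
    omega
  calc P {ω | Two ω h K}
      ≤ P (⋃ a ∈ Finset.range K, ⋃ b ∈ (Finset.range K).filter (fun b => a < b),
          d4M h K (a : ℤ) (b : ℤ)) := measure_mono hcov
    _ ≤ ∑ a ∈ Finset.range K, P (⋃ b ∈ (Finset.range K).filter (fun b => a < b),
          d4M h K (a : ℤ) (b : ℤ)) := measure_biUnion_finset_le _ _
    _ ≤ ∑ a ∈ Finset.range K, ∑ b ∈ (Finset.range K).filter (fun b => a < b),
          P (d4M h K (a : ℤ) (b : ℤ)) := Finset.sum_le_sum fun a _ => measure_biUnion_finset_le _ _
    _ ≤ ∑ a ∈ Finset.range K, 3 ^ K * P {ω | Turn ω h a} := by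
        refine Finset.sum_le_sum fun a ha => ?_
        calc ∑ b ∈ (Finset.range K).filter (fun b => a < b), P (d4M h K (a : ℤ) (b : ℤ))
            ≤ ∑ b ∈ (Finset.range K).filter (fun b => a < b), 3 ^ K *
                P (d4M h K (a : ℤ) (b : ℤ) ∩ {ω | ∀ s ∈ d4D h a b, ω s = d4c a b s}) := by
              refine Finset.sum_le_sum fun b hb => ?_
              obtain ⟨hb1, hb2⟩ := Finset.mem_filter.1 hb
              exact d4_pair h K (by positivity) (by exact_mod_cast hb2)
                (by exact_mod_cast Finset.mem_range.1 hb1)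
          _ = 3 ^ K * ∑ b ∈ (Finset.range K).filter (fun b => a < b),
                P (d4M h K (a : ℤ) (b : ℤ) ∩ {ω | ∀ s ∈ d4D h a b, ω s = d4c a b s}) := by
              rw [Finset.mul_sum]
          _ ≤ 3 ^ K * P {ω | Turn ω h a} := by
              gcongr
              rw [← measure_biUnion_finset]
              · refine measure_mono ?_
                intro ω hω
                simp only [Set.mem_iUnion] at hω
                obtain ⟨b, hb, ⟨⟨y₁, h1⟩, ⟨y₂, h2⟩, _⟩, hcyl⟩ := hω
                obtain ⟨hb1, hb2⟩ := Finset.mem_filter.1 hb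
                have hab : (a : ℤ) < (b : ℤ) := by exact_mod_cast hb2
                have hD : ∀ x : ℤ, (a : ℤ) ≤ x → x ≤ b → ω (x, h) = d4c a b (x, (h : ℤ)) := by
                  intro x hx1 hx2
                  exact hcyl _ (Finset.mem_image.2 ⟨x, Finset.mem_Icc.2 ⟨hx1, hx2⟩, rfl⟩)
                refine ⟨y₁, h1, ?_⟩
                rintro ⟨x'', hx''⟩
                refine Hit_turn hab h1 h2 ?_ ?_ ?_ x'' hx''
                · rw [hD _ le_rfl hab.le]
                  simp [d4c]
                · intro x hx1 hx2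
                  rw [hD _ hx1.le hx2.le]
                  simp only [d4c]
                  rw [if_neg (by omega), if_neg (by omega)]
                · rw [hD _ hab.le le_rfl]
                  simp only [d4c]
                  rw [if_neg (by omega), if_pos trivial]
              · intro b hb b' hb' hbb'
                refine Set.disjoint_left.2 fun ω h1 h2 => hbb' ?_
                obtain ⟨⟨_, hB, hext⟩, _⟩ := h1
                obtain ⟨⟨_, hB', hext'⟩, _⟩ := h2
                have hbK := Finset.mem_range.1 (Finset.mem_filter.1 (Finset.mem_coe.1 hb)).1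
                have hbK' := Finset.mem_range.1 (Finset.mem_filter.1 (Finset.mem_coe.1 hb')).1
                have e1 := (hext b' (by positivity) (by exact_mod_cast hbK') hB').2
                have e2 := (hext' b (by positivity) (by exact_mod_cast hbK) hB).2
                omega
              · intro b _
                refine (d4_measM h K a b).inter ?_
                exact measurableSet_of_finset (d4D h a b) fun ω ω' hs => by
                  simp only [Set.mem_ofPred_eq]
                  constructor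
                  · intro hh s hsD
                    rw [← hs s hsD]; exact hh s hsD
                  · intro hh s hsD
                    rw [hs s hsD]; exact hh s hsD
    _ = _ := by rw [Finset.mul_sum]

/-- If `2 ≤ K * nh h` then `nh (h+1) ≤ nh h - 1/(3^K K^2)`; so if `nh` stayed above `2 / K` for all `h`
it would become negative (`P_turn`: all `P {Turn ω h a}` are equal). -/
theorem nh_tendsto : Tendsto nh atTop (𝓝 0) := by
  have hlim := tendsto_atTop_iInf nh_anti
  suffices hz : ⨅ h, nh h = 0 by rwa [hz] at hlim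
  by_contra hne
  obtain ⟨K, hK⟩ := ENNReal.exists_nat_mul_gt hne (by norm_num : (2 : ENNReal) ≠ ⊤)
  have hK2 : ∀ h, 2 ≤ (K : ENNReal) * nh h := fun h =>
    hK.le.trans (by gcongr; exact iInf_le _ h)
  set C : ENNReal := (K : ENNReal) * (3 ^ K * K) with hC
  have hCtop : C ≠ ⊤ := by rw [hC]; finiteness
  have hturn : ∀ (h : ℕ) (a : ℤ), P {ω | Turn ω h a} = P {ω | Turn ω h 0} := by
    intro h a
    have h1 := P_turn h a
    have h2 := P_turn h 0
    rw [← h2] at h1
    exact (ENNReal.add_left_inj (ne_top_of_le_ne_top ENNReal.one_ne_top (nh_le_one (h + 1)))).1 h1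
  have hstep : ∀ h, 1 ≤ C * P {ω | Turn ω h 0} := by
    intro h
    calc (1 : ENNReal) ≤ (K : ENNReal) * P {ω | Two ω h K} := P_two h K (hK2 h)
      _ ≤ (K : ENNReal) * (3 ^ K * ∑ a ∈ Finset.range K, P {ω | Turn ω h a}) := by
          gcongr
          exact P_two_le h K
      _ = C * P {ω | Turn ω h 0} := by
          have e : ∑ a ∈ Finset.range K, P {ω | Turn ω h a} =
              ∑ a ∈ Finset.range K, P {ω | Turn ω h 0} :=
            Finset.sum_congr rfl fun a _ => hturn h (a : ℤ)
          rw [e]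
          simp only [Finset.sum_const, Finset.card_range, nsmul_eq_mul, hC]
          ring
  have hind : ∀ H : ℕ, (H : ENNReal) + C * nh H ≤ C * nh 0 := by
    intro H
    induction H with
    | zero => simp
    | succ H ih =>
      refine le_trans ?_ ih
      rw [← P_turn H 0]
      push_cast
      calc (H : ENNReal) + 1 + C * nh (H + 1) ≤ H + C * P {ω | Turn ω H 0} + C * nh (H + 1) := by
            gcongr
            exact hstep H
        _ = _ := by ring
  obtain ⟨H, hH⟩ := ENNReal.exists_nat_gt hCtop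
  have h1 := hind H
  have h2 : (H : ENNReal) ≤ C := by
    calc (H : ENNReal) ≤ H + C * nh H := le_self_add
      _ ≤ C * nh 0 := h1
      _ ≤ C * 1 := by gcongr; exact nh_le_one 0
      _ = C := mul_one C
  exact absurd hH (not_lt.2 h2)

end Pool.Agent.GRW
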