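import Pool.Agent.GRW.D1

/-! # GRW row D5 : no trail stays in a strip for ever -/

namespace Pool.Agent.GRW

open MeasureTheory Filter Topology

/-- the trail starting at `(x, -1)` stays in the rows `0, ..., h - 1` -/
def d5Stay (h : ℕ) (ω : Env) (x : ℤ) : Prop :=
  ∀ n, 0 < n → 0 ≤ (orb ω ((x, -1), 1) n).1.2 ∧ (orb ω ((x, -1), 1) n).1.2 < h

/-- the window -/
def d5B (h m : ℕ) : Set (ℤ × ℤ) := {s | (0 ≤ s.1 ∧ s.1 ≤ m) ∧ 0 ≤ s.2 ∧ s.2 < h}

theorem d5_finite (h m : ℕ) : (d5B h m).Finite := by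
  refine ((Set.finite_Icc (0 : ℤ) m).prod (Set.finite_Icc (0 : ℤ) h)).subset ?_
  rintro s ⟨⟨h1, h2⟩, h3, h4⟩
  exact ⟨⟨h1, h2⟩, h3, h4.le⟩

/-- the possible exit darts -/
def d5E (h m : ℕ) : Finset Dart :=
  (Finset.range h).image (fun j : ℕ => (((0 : ℤ), (j : ℤ)), (2 : Fin 4))) ∪
    (Finset.range h).image (fun j : ℕ => (((m : ℤ), (j : ℤ)), (0 : Fin 4)))

theorem d5_card (h m : ℕ) : (d5E h m).card ≤ 2 * h := by
  refine (Finset.card_union_le _ _).trans ?_
  have h1 := Finset.card_image_le (s := Finset.range h)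
    (f := fun j : ℕ => ((((0 : ℤ), (j : ℤ)), (2 : Fin 4)) : Dart))
  have h2 := Finset.card_image_le (s := Finset.range h)
    (f := fun j : ℕ => ((((m : ℤ), (j : ℤ)), (0 : Fin 4)) : Dart))
  rw [Finset.card_range] at h1 h2
  omega

theorem d5_exit {a b : ℤ} {d : Fin 4} {h m : ℕ} (hin : ((a, b) : ℤ × ℤ) ∈ d5B h m)
    (hout : ((a, b) : ℤ × ℤ) + dv d ∉ d5B h m)
    (hrow : 0 ≤ (((a, b) : ℤ × ℤ) + dv d).2 ∧ (((a, b) : ℤ × ℤ) + dv d).2 < h) :
    (((a, b) : ℤ × ℤ), d) ∈ d5E h m := by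
  obtain ⟨⟨h1, h2⟩, h3, h4⟩ := hin
  simp only at h1 h2 h3 h4
  have hout' : ¬ (0 ≤ (((a, b) : ℤ × ℤ) + dv d).1 ∧ (((a, b) : ℤ × ℤ) + dv d).1 ≤ m) :=
    fun h5 => hout ⟨h5, hrow⟩
  have hb : ∃ j : ℕ, j < h ∧ (j : ℤ) = b := ⟨b.toNat, by omega, by omega⟩
  obtain ⟨j, hj, rfl⟩ := hb
  rw [d5E, Finset.mem_union, Finset.mem_image, Finset.mem_image]
  fin_cases d
  · right
    simp [dv] at hout'
    refine ⟨j, Finset.mem_range.2 hj, ?_⟩
    have : a = m := by
      by_contra hne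
      exact absurd (hout' (by omega)) (by omega)
    rw [this]
    rfl
  · exfalso
    simp [dv] at hout'
    exact absurd (hout' h1) (by omega)
  · left
    simp [dv] at hout'
    refine ⟨j, Finset.mem_range.2 hj, ?_⟩
    have : a = 0 := by
      by_contra hne
      exact absurd (hout' (by omega)) (by omega)
    rw [this]
    rfl
  · exfalso
    simp [dv] at hout'
    exact absurd (hout' h1) (by omega)

theorem d5_inf {h : ℕ} {ω : Env} {x : ℤ} (hs : d5Stay h ω x) : Inf ω ((x, -1), 1) := by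
  intro n hn he
  have h1 := (hs n hn).1
  rw [he] at h1
  simp at h1

theorem d5_choose {h m : ℕ} {ω : Env} {x : ℤ} (hs : d5Stay h ω x) (hx0 : 0 ≤ x) (hxm : x ≤ m) :
    ∃ e ∈ d5E h m, ∃ n, orb ω ((x, -1), 1) n = e ∧
      ∀ i, 0 < i → i ≤ n → (orb ω ((x, -1), 1) i).1 ∈ d5B h m := by
  classical
  have h1 := finV_of_finite (d5_inf hs) (d5_finite h m)
  rw [finV_iff] at h1
  obtain ⟨N, hN⟩ := h1
  have hex : ∃ n, 0 < n ∧ (orb ω ((x, -1), 1) n).1 ∉ d5B h m := ⟨N + 1, by omega, hN _ (by omega)⟩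
  obtain ⟨h2, h3⟩ := Nat.find_spec hex
  have hmin : ∀ i, 0 < i → i < Nat.find hex → (orb ω ((x, -1), 1) i).1 ∈ d5B h m := by
    intro i hi hlt
    by_contra hc
    exact Nat.find_min hex hlt ⟨hi, hc⟩
  have hone : (orb ω ((x, -1), 1) 1).1 = (x, 0) := by
    rw [show (1 : ℕ) = 0 + 1 from rfl, orb_base_succ, orb_zero]
    simp [dv]
  have hne1 : Nat.find hex ≠ 1 := by
    intro he
    rw [he, hone] at h3
    have h4 := hs 1 one_pos
    rw [hone] at h4
    exact h3 ⟨⟨hx0, hxm⟩, h4⟩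
  obtain ⟨n, hn⟩ : ∃ n, Nat.find hex = n + 1 := ⟨Nat.find hex - 1, by omega⟩
  have hnpos : 0 < n := by omega
  have hin := hmin n hnpos (by omega)
  rw [hn, orb_base_succ] at h3
  have hrow := hs (n + 1) (by omega)
  rw [orb_base_succ] at hrow
  refine ⟨orb ω ((x, -1), 1) n, d5_exit hin h3 hrow, n, rfl, fun i hi hin' => hmin i hi (by omega)⟩

open scoped Classical in
theorem d5_count (h m : ℕ) (ω : Env) :
    ((Finset.Icc (0 : ℤ) m).filter (fun x => d5Stay h ω x)).card ≤ 2 * h := by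
  have hch : ∀ x : ℤ, ∃ e : Dart, x ∈ (Finset.Icc (0 : ℤ) m).filter (fun x => d5Stay h ω x) →
      e ∈ d5E h m ∧ ∃ n, orb ω ((x, -1), 1) n = e ∧
        ∀ i, 0 < i → i ≤ n → (orb ω ((x, -1), 1) i).1 ∈ d5B h m := by
    intro x
    by_cases hx : x ∈ (Finset.Icc (0 : ℤ) m).filter (fun x => d5Stay h ω x)
    · rw [Finset.mem_filter, Finset.mem_Icc] at hx
      obtain ⟨e, he, hn⟩ := d5_choose hx.2 hx.1.1 hx.1.2
      exact ⟨e, fun _ => ⟨he, hn⟩⟩
    · exact ⟨((0, 0), 0), fun h' => absurd h' hx⟩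
  choose f hf using hch
  refine le_trans (Finset.card_le_card_of_injOn f (fun x hx => (hf x hx).1) ?_) (d5_card h m)
  intro x hx y hy hxy
  obtain ⟨n, hn, hn'⟩ := (hf x hx).2
  obtain ⟨k, hk, hk'⟩ := (hf y hy).2
  have hxB : (((x, -1), 1) : Dart).1 ∉ d5B h m := fun h' => by
    have := h'.2.1
    simp at this
  have hyB : (((y, -1), 1) : Dart).1 ∉ d5B h m := fun h' => by
    have := h'.2.1
    simp at this
  have h1 := (ent_inj hxB hyB hn' hk' (by rw [hn, hk, hxy])).2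
  simpa using congrArg (fun z : Dart => z.1.1) h1

theorem d5_meas (h : ℕ) (x : ℤ) : MeasurableSet {ω | d5Stay h ω x} := by
  have h1 : {ω | d5Stay h ω x} = ⋂ n : ℕ, {ω | 0 < n → 0 ≤ (orb ω ((x, -1), 1) n).1.2 ∧
      (orb ω ((x, -1), 1) n).1.2 < h} := by
    ext ω
    simp only [d5Stay, Set.mem_ofPred_eq, Set.mem_iInter]
  rw [h1]
  refine MeasurableSet.iInter fun n => ?_
  by_cases hn : 0 < n
  · have h2 : {ω : Env | 0 < n → 0 ≤ (orb ω ((x, -1), 1) n).1.2 ∧
        (orb ω ((x, -1), 1) n).1.2 < h} =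
        {ω | orb ω ((fun _ : Env => (((x, -1), 1) : Dart)) ω) n ∈
          {y : Dart | 0 ≤ y.1.2 ∧ y.1.2 < h}} := by
      ext ω
      simp [hn]
    rw [h2]
    exact measurableSet_orb_mem measurable_const n _
  · have h2 : {ω : Env | 0 < n → 0 ≤ (orb ω ((x, -1), 1) n).1.2 ∧
        (orb ω ((x, -1), 1) n).1.2 < h} = Set.univ := by
      ext ω
      simp [hn]
    rw [h2]
    exact MeasurableSet.univ

theorem d5_shift (h : ℕ) (ω : Env) (x : ℤ) : d5Stay h ω x ↔ d5Stay h (shift (x, 0) ω) 0 := by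
  have e : (((x, -1), 1) : Dart) = tr (x, 0) ((0, -1), 1) := by
    simp [tr]
  unfold d5Stay
  refine forall_congr' fun n => forall_congr' fun _ => ?_
  rw [e, orb_tr]
  simp [tr]

theorem d5_eq (h : ℕ) (x : ℤ) : P {ω | d5Stay h ω x} = P {ω | d5Stay h ω 0} := by
  rw [← (mp_shift (x, 0)).measure_preimage (d5_meas h 0).nullMeasurableSet]
  congr 1
  ext ω
  exact d5_shift h ω x

theorem d5_bound (h m : ℕ) : ((m : ENNReal) + 1) * P {ω | d5Stay h ω 0} ≤ 2 * h := by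
  classical
  have h1 : ∑ x ∈ Finset.Icc (0 : ℤ) m, P {ω | d5Stay h ω x} =
      ((m : ENNReal) + 1) * P {ω | d5Stay h ω 0} := by
    rw [Finset.sum_congr rfl fun x _ => d5_eq h x, Finset.sum_const, nsmul_eq_mul]
    congr 1
    rw [Int.card_Icc]
    have : ((m : ℤ) + 1 - 0).toNat = m + 1 := by omega
    rw [this]
    push_cast
    rfl
  have h2 : ∑ x ∈ Finset.Icc (0 : ℤ) m, P {ω | d5Stay h ω x} =
      ∫⁻ ω, ∑ x ∈ Finset.Icc (0 : ℤ) m, ({ω | d5Stay h ω x} : Set Env).indicator 1 ω ∂P := by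
    rw [lintegral_finsetSum]
    · refine Finset.sum_congr rfl fun x _ => ?_
      rw [lintegral_indicator_one (d5_meas h x)]
    · intro x _
      exact measurable_one.indicator (d5_meas h x)
  rw [← h1, h2]
  calc ∫⁻ ω, ∑ x ∈ Finset.Icc (0 : ℤ) m, ({ω | d5Stay h ω x} : Set Env).indicator 1 ω ∂P
      ≤ ∫⁻ _ω : Env, (2 * h : ENNReal) ∂P := by
        refine lintegral_mono fun ω => ?_
        have h3 := d5_count h m ω
        rw [Finset.card_filter] at h3
        have h4 : ∑ x ∈ Finset.Icc (0 : ℤ) m, ({ω | d5Stay h ω x} : Set Env).indicator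
            (1 : Env → ENNReal) ω =
            ((∑ x ∈ Finset.Icc (0 : ℤ) m, if d5Stay h ω x then 1 else 0 : ℕ) : ENNReal) := by
          push_cast
          refine Finset.sum_congr rfl fun x _ => ?_
          by_cases h5 : d5Stay h ω x
          · rw [if_pos h5, Set.indicator_of_mem (show ω ∈ {ω | d5Stay h ω x} from h5)]
            rfl
          · rw [if_neg h5, Set.indicator_of_notMem (show ω ∉ {ω | d5Stay h ω x} from h5)]
        rw [h4]
        refine (Nat.cast_le.2 h3).trans (le_of_eq ?_)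
        push_cast
        rfl
    _ = 2 * h := by
        rw [lintegral_const, measure_univ, mul_one]

/-- **Strip.**  For a natural number `m` and `x ∈ [0,m]` with `Stay ω x` = the event for `x` instead of `0`: the
orbit never returns to row `-1`, so it is infinite and leaves the finite window
`[0,m] × [0,h)`; the last dart before the first exit is `((0,j),2)` or `((m,j),0)` with `0 ≤ j < h`
(`2 h` possibilities), and by `ent_inj` different `x` give different darts.  So at most `2 h` of the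
`x ∈ [0,m]` satisfy `Stay ω x`; taking expectations (`mp_shift`, `orb_tr`) `(m+1) P (Stay 0) ≤ 2 h` for
all `m`. -/
theorem stay_zero (h : ℕ) :
    P {ω | ∀ n, 0 < n → 0 ≤ (orb ω ((0, -1), 1) n).1.2 ∧ (orb ω ((0, -1), 1) n).1.2 < h} = 0 := by
  have hb := d5_bound h
  have hp : P {ω | d5Stay h ω 0} ≠ ⊤ := measure_ne_top _ _
  change P {ω | d5Stay h ω 0} = 0
  by_contra hne
  have hq : 0 < (P {ω | d5Stay h ω 0}).toReal := ENNReal.toReal_pos hne hp
  obtain ⟨m, hm⟩ := exists_nat_gt (2 * (h : ℝ) / (P {ω | d5Stay h ω 0}).toReal)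
  rw [div_lt_iff₀ hq] at hm
  have h1 := ENNReal.toReal_mono (ENNReal.mul_ne_top (by norm_num) (ENNReal.natCast_ne_top h)) (hb m)
  rw [ENNReal.toReal_mul, ENNReal.toReal_mul, ENNReal.toReal_add (ENNReal.natCast_ne_top m) (by norm_num)] at h1
  simp only [ENNReal.toReal_natCast, ENNReal.toReal_one, ENNReal.toReal_ofNat] at h1
  nlinarith

end Pool.Agent.GRW
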