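import Pool.Agent.GRW.D4
import Pool.Agent.GRW.D5

/-! # GRW row D6 : trails return to a line; escape darts of boxes -/

namespace Pool.Agent.GRW

open MeasureTheory Filter Topology

/-- `Hit_or_stay`, `nh_tendsto`, `stay_zero` -/
theorem never_return_zero : P {ω | ∀ n, 0 < n → (orb ω ((0, -1), 1) n).1.2 ≠ -1} = 0 := by
  have key : ∀ h : ℕ, P {ω | ∀ n, 0 < n → (orb ω ((0, -1), 1) n).1.2 ≠ -1} ≤ nh h := by
    intro h
    have hsub : {ω : Env | ∀ n, 0 < n → (orb ω ((0, -1), 1) n).1.2 ≠ -1} ⊆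
        {ω | ∃ x', Hit ω h 0 x'} ∪
          {ω | ∀ n, 0 < n → 0 ≤ (orb ω ((0, -1), 1) n).1.2 ∧ (orb ω ((0, -1), 1) n).1.2 < h} := by
      intro ω hω
      exact Hit_or_stay (ω := ω) (x := 0) h hω
    calc _ ≤ P ({ω | ∃ x', Hit ω h 0 x'} ∪
          {ω | ∀ n, 0 < n → 0 ≤ (orb ω ((0, -1), 1) n).1.2 ∧
            (orb ω ((0, -1), 1) n).1.2 < h}) := measure_mono hsub
      _ ≤ P {ω | ∃ x', Hit ω h 0 x'} + P {ω | ∀ n, 0 < n → 0 ≤ (orb ω ((0, -1), 1) n).1.2 ∧
            (orb ω ((0, -1), 1) n).1.2 < h} := measure_union_le _ _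
      _ = nh h := by rw [stay_zero h, add_zero]; rfl
  have h0 := ge_of_tendsto' nh_tendsto key
  exact le_antisymm h0 zero_le

/-- probability that the trail does not return to row `-1` within distance `t` -/
noncomputable def eps (t : ℕ) : ENNReal :=
  P {ω | ∀ n, 0 < n → ∀ a : ℤ, (orb ω ((0, -1), 1) n).1 = (a, -1) → (t : ℤ) < |a|}

theorem d6_meas (t : ℕ) : MeasurableSet
    {ω : Env | ∀ n, 0 < n → ∀ a : ℤ, (orb ω ((0, -1), 1) n).1 = (a, -1) → (t : ℤ) < |a|} := by
  have : {ω : Env | ∀ n, 0 < n → ∀ a : ℤ, (orb ω ((0, -1), 1) n).1 = (a, -1) → (t : ℤ) < |a|} =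
      ⋂ n : ℕ, ⋂ _ : 0 < n, {ω | orb ω ((fun _ : Env => (((0 : ℤ), (-1 : ℤ)), (1 : Fin 4))) ω) n ∈
        {d : Dart | ∀ a : ℤ, d.1 = (a, -1) → (t : ℤ) < |a|}} := by
    ext ω
    simp only [Set.mem_iInter]
    rfl
  rw [this]
  exact MeasurableSet.iInter fun n => MeasurableSet.iInter fun _ =>
    measurableSet_orb_mem measurable_const n _

/-- continuity from above -/
theorem eps_tendsto : Tendsto eps atTop (𝓝 0) := by
  have hanti : Antitone fun t : ℕ =>
      {ω : Env | ∀ n, 0 < n → ∀ a : ℤ, (orb ω ((0, -1), 1) n).1 = (a, -1) → (t : ℤ) < |a|} := by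
    intro s t hst ω hω n hn a ha
    have h1 := hω n hn a ha
    have h2 : (s : ℤ) ≤ t := by exact_mod_cast hst
    exact lt_of_le_of_lt h2 h1
  have h := tendsto_measure_iInter_atTop (μ := P)
    (s := fun t : ℕ => {ω : Env | ∀ n, 0 < n → ∀ a : ℤ,
      (orb ω ((0, -1), 1) n).1 = (a, -1) → (t : ℤ) < |a|})
    (fun t => (d6_meas t).nullMeasurableSet) hanti ⟨0, measure_ne_top _ _⟩
  have h0 : P (⋂ t : ℕ, {ω : Env | ∀ n, 0 < n → ∀ a : ℤ,
      (orb ω ((0, -1), 1) n).1 = (a, -1) → (t : ℤ) < |a|}) = 0 := by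
    refine measure_mono_null ?_ never_return_zero
    intro ω hω n hn h1
    rw [Set.mem_iInter] at hω
    have h2 := hω (orb ω ((0, -1), 1) n).1.1.natAbs n hn (orb ω ((0, -1), 1) n).1.1
      (Prod.ext rfl h1)
    simp at h2
  rw [h0] at h
  exact h

/-- the box `[-m, m]²` -/
noncomputable def box (m : ℕ) : Finset (ℤ × ℤ) := Finset.Icc (-(m : ℤ)) m ×ˢ Finset.Icc (-(m : ℤ)) m

/-- `x` leaves the box for ever -/
def Esc (ω : Env) (m : ℕ) (x : Dart) : Prop := x.1 ∈ box m ∧ ∀ n, 0 < n → (orb ω x n).1 ∉ box m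

theorem measurableSet_esc (m : ℕ) (x : Dart) : MeasurableSet {ω | Esc ω m x} := by
  by_cases hx : x.1 ∈ box m
  · have : {ω : Env | Esc ω m x} =
        ⋂ n : ℕ, ⋂ _ : 0 < n, {ω | orb ω ((fun _ : Env => x) ω) n ∈
          {d : Dart | d.1 ∉ box m}} := by
      ext ω
      simp only [Set.mem_iInter]
      exact ⟨fun h n hn => h.2 n hn, fun h => ⟨hx, fun n hn => h n hn⟩⟩
    rw [this]
    exact MeasurableSet.iInter fun n => MeasurableSet.iInter fun _ =>
      measurableSet_orb_mem measurable_const n _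
  · have : {ω : Env | Esc ω m x} = ∅ := by
      ext ω
      simp only [Set.mem_empty_iff_false, iff_false]
      exact fun h => hx h.1
    rw [this]
    exact MeasurableSet.empty

theorem d6_mem_box {m : ℕ} {s : ℤ × ℤ} :
    s ∈ box m ↔ -(m : ℤ) ≤ s.1 ∧ s.1 ≤ m ∧ -(m : ℤ) ≤ s.2 ∧ s.2 ≤ m := by
  simp only [box, Finset.mem_product, Finset.mem_Icc]
  tauto

theorem d6_rho_box {m : ℕ} {s : ℤ × ℤ} : rho s ∈ box m ↔ s ∈ box m := by
  rw [d6_mem_box, d6_mem_box]
  simp only [rho]
  omega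

theorem d6_esc_rot (m : ℕ) (x : Dart) : P {ω | Esc ω m (rotD x)} = P {ω | Esc ω m x} := by
  have h : {ω : Env | Esc ω m (rotD x)} = rotE ⁻¹' {ω | Esc ω m x} := by
    ext ω
    change Esc ω m (rotD x) ↔ Esc (rotE ω) m x
    unfold Esc
    have h1 : (rotD x).1 = rho x.1 := rfl
    rw [h1, d6_rho_box]
    refine and_congr Iff.rfl ?_
    refine forall_congr' fun n => ?_
    rw [orb_rot]
    have h2 : (rotD (orb (rotE ω) x n)).1 = rho (orb (rotE ω) x n).1 := rfl
    rw [h2, d6_rho_box]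
  rw [h, mp_rotE.measure_preimage (measurableSet_esc m x).nullMeasurableSet]

theorem d6_sum_rot (m : ℕ) (d : Fin 4) :
    ∑ s ∈ box m, P {ω | Esc ω m (s, d + 1)} = ∑ s ∈ box m, P {ω | Esc ω m (s, d)} := by
  symm
  refine Finset.sum_bij (fun s _ => rho s) (fun s hs => d6_rho_box.2 hs) ?_ ?_ ?_
  · intro s _ t _ hst
    simp only [rho, Prod.mk.injEq, neg_inj] at hst
    exact Prod.ext hst.2 hst.1
  · intro s hs
    refine ⟨(s.2, -s.1), ?_, ?_⟩
    · rw [d6_mem_box] at hs ⊢
      dsimp only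
      omega
    · simp [rho]
  · intro s _
    exact (d6_esc_rot m (s, d)).symm

theorem d6_north (m : ℕ) (a : ℤ) (ha : a.natAbs ≤ m) :
    P {ω | Esc ω m ((a, (m : ℤ)), 1)} ≤ eps (m - a.natAbs) := by
  have h1 : {ω : Env | Esc ω m ((a, (m : ℤ)), 1)} ⊆
      shift (a, (m : ℤ) + 1) ⁻¹' {ω : Env | ∀ n, 0 < n → ∀ b : ℤ,
        (orb ω ((0, -1), 1) n).1 = (b, -1) → ((m - a.natAbs : ℕ) : ℤ) < |b|} := by
    intro ω hω n hn b hb
    have h2 := hω.2 n hn
    have h3 : (((a, (m : ℤ)), 1) : Dart) = tr (a, (m : ℤ) + 1) ((0, -1), 1) := by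
      simp [tr]
    rw [h3, orb_tr] at h2
    have h4 : (tr (a, (m : ℤ) + 1) (orb (shift (a, (m : ℤ) + 1) ω) ((0, -1), 1) n)).1 =
        (b + a, (m : ℤ)) := by
      simp only [tr]
      rw [hb]
      simp
    rw [h4, d6_mem_box] at h2
    dsimp only at h2
    push_cast [Nat.cast_sub ha]
    rcases abs_cases b with hb' | hb' <;> rcases abs_cases a with ha' | ha' <;> omega
  calc _ ≤ P (shift (a, (m : ℤ) + 1) ⁻¹' {ω : Env | ∀ n, 0 < n → ∀ b : ℤ,
        (orb ω ((0, -1), 1) n).1 = (b, -1) → ((m - a.natAbs : ℕ) : ℤ) < |b|}) := measure_mono h1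
    _ = _ := by
      rw [(mp_shift _).measure_preimage (d6_meas _).nullMeasurableSet]
      rfl

theorem d6_sum_north (m : ℕ) :
    ∑ s ∈ box m, P {ω | Esc ω m (s, 1)} ≤ 2 * ∑ t ∈ Finset.range (m + 1), eps t := by
  unfold box
  rw [Finset.sum_product]
  have h1 : ∀ a ∈ Finset.Icc (-(m : ℤ)) m,
      ∑ b ∈ Finset.Icc (-(m : ℤ)) m, P {ω | Esc ω m ((a, b), 1)} ≤ eps (m - a.natAbs) := by
    intro a ha
    rw [Finset.mem_Icc] at ha
    rw [Finset.sum_eq_single (m : ℤ)]
    · exact d6_north m a (by omega)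
    · intro b hb hbm
      rw [Finset.mem_Icc] at hb
      have : {ω : Env | Esc ω m ((a, b), 1)} = ∅ := by
        ext ω
        simp only [Set.mem_empty_iff_false, iff_false]
        intro h
        refine h.2 1 one_pos ?_
        have h5 : (orb ω ((a, b), 1) 1).1 = (a, b + 1) := by
          rw [orb_base_succ, orb_zero]
          simp [dv]
        rw [h5, d6_mem_box]
        dsimp only
        omega
      rw [this, measure_empty]
    · intro h
      exact absurd (Finset.mem_Icc.2 ⟨by omega, le_rfl⟩) h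
  have h2 : ∑ a ∈ Finset.Icc (-(m : ℤ)) m, eps (m - a.natAbs) ≤
      2 * ∑ t ∈ Finset.range (m + 1), eps t := by
    have hsub : Finset.Icc (-(m : ℤ)) m ⊆
        (Finset.range (m + 1)).image (fun k : ℕ => (k : ℤ)) ∪
          (Finset.range (m + 1)).image (fun k : ℕ => -(k : ℤ)) := by
      intro a ha
      rw [Finset.mem_Icc] at ha
      simp only [Finset.mem_union, Finset.mem_image, Finset.mem_range]
      rcases le_total 0 a with h | h
      · exact Or.inl ⟨a.natAbs, by omega, by omega⟩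
      · exact Or.inr ⟨a.natAbs, by omega, by omega⟩
    have hrefl : ∑ k ∈ Finset.range (m + 1), eps (m - k) =
        ∑ t ∈ Finset.range (m + 1), eps t := by
      have := Finset.sum_range_reflect eps (m + 1)
      rw [← this]
      refine Finset.sum_congr rfl fun k hk => ?_
      congr 1
    calc ∑ a ∈ Finset.Icc (-(m : ℤ)) m, eps (m - a.natAbs)
        ≤ ∑ a ∈ (Finset.range (m + 1)).image (fun k : ℕ => (k : ℤ)) ∪
          (Finset.range (m + 1)).image (fun k : ℕ => -(k : ℤ)), eps (m - a.natAbs) :=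
          Finset.sum_le_sum_of_subset hsub
      _ ≤ ∑ a ∈ (Finset.range (m + 1)).image (fun k : ℕ => (k : ℤ)), eps (m - a.natAbs) +
          ∑ a ∈ (Finset.range (m + 1)).image (fun k : ℕ => -(k : ℤ)), eps (m - a.natAbs) := by
          rw [← Finset.sum_union_inter]
          exact le_self_add
      _ = 2 * ∑ t ∈ Finset.range (m + 1), eps t := by
          rw [Finset.sum_image, Finset.sum_image]
          · simp only [Int.natAbs_natCast, Int.natAbs_neg]
            rw [hrefl, two_mul]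
          · intro a _ b _ hab
            simpa using hab
          · intro a _ b _ hab
            simpa using hab
  exact (Finset.sum_le_sum h1).trans h2

/-- For `x.1 + dv x.2 ∈ box m` the event is empty.  For the north side `x = ((a, m), 1)` it is contained
in the translate of the event of `eps (m - |a|)` (`mp_shift` with `(a, m+1)`, `orb_tr`).  The box is invariant
under `rho`, so `P (Esc m (rotD x)) = P (Esc m x)` (`mp_rotE`, `orb_rot`), which gives the other three sides. -/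
theorem sum_esc_le (m : ℕ) :
    ∑ x ∈ box m ×ˢ (Finset.univ : Finset (Fin 4)), P {ω | Esc ω m x} ≤
      8 * ∑ t ∈ Finset.range (m + 1), eps t := by
  rw [Finset.sum_product_right]
  have h0 := d6_sum_rot m 0
  have h1 := d6_sum_rot m 1
  have h2 := d6_sum_rot m 2
  have hn := d6_sum_north m
  have e0 : (0 : Fin 4) + 1 = 1 := by decide
  have e1 : (1 : Fin 4) + 1 = 2 := by decide
  have e2 : (2 : Fin 4) + 1 = 3 := by decide
  rw [e0] at h0
  rw [e1] at h1
  rw [e2] at h2
  rw [Fin.sum_univ_four]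
  rw [h2, h1, ← h0]
  calc _ ≤ 2 * ∑ t ∈ Finset.range (m + 1), eps t + 2 * ∑ t ∈ Finset.range (m + 1), eps t +
        2 * ∑ t ∈ Finset.range (m + 1), eps t + 2 * ∑ t ∈ Finset.range (m + 1), eps t :=
        add_le_add (add_le_add (add_le_add hn hn) hn) hn
    _ = 8 * ∑ t ∈ Finset.range (m + 1), eps t := by ring

/-- Cesaro (`eps_tendsto`, `sum_esc_le`). -/
theorem sum_esc_small (δ : ENNReal) (hδ : 0 < δ) :
    ∃ M : ℕ, ∀ m : ℕ, M ≤ m →
      ∑ x ∈ box m ×ˢ (Finset.univ : Finset (Fin 4)), P {ω | Esc ω m x} ≤ δ * m := by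
  set δ' : ENNReal := min δ 1 with hδ'
  have hpos : 0 < δ' := lt_min hδ one_pos
  have hfin : δ' ≠ ⊤ := ne_top_of_le_ne_top ENNReal.one_ne_top (min_le_right _ _)
  have hq : 0 < δ' / 32 := ENNReal.div_pos hpos.ne' (by norm_num)
  have hev : ∀ᶠ t in atTop, eps t ≤ δ' / 32 := by
    have := (tendsto_order.1 eps_tendsto).2 _ hq
    exact this.mono fun t ht => ht.le
  obtain ⟨T, hT⟩ := eventually_atTop.1 hev
  have h16 : δ' / 16 ≠ 0 := (ENNReal.div_pos hpos.ne' (by norm_num)).ne'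
  have h16' : δ' / 16 ≠ ⊤ := ENNReal.div_ne_top hfin (by norm_num)
  obtain ⟨M, hM⟩ := ENNReal.exists_nat_gt (r := (T : ENNReal) / (δ' / 16))
    (ENNReal.div_ne_top (ENNReal.natCast_ne_top T) h16)
  refine ⟨max M 1, fun m hm => ?_⟩
  have hmM : M ≤ m := (le_max_left _ _).trans hm
  have hm1 : 1 ≤ m := (le_max_right _ _).trans hm
  have hTm : (T : ENNReal) ≤ (δ' / 16) * m := by
    have h1 : (T : ENNReal) / (δ' / 16) ≤ m := hM.le.trans (by exact_mod_cast hmM)
    rw [ENNReal.div_le_iff h16 h16'] at h1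
    rwa [mul_comm]
  have hsum : ∑ t ∈ Finset.range (m + 1), eps t ≤ (T : ENNReal) + (m + 1 : ℕ) * (δ' / 32) := by
    calc ∑ t ∈ Finset.range (m + 1), eps t
        ≤ ∑ t ∈ Finset.range (m + 1), ((if t < T then 1 else 0) + δ' / 32) := by
          refine Finset.sum_le_sum fun t _ => ?_
          by_cases ht : t < T
          · rw [if_pos ht]
            exact (prob_le_one : eps t ≤ 1).trans le_self_add
          · rw [if_neg ht, zero_add]
            exact hT t (not_lt.1 ht)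
      _ = ∑ t ∈ Finset.range (m + 1), (if t < T then (1 : ENNReal) else 0) +
          (m + 1 : ℕ) * (δ' / 32) := by
          rw [Finset.sum_add_distrib, Finset.sum_const, Finset.card_range, nsmul_eq_mul]
      _ ≤ (T : ENNReal) + (m + 1 : ℕ) * (δ' / 32) := by
          gcongr
          rw [← Finset.sum_filter, Finset.sum_const, nsmul_eq_mul, mul_one]
          have : ((Finset.range (m + 1)).filter fun t => t < T).card ≤ T := by
            calc _ ≤ (Finset.range T).card := Finset.card_le_card fun t ht => by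
                  rw [Finset.mem_filter] at ht
                  exact Finset.mem_range.2 ht.2
              _ = T := Finset.card_range T
          exact_mod_cast this
  have hm2 : ((m + 1 : ℕ) : ENNReal) ≤ 2 * m := by
    have : m + 1 ≤ 2 * m := by omega
    exact_mod_cast this
  have e32 : (2 : ENNReal) * (δ' / 32) = δ' / 16 := by
    rw [div_eq_mul_inv, div_eq_mul_inv, ← mul_assoc, mul_comm 2 δ', mul_assoc]
    congr 1
    have : (32 : ENNReal) = 2 * 16 := by norm_num
    rw [this, ENNReal.mul_inv (by norm_num) (by norm_num), ← mul_assoc,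
      ENNReal.mul_inv_cancel (by norm_num) (by norm_num), one_mul]
  have e16 : (8 : ENNReal) * (δ' / 16 + δ' / 16) = δ' := by
    rw [← mul_two, div_eq_mul_inv]
    have : (8 : ENNReal) * (δ' * 16⁻¹ * 2) = δ' * (16⁻¹ * 16) := by ring
    rw [this, ENNReal.inv_mul_cancel (by norm_num) (by norm_num), mul_one]
  calc ∑ x ∈ box m ×ˢ (Finset.univ : Finset (Fin 4)), P {ω | Esc ω m x}
      ≤ 8 * ∑ t ∈ Finset.range (m + 1), eps t := sum_esc_le m
    _ ≤ 8 * ((T : ENNReal) + (m + 1 : ℕ) * (δ' / 32)) := by gcongr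
    _ ≤ 8 * ((δ' / 16) * m + 2 * m * (δ' / 32)) := by gcongr
    _ = 8 * (δ' / 16 + 2 * (δ' / 32)) * m := by ring
    _ = 8 * (δ' / 16 + δ' / 16) * m := by rw [e32]
    _ = δ' * m := by rw [e16]
    _ ≤ δ * m := by gcongr; exact min_le_left _ _

end Pool.Agent.GRW
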