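import Mathlib

/-! # GRW : definitions (environment of pairings on `ℤ²`, darts, orbits)

A *dart* `(u, d)` is the walker standing at the site `u`, about to leave in direction `d`
(`0` = east, `1` = north, `2` = west, `3` = south).  An environment `ω` chooses at every site one of
the three pairings of the four directions.  `F ω` moves along the edge and turns according to the
pairing at the new site; `R ω` reverses the trail at the site. -/

namespace Pool.Agent.GRW

open MeasureTheory Filter Topology

/-- darts -/
abbrev Dart := (ℤ × ℤ) × Fin 4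

/-- environments -/
abbrev Env := ℤ × ℤ → Fin 3

/-- the unit vector of a direction -/
def dv (d : Fin 4) : ℤ × ℤ := ![(1, 0), (0, 1), (-1, 0), (0, -1)] d

/-- the three pairings of the four directions: straight, `0↔1 2↔3`, `0↔3 1↔2` -/
def pr (p : Fin 3) (d : Fin 4) : Fin 4 := if p = 0 then d + 2 else if p = 1 then 1 - d else 3 - d

/-- one step of the trail -/
def F (ω : Env) (x : Dart) : Dart := (x.1 + dv x.2, pr (ω (x.1 + dv x.2)) (x.2 + 2))

/-- reversal at a site -/
def R (ω : Env) (x : Dart) : Dart := (x.1, pr (ω x.1) x.2)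

/-- the forward orbit -/
def orb (ω : Env) (x : Dart) (n : ℕ) : Dart := (F ω)^[n] x

/-- the orbit is infinite -/
def Inf (ω : Env) (x : Dart) : Prop := ∀ n, 0 < n → orb ω x n ≠ x

/-- two sequences of darts have the same tail -/
def TEq (s t : ℕ → Dart) : Prop := ∃ m n, ∀ k, s (m + k) = t (n + k)

/-- the sequence `s` of darts visits the set `S` only finitely often -/
def FinV (S : Set (ℤ × ℤ)) (s : ℕ → Dart) : Prop := {n | (s n).1 ∈ S}.Finite

/-- `ω'` is a finite modification of `ω` -/
def FinMod (ω ω' : Env) : Prop := {s | ω s ≠ ω' s}.Finite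

/-- the orbit of `b` is infinite and never returns to the site of `b` -/
def LastAt (ω : Env) (b : Dart) : Prop := Inf ω b ∧ ∀ n, 0 < n → (orb ω b n).1 ≠ b.1

/-- `{k v : k = 0, 1, 2, ...}` -/
def ray (v : ℤ × ℤ) : Set (ℤ × ℤ) := {s | ∃ k : ℕ, s = (k : ℤ) • v}

/-- `{k v : k ∈ ℤ}` -/
def line (v : ℤ × ℤ) : Set (ℤ × ℤ) := {s | ∃ k : ℤ, s = k • v}

/-- the uniform measure on the three pairings -/
noncomputable def unif : Measure (Fin 3) := (3 : ENNReal)⁻¹ • Measure.count

instance : IsProbabilityMeasure unif := by
  constructor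
  simp [unif, Measure.count_univ]
  exact ENNReal.inv_mul_cancel (by norm_num) (by norm_num)

/-- independent uniform pairings -/
noncomputable def P : Measure Env := Measure.infinitePi fun _ => unif

instance : IsProbabilityMeasure P := by unfold P; infer_instance

/-- translation of the environment by `v` -/
def shift (v : ℤ × ℤ) (ω : Env) : Env := fun s => ω (s + v)

/-- translation of darts -/
def tr (v : ℤ × ℤ) (x : Dart) : Dart := (x.1 + v, x.2)

/-- rotation of the plane by 90 degrees -/
def rho (s : ℤ × ℤ) : ℤ × ℤ := (-s.2, s.1)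

/-- rotation of darts -/
def rotD (x : Dart) : Dart := (rho x.1, x.2 + 1)

/-- exchange of the two turning pairings -/
def sw (p : Fin 3) : Fin 3 := ![0, 2, 1] p

/-- rotated environment: `rotE ω` seen by the rotated darts is `ω` -/
def rotE (ω : Env) : Env := fun s => sw (ω (rho s))

/-! ### basic facts -/

theorem pr_pr (p : Fin 3) (d : Fin 4) : pr p (pr p d) = d := by revert p d; decide
theorem pr_ne (p : Fin 3) (d : Fin 4) : pr p d ≠ d := by revert p d; decide
theorem dv_add_two (d : Fin 4) : dv (d + 2) = -dv d := by revert d; decide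
theorem dv_ne_zero (d : Fin 4) : dv d ≠ 0 := by revert d; decide
theorem dv_inj {d d' : Fin 4} (h : dv d = dv d') : d = d' := by revert d d'; decide
theorem add_two_add_two (d : Fin 4) : d + 2 + 2 = d := by revert d; decide
theorem pr_exists (d d' : Fin 4) (h : d ≠ d') : ∃ p, pr p d = d' := by revert d d'; decide
theorem pr_sw (p : Fin 3) (d : Fin 4) : pr (sw p) (d + 1) = pr p d + 1 := by revert p d; decide
theorem sw_sw (p : Fin 3) : sw (sw p) = p := by revert p; decide
theorem dv_rot (d : Fin 4) : dv (d + 1) = rho (dv d) := by revert d; decide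

theorem R_R (ω : Env) (x : Dart) : R ω (R ω x) = x := by
  simp only [R, pr_pr]

theorem R_ne (ω : Env) (x : Dart) : R ω x ≠ x := by
  intro h
  exact pr_ne _ _ (congrArg Prod.snd h)

theorem F_R_F (ω : Env) (x : Dart) : F ω (R ω (F ω x)) = R ω x := by
  simp only [F, R, pr_pr, dv_add_two, add_neg_cancel_right, add_two_add_two]

theorem F_injective (ω : Env) : Function.Injective (F ω) := by
  intro x y h
  have h1 := F_R_F ω x
  rw [h, F_R_F] at h1
  have := congrArg (R ω) h1
  rwa [R_R, R_R, eq_comm] at this

theorem F_base_ne (ω : Env) (x : Dart) : (F ω x).1 ≠ x.1 := by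
  simp only [F]
  intro h
  exact dv_ne_zero x.2 (by simpa using h)

@[simp] theorem orb_zero (ω : Env) (x : Dart) : orb ω x 0 = x := rfl

theorem orb_succ (ω : Env) (x : Dart) (n : ℕ) : orb ω x (n + 1) = F ω (orb ω x n) :=
  Function.iterate_succ_apply' _ _ _

theorem orb_succ' (ω : Env) (x : Dart) (n : ℕ) : orb ω x (n + 1) = orb ω (F ω x) n :=
  Function.iterate_succ_apply _ _ _

theorem orb_add (ω : Env) (x : Dart) (m n : ℕ) : orb ω x (m + n) = orb ω (orb ω x m) n := by
  unfold orb
  rw [add_comm, Function.iterate_add_apply]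

theorem orb_injective (ω : Env) (n : ℕ) : Function.Injective (fun x => orb ω x n) :=
  (F_injective ω).iterate n

theorem orb_base_succ (ω : Env) (x : Dart) (n : ℕ) :
    (orb ω x (n + 1)).1 = (orb ω x n).1 + dv (orb ω x n).2 := by
  rw [orb_succ]; rfl

end Pool.Agent.GRW
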