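import Pool.Agent.GRW.D6

/-! # GRW row E1 : counting last visits -/

namespace Pool.Agent.GRW

open MeasureTheory Filter Topology

theorem e1_smul_mem_box {v : ℤ × ℤ} {l N k : ℕ} (hl1 : v.1.natAbs ≤ l) (hl2 : v.2.natAbs ≤ l) (hk : k ≤ N) :
    ((k : ℤ) • v) ∈ box (l * N) := by
  have h1 : (((k : ℤ) • v).1).natAbs ≤ l * N := by
    rw [Prod.smul_fst, smul_eq_mul, Int.natAbs_mul, Int.natAbs_natCast, mul_comm]
    exact Nat.mul_le_mul hl1 hk
  have h2 : (((k : ℤ) • v).2).natAbs ≤ l * N := by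
    rw [Prod.smul_snd, smul_eq_mul, Int.natAbs_mul, Int.natAbs_natCast, mul_comm]
    exact Nat.mul_le_mul hl2 hk
  unfold box
  rw [Finset.mem_product, Finset.mem_Icc, Finset.mem_Icc]
  refine ⟨⟨?_, ?_⟩, ⟨?_, ?_⟩⟩ <;> omega

open scoped Classical in
theorem e1_card {v : ℤ × ℤ} (T : Env → ℕ → Dart → Prop)
    (h1 : ∀ ω k y, T ω k y → Inf ω y ∧ y.1 = (k : ℤ) • v)
    (hinj : ∀ ω k l y y', T ω k y → T ω l y' → ∀ n m, orb ω y n = orb ω y' m → k = l)
    {l : ℕ} (hl1 : v.1.natAbs ≤ l) (hl2 : v.2.natAbs ≤ l) (N : ℕ) (ω : Env) :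
    ((Finset.range (N + 1)).filter fun k => ∃ y, T ω k y).card ≤
      ((box (l * N) ×ˢ (Finset.univ : Finset (Fin 4))).filter fun x => Esc ω (l * N) x).card := by
  have key : ∀ k : ℕ, ∃ z : Dart, (k ≤ N ∧ ∃ y, T ω k y) →
      (Esc ω (l * N) z ∧ ∃ y n, T ω k y ∧ orb ω y n = z) := by
    intro k
    by_cases hk : k ≤ N ∧ ∃ y, T ω k y
    · obtain ⟨hkN, y, hy⟩ := hk
      obtain ⟨hi, hy1⟩ := h1 ω k y hy
      have hmem : (orb ω y 0).1 ∈ ((box (l * N) : Finset (ℤ × ℤ)) : Set (ℤ × ℤ)) := by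
        rw [orb_zero, hy1]
        exact Finset.mem_coe.2 (e1_smul_mem_box hl1 hl2 hkN)
      obtain ⟨n, -, hn1, hn2⟩ := exists_last (finV_of_finite hi (box (l * N)).finite_toSet) hmem
      refine ⟨orb ω y n, fun _ => ⟨⟨Finset.mem_coe.1 hn1, fun j hj hj2 => hn2 j hj (Finset.mem_coe.2 hj2)⟩,
        y, n, hy, rfl⟩⟩
    · exact ⟨((0, 0), 0), fun h => absurd h hk⟩
  choose z hz using key
  refine Finset.card_le_card_of_injOn z ?_ ?_
  · intro k hk
    rw [Finset.mem_coe, Finset.mem_filter, Finset.mem_range] at hk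
    obtain ⟨h, -⟩ := hz k ⟨by omega, hk.2⟩
    rw [Finset.mem_coe, Finset.mem_filter, Finset.mem_product]
    exact ⟨⟨h.1, Finset.mem_univ _⟩, h⟩
  · intro k hk k' hk' hkk
    rw [Finset.mem_coe, Finset.mem_filter, Finset.mem_range] at hk hk'
    obtain ⟨-, y, n, hy, hyn⟩ := hz k ⟨by omega, hk.2⟩
    obtain ⟨-, y', n', hy', hyn'⟩ := hz k' ⟨by omega, hk'.2⟩
    refine hinj ω k k' y y' hy hy' n n' ?_
    rw [hyn, hyn']
    exact hkk

theorem e1_sum {v : ℤ × ℤ} (T : Env → ℕ → Dart → Prop)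
    (h1 : ∀ ω k y, T ω k y → Inf ω y ∧ y.1 = (k : ℤ) • v)
    (hinj : ∀ ω k l y y', T ω k y → T ω l y' → ∀ n m, orb ω y n = orb ω y' m → k = l)
    (hmeas : ∀ k, MeasurableSet {ω | ∃ y, T ω k y})
    {l : ℕ} (hl1 : v.1.natAbs ≤ l) (hl2 : v.2.natAbs ≤ l) (N : ℕ) :
    ∑ k ∈ Finset.range (N + 1), P {ω | ∃ y, T ω k y} ≤
      ∑ x ∈ box (l * N) ×ˢ (Finset.univ : Finset (Fin 4)), P {ω | Esc ω (l * N) x} := by
  classical
  have e1 : ∑ k ∈ Finset.range (N + 1), P {ω | ∃ y, T ω k y} =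
      ∫⁻ ω, ∑ k ∈ Finset.range (N + 1), ({ω | ∃ y, T ω k y} : Set Env).indicator 1 ω ∂P := by
    rw [lintegral_finsetSum _ fun k _ => measurable_one.indicator (hmeas k)]
    refine Finset.sum_congr rfl fun k _ => ?_
    rw [lintegral_indicator_one (hmeas k)]
  have e2 : ∑ x ∈ box (l * N) ×ˢ (Finset.univ : Finset (Fin 4)), P {ω | Esc ω (l * N) x} =
      ∫⁻ ω, ∑ x ∈ box (l * N) ×ˢ (Finset.univ : Finset (Fin 4)),
        ({ω | Esc ω (l * N) x} : Set Env).indicator 1 ω ∂P := by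
    rw [lintegral_finsetSum _ fun x _ => measurable_one.indicator (measurableSet_esc (l * N) x)]
    refine Finset.sum_congr rfl fun x _ => ?_
    rw [lintegral_indicator_one (measurableSet_esc (l * N) x)]
  rw [e1, e2]
  refine lintegral_mono fun ω => ?_
  have f1 : ∑ k ∈ Finset.range (N + 1), ({ω | ∃ y, T ω k y} : Set Env).indicator (1 : Env → ENNReal) ω =
      (((Finset.range (N + 1)).filter fun k => ∃ y, T ω k y).card : ENNReal) := by
    rw [← Finset.sum_boole]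
    rfl
  have f2 : ∑ x ∈ box (l * N) ×ˢ (Finset.univ : Finset (Fin 4)),
      ({ω | Esc ω (l * N) x} : Set Env).indicator (1 : Env → ENNReal) ω =
      (((box (l * N) ×ˢ (Finset.univ : Finset (Fin 4))).filter fun x => Esc ω (l * N) x).card : ENNReal) := by
    rw [← Finset.sum_boole]
    rfl
  show ∑ k ∈ Finset.range (N + 1), ({ω | ∃ y, T ω k y} : Set Env).indicator (1 : Env → ENNReal) ω ≤
    ∑ x ∈ box (l * N) ×ˢ (Finset.univ : Finset (Fin 4)),
      ({ω | Esc ω (l * N) x} : Set Env).indicator (1 : Env → ENNReal) ω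
  rw [f1, f2]
  exact_mod_cast e1_card T h1 hinj hl1 hl2 N ω

/-- **Counting.**  `T ω k y` is a property of darts `y` based at `k v` with infinite orbit, and orbits of
selected darts for different `k` never meet.  Let `l = max |v.1| |v.2| ≥ 1`, `m = l N`; for `k ≤ N` the
site `k v` is in `box m`.  For fixed `ω`, for `k ≤ N` with `∃ y, T ω k y` choose such a `y`; its orbit visits the
box at time `0` and finitely often (`finV_of_finite`), so after the last visit (`exists_last`) it gives a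
dart in `Esc ω m`; different `k` give different darts (`hinj`).  So
`#{k ≤ N | ∃ y, T ω k y} ≤ #{x | Esc ω m x}`; integrate (`lintegral` of sums of indicators):
`(N+1) p ≤ ∑_x P (Esc m x) ≤ δ l N` for large `N` (`sum_esc_small`), for every `δ > 0`. -/
theorem count_zero {v : ℤ × ℤ} (hv : v ≠ 0) (T : Env → ℕ → Dart → Prop)
    (h1 : ∀ ω k y, T ω k y → Inf ω y ∧ y.1 = (k : ℤ) • v)
    (hinj : ∀ ω k l y y', T ω k y → T ω l y' → ∀ n m, orb ω y n = orb ω y' m → k = l)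
    (hmeas : ∀ k, MeasurableSet {ω | ∃ y, T ω k y}) {p : ENNReal}
    (hp : ∀ k, p ≤ P {ω | ∃ y, T ω k y}) : p = 0 := by
  by_contra hp0
  have hple : p ≤ 1 := (hp 0).trans prob_le_one
  have hpt : p ≠ ⊤ := ne_top_of_le_ne_top ENNReal.one_ne_top hple
  set l : ℕ := max v.1.natAbs v.2.natAbs with hl
  have hl1 : v.1.natAbs ≤ l := le_max_left _ _
  have hl2 : v.2.natAbs ≤ l := le_max_right _ _
  have hl0 : l ≠ 0 := by
    intro h
    apply hv
    apply Prod.ext
    · show v.1 = 0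
      omega
    · show v.2 = 0
      omega
  have hl0' : (l : ENNReal) ≠ 0 := by exact_mod_cast hl0
  have hδ : 0 < p / (l : ENNReal) := ENNReal.div_pos hp0 (ENNReal.natCast_ne_top l)
  obtain ⟨M, hM⟩ := sum_esc_small (p / (l : ENNReal)) hδ
  have h2 := hM (l * M) (Nat.le_mul_of_pos_left M (Nat.pos_of_ne_zero hl0))
  have h3 := e1_sum T h1 hinj hmeas hl1 hl2 M
  have h4 : ((M + 1 : ℕ) : ENNReal) * p ≤ ∑ k ∈ Finset.range (M + 1), P {ω | ∃ y, T ω k y} := by
    have h5 := Finset.card_nsmul_le_sum (Finset.range (M + 1)) (fun k => P {ω | ∃ y, T ω k y}) p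
      fun k _ => hp k
    rwa [Finset.card_range, nsmul_eq_mul] at h5
  have h5 := (h4.trans h3).trans h2
  have h6 : p / (l : ENNReal) * ((l * M : ℕ) : ENNReal) = (M : ENNReal) * p := by
    rw [Nat.cast_mul, ← mul_assoc, ENNReal.div_mul_cancel hl0' (ENNReal.natCast_ne_top l), mul_comm]
  rw [h6, Nat.cast_add, Nat.cast_one, add_mul, one_mul] at h5
  have h7 : (M : ENNReal) * p ≠ ⊤ := ENNReal.mul_ne_top (ENNReal.natCast_ne_top M) hpt
  have h8 : (M : ENNReal) * p + p ≤ (M : ENNReal) * p + 0 := by rw [add_zero]; exact h5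
  have h9 := (ENNReal.add_le_add_iff_left h7).1 h8
  exact hp0 (le_antisymm h9 zero_le)

end Pool.Agent.GRW
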