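import Pool.Agent.GRW.E1

/-! # GRW row E2 : no last visit to a line; no trail with a last point on a line -/

namespace Pool.Agent.GRW

open MeasureTheory Filter Topology

/-- `line v` is invariant under translation by its points -/
theorem e2_line_add (v : ℤ × ℤ) (j : ℤ) (s : ℤ × ℤ) : s + j • v ∈ line v ↔ s ∈ line v := by
  constructor
  · rintro ⟨k, hk⟩
    exact ⟨k - j, by rw [sub_smul, ← hk]; abel⟩
  · rintro ⟨k, hk⟩
    exact ⟨k + j, by rw [add_smul, ← hk]⟩

theorem e2_smul_inj {v : ℤ × ℤ} (hv : v ≠ 0) {a b : ℤ} (h : a • v = b • v) : a = b := by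
  have h1 : (a - b) • v = 0 := by rw [sub_smul, h, sub_self]
  rcases smul_eq_zero.1 h1 with h2 | h2
  · omega
  · exact absurd h2 hv

theorem e2_smul_add (v : ℤ × ℤ) (j k : ℤ) (s : ℤ × ℤ) : s + k • v = (j + k) • v ↔ s = j • v := by
  rw [add_smul, add_left_inj]

/-- measurability of a countable union over darts -/
theorem e2_meas_exists {p : Env → Dart → Prop} (h : ∀ y, MeasurableSet {ω | p ω y}) :
    MeasurableSet {ω | ∃ y, p ω y} := by
  have : {ω | ∃ y, p ω y} = ⋃ y, {ω | p ω y} := by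
    ext ω; simp
  rw [this]
  exact MeasurableSet.iUnion h

theorem e2_meas_orb (y : Dart) (n : ℕ) (T : Set Dart) : MeasurableSet {ω | orb ω y n ∈ T} :=
  measurableSet_orb_mem (g := fun _ => y) measurable_const n T

theorem e2_meas_orbR (y : Dart) (n : ℕ) (T : Set Dart) :
    MeasurableSet {ω | orb ω (R ω y) n ∈ T} :=
  measurableSet_orb_mem (g := fun ω => R ω y) (measurable_R measurable_const) n T

/-- **No last exit.**  `count_zero` with
`T ω k y = (Inf ω y ∧ y.1 = k v ∧ ∀ n > 0, (orb ω y n).1 ∉ line v)`.  If `orb y n = orb y' m` with `n ≤ m` then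
`y = orb y' (m - n)` is on the line, so `m = n` and `y = y'`.  The probabilities do not depend on `k`
(`mp_shift`, `orb_tr`, `inf_tr`, `line v` is invariant under translation by `k v`). -/
theorem tse {v : ℤ × ℤ} (hv : v ≠ 0) :
    P {ω | ∃ d : Fin 4, Inf ω (0, d) ∧ ∀ n, 0 < n → (orb ω (0, d) n).1 ∉ line v} = 0 := by
  obtain ⟨T, hT⟩ : ∃ T : Env → ℕ → Dart → Prop, ∀ ω k y, T ω k y ↔
    ((Inf ω y ∧ y.1 = (k : ℤ) • v) ∧ ∀ n, 0 < n → (orb ω y n).1 ∉ line v) := ⟨_, fun _ _ _ => Iff.rfl⟩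
  have hmT : ∀ k y, MeasurableSet {ω | T ω k y} := by
    intro k y
    have : {ω | T ω k y} = ({ω | Inf ω y} ∩ {ω | y.1 = (k : ℤ) • v}) ∩
        ⋂ n : ℕ, {ω | 0 < n → (orb ω y n).1 ∉ line v} := by
      ext ω
      simp only [Set.mem_inter_iff, Set.mem_iInter]
      exact hT ω k y
    rw [this]
    refine ((measurableSet_inf (g := fun _ => y) measurable_const).inter
      (MeasurableSet.const _)).inter (MeasurableSet.iInter fun n => ?_)
    by_cases hn : 0 < n
    · have h2 : {ω | 0 < n → (orb ω y n).1 ∉ line v} = {ω | orb ω y n ∈ {x : Dart | x.1 ∉ line v}} := by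
        ext ω
        exact ⟨fun h => h hn, fun h _ => h⟩
      rw [h2]
      exact e2_meas_orb y n _
    · have h2 : {ω | 0 < n → (orb ω y n).1 ∉ line v} = Set.univ := by
        ext ω
        exact ⟨fun _ => trivial, fun _ h => absurd h hn⟩
      rw [h2]
      exact MeasurableSet.univ
  have hmeas : ∀ k, MeasurableSet {ω | ∃ y, T ω k y} := fun k => e2_meas_exists (hmT k)
  have hset : {ω | ∃ d : Fin 4, Inf ω (0, d) ∧ ∀ n, 0 < n → (orb ω (0, d) n).1 ∉ line v} =
      {ω | ∃ y, T ω 0 y} := by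
    ext ω
    constructor
    · rintro ⟨d, h1, h2⟩
      exact ⟨(0, d), (hT _ _ _).2 ⟨⟨h1, by simp⟩, h2⟩⟩
    · rintro ⟨⟨u, d⟩, h⟩
      obtain ⟨⟨h1, h3⟩, h2⟩ := (hT _ _ _).1 h
      simp only [Nat.cast_zero, zero_smul] at h3
      subst h3
      exact ⟨d, h1, h2⟩
  rw [hset]
  refine count_zero hv T (fun ω k y h => ((hT ω k y).1 h).1) ?_ hmeas (fun k => ?_)
  · have aux : ∀ ω k l y y', T ω k y → T ω l y' → ∀ n m, n ≤ m → orb ω y n = orb ω y' m →
        k = l := by
      intro ω k l y y' h h' n m hnm he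
      obtain ⟨⟨h1, h3⟩, h2⟩ := (hT _ _ _).1 h
      obtain ⟨⟨h1', h3'⟩, h2'⟩ := (hT _ _ _).1 h'
      have he2 : y = orb ω y' (m - n) := by
        apply orb_injective ω n
        change orb ω y n = orb ω (orb ω y' (m - n)) n
        rw [← orb_add, he]
        congr 1; omega
      have hmn : m - n = 0 := by
        by_contra hne
        apply h2' (m - n) (Nat.pos_of_ne_zero hne)
        rw [← he2, h3]
        exact ⟨k, rfl⟩
      rw [hmn, orb_zero] at he2
      rw [he2, h3'] at h3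
      have := e2_smul_inj hv h3
      exact_mod_cast this.symm
    intro ω k l y y' h h' n m he
    rcases le_total n m with hnm | hnm
    · exact aux ω k l y y' h h' n m hnm he
    · exact (aux ω l k y' y h' h m n hnm he.symm).symm
  · refine le_of_eq ?_
    rw [← (mp_shift ((k : ℤ) • v)).measure_preimage (hmeas 0).nullMeasurableSet]
    congr 1
    ext ω
    change (∃ y, T (shift ((k : ℤ) • v) ω) 0 y) ↔ ∃ y, T ω k y
    constructor
    · rintro ⟨y, h⟩
      obtain ⟨⟨h1, h3⟩, h2⟩ := (hT _ _ _).1 h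
      refine ⟨tr ((k : ℤ) • v) y, (hT _ _ _).2 ⟨⟨(inf_tr _ _ _).2 h1, ?_⟩, fun n hn hmem => ?_⟩⟩
      · simp only [Nat.cast_zero, zero_smul] at h3
        simp [tr, h3]
      · rw [orb_tr] at hmem
        exact h2 n hn ((e2_line_add v k _).1 hmem)
    · rintro ⟨y, h⟩
      obtain ⟨⟨h1, h3⟩, h2⟩ := (hT _ _ _).1 h
      have hy : y = tr ((k : ℤ) • v) (0, y.2) := by
        rcases y with ⟨u, d⟩
        simp only at h3
        simp [tr, h3]
      rw [hy] at h1
      refine ⟨(0, y.2), (hT _ _ _).2 ⟨⟨(inf_tr _ _ _).1 h1, by simp⟩, fun n hn hmem => ?_⟩⟩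
      apply h2 n hn
      rw [hy, orb_tr]
      exact (e2_line_add v k _).2 hmem

/-- **No last point.**  `count_zero` with
`T ω k y = (Inf ω y ∧ y.1 = k v ∧ (∀ n, ∀ j > k, (orb ω y n).1 ≠ j v) ∧ ∀ n, ∀ j > k, (orb ω (R ω y) n).1 ≠ j v)`.
If `orb y n = orb y' m` (`y` at `k v`, `y'` at `l v`), say `n ≤ m`: `y = orb y' (m-n)`, so `k ≤ l`; and
`orb (R y) (m-n) = R y'` (`orb_R`) is at the site `l v`, so `l ≤ k`. -/
theorem tsl {v : ℤ × ℤ} (hv : v ≠ 0) :
    P {ω | ∃ d : Fin 4, Inf ω (0, d) ∧ (∀ (n : ℕ) (j : ℤ), 0 < j → (orb ω (0, d) n).1 ≠ j • v) ∧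
      ∀ (n : ℕ) (j : ℤ), 0 < j → (orb ω (R ω (0, d)) n).1 ≠ j • v} = 0 := by
  obtain ⟨T, hT⟩ : ∃ T : Env → ℕ → Dart → Prop, ∀ ω k y, T ω k y ↔
    ((Inf ω y ∧ y.1 = (k : ℤ) • v) ∧ (∀ (n : ℕ) (j : ℤ), (k : ℤ) < j → (orb ω y n).1 ≠ j • v) ∧
      ∀ (n : ℕ) (j : ℤ), (k : ℤ) < j → (orb ω (R ω y) n).1 ≠ j • v) := ⟨_, fun _ _ _ => Iff.rfl⟩
  have hmT : ∀ k y, MeasurableSet {ω | T ω k y} := by
    intro k y
    have : {ω | T ω k y} = ({ω | Inf ω y} ∩ {ω | y.1 = (k : ℤ) • v}) ∩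
        ((⋂ n : ℕ, {ω | orb ω y n ∈ {x : Dart | ∀ j : ℤ, (k : ℤ) < j → x.1 ≠ j • v}}) ∩
         ⋂ n : ℕ, {ω | orb ω (R ω y) n ∈ {x : Dart | ∀ j : ℤ, (k : ℤ) < j → x.1 ≠ j • v}}) := by
      ext ω
      simp only [Set.mem_inter_iff, Set.mem_iInter]
      exact hT ω k y
    rw [this]
    exact ((measurableSet_inf (g := fun _ => y) measurable_const).inter
      (MeasurableSet.const _)).inter ((MeasurableSet.iInter fun n => e2_meas_orb y n _).inter
        (MeasurableSet.iInter fun n => e2_meas_orbR y n _))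
  have hmeas : ∀ k, MeasurableSet {ω | ∃ y, T ω k y} := fun k => e2_meas_exists (hmT k)
  have hset : {ω | ∃ d : Fin 4, Inf ω (0, d) ∧
      (∀ (n : ℕ) (j : ℤ), 0 < j → (orb ω (0, d) n).1 ≠ j • v) ∧
      ∀ (n : ℕ) (j : ℤ), 0 < j → (orb ω (R ω (0, d)) n).1 ≠ j • v} = {ω | ∃ y, T ω 0 y} := by
    ext ω
    constructor
    · rintro ⟨d, h1, h2, h3⟩
      exact ⟨(0, d), (hT _ _ _).2 ⟨⟨h1, by simp⟩, by simpa using h2, by simpa using h3⟩⟩
    · rintro ⟨⟨u, d⟩, h⟩
      obtain ⟨⟨h1, h3⟩, h2, h4⟩ := (hT _ _ _).1 h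
      simp only [Nat.cast_zero, zero_smul] at h3
      subst h3
      exact ⟨d, h1, by simpa using h2, by simpa using h4⟩
  rw [hset]
  refine count_zero hv T (fun ω k y h => ((hT ω k y).1 h).1) ?_ hmeas (fun k => ?_)
  · have aux : ∀ ω k l y y', T ω k y → T ω l y' → ∀ n m, n ≤ m → orb ω y n = orb ω y' m →
        k = l := by
      intro ω k l y y' h h' n m hnm he
      obtain ⟨⟨h1, h3⟩, h2, h4⟩ := (hT _ _ _).1 h
      obtain ⟨⟨h1', h3'⟩, h2', h4'⟩ := (hT _ _ _).1 h'
      have he2 : y = orb ω y' (m - n) := by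
        apply orb_injective ω n
        change orb ω y n = orb ω (orb ω y' (m - n)) n
        rw [← orb_add, he]
        congr 1; omega
      have hkl : k ≤ l := by
        by_contra hlt
        apply h2' (m - n) k (by exact_mod_cast not_le.1 hlt)
        rw [← he2, h3]
      have hlk : l ≤ k := by
        by_contra hlt
        apply h4 (m - n) l (by exact_mod_cast not_le.1 hlt)
        rw [he2, orb_R ω y' le_rfl, Nat.sub_self, orb_zero]
        exact h3'
      omega
    intro ω k l y y' h h' n m he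
    rcases le_total n m with hnm | hnm
    · exact aux ω k l y y' h h' n m hnm he
    · exact (aux ω l k y' y h' h m n hnm he.symm).symm
  · refine le_of_eq ?_
    rw [← (mp_shift ((k : ℤ) • v)).measure_preimage (hmeas 0).nullMeasurableSet]
    congr 1
    ext ω
    change (∃ y, T (shift ((k : ℤ) • v) ω) 0 y) ↔ ∃ y, T ω k y
    have hadd : ∀ (j : ℤ) (s : ℤ × ℤ), s + (k : ℤ) • v = j • v ↔ s = (j - k) • v := by
      intro j s
      have := e2_smul_add v (j - k) k s
      rwa [sub_add_cancel] at this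
    constructor
    · rintro ⟨y, h⟩
      obtain ⟨⟨h1, h3⟩, h2, h4⟩ := (hT _ _ _).1 h
      refine ⟨tr ((k : ℤ) • v) y, (hT _ _ _).2 ⟨⟨(inf_tr _ _ _).2 h1, ?_⟩, fun n j hj hmem => ?_,
        fun n j hj hmem => ?_⟩⟩
      · simp only [Nat.cast_zero, zero_smul] at h3
        simp [tr, h3]
      · rw [orb_tr] at hmem
        exact h2 n (j - k) (by push_cast; omega) ((hadd _ _).1 hmem)
      · rw [R_tr, orb_tr] at hmem
        exact h4 n (j - k) (by push_cast; omega) ((hadd _ _).1 hmem)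
    · rintro ⟨y, h⟩
      obtain ⟨⟨h1, h3⟩, h2, h4⟩ := (hT _ _ _).1 h
      have hy : y = tr ((k : ℤ) • v) (0, y.2) := by
        rcases y with ⟨u, d⟩
        simp only at h3
        simp [tr, h3]
      rw [hy] at h1 h2 h4
      refine ⟨(0, y.2), (hT _ _ _).2 ⟨⟨(inf_tr _ _ _).1 h1, by simp⟩, fun n j hj hmem => ?_,
        fun n j hj hmem => ?_⟩⟩
      · apply h2 n (j + k) (by push_cast at hj; omega)
        rw [orb_tr]
        exact (hadd _ _).2 (by rw [add_sub_cancel_right]; exact hmem)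
      · apply h4 n (j + k) (by push_cast at hj; omega)
        rw [R_tr, orb_tr]
        exact (hadd _ _).2 (by rw [add_sub_cancel_right]; exact hmem)

end Pool.Agent.GRW
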