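import Pool.Agent.GRW.B2
import Pool.Agent.GRW.C2
import Pool.Agent.GRW.E2

/-! # GRW row G1 : every infinite trail hits every line `ℤ v` infinitely often -/

namespace Pool.Agent.GRW

open MeasureTheory Filter Topology

/-- `line v` is invariant under translation by its points -/
theorem g1_line_add (v : ℤ × ℤ) (j : ℤ) (s : ℤ × ℤ) : s + j • v ∈ line v ↔ s ∈ line v := by
  constructor
  · rintro ⟨k, hk⟩
    exact ⟨k - j, by rw [sub_smul, ← hk]; abel⟩
  · rintro ⟨k, hk⟩
    exact ⟨k + j, by rw [add_smul, ← hk]⟩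

/-- translated `tse` -/
theorem g1_tse {v : ℤ × ℤ} (hv : v ≠ 0) :
    ∀ᵐ ω ∂P, ∀ (j : ℤ) (y : Dart), y.1 = j • v → Inf ω y →
      ¬ ∀ n, 0 < n → (orb ω y n).1 ∉ line v := by
  rw [ae_all_iff]
  intro j
  have h1 : ∀ᵐ ω ∂P, ¬ ∃ d : Fin 4, Inf ω (0, d) ∧ ∀ n, 0 < n → (orb ω (0, d) n).1 ∉ line v :=
    measure_eq_zero_iff_ae_notMem.1 (tse hv)
  have h2 := (mp_shift (j • v)).quasiMeasurePreserving.ae h1
  filter_upwards [h2] with ω hω
  rintro ⟨u, d⟩ hu hinf hno
  simp only at hu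
  subst hu
  apply hω
  have hy : ((j • v, d) : Dart) = tr (j • v) (0, d) := by simp [tr]
  rw [hy] at hinf hno
  refine ⟨d, (inf_tr _ _ _).1 hinf, fun n hn hmem => hno n hn ?_⟩
  rw [orb_tr]
  exact (g1_line_add v j _).2 hmem

/-- By `tse` and translation by `j v` (`mp_shift`, `orb_tr`): almost surely for all `j ∈ ℤ` no dart at `j v` has
an infinite orbit which never again visits `line v`; by `ae_finMod` this holds for all finite
modifications `ω'` of `ω`.  Suppose `x` is infinite with `FinV (line v)`.  `reach` with `q = 0` gives `ω'` and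
`b'` at `0` with the tail of `x` (`TEq.finV`, `TEq.inf`); its last visit to `line v` (`exists_last`) is a
contradiction. -/
theorem hline {v : ℤ × ℤ} (hv : v ≠ 0) :
    ∀ᵐ ω ∂P, ∀ x, Inf ω x → ¬ FinV (line v) (orb ω x) := by
  filter_upwards [ae_finMod (g1_tse hv)] with ω hω x hx hfin
  obtain ⟨ω', hm, b', hb0, hb, hT⟩ := reach hx 0
  have hinf : Inf ω' b' := hb.1
  have hf : FinV (line v) (orb ω' b') := hT.finV hfin
  have h0 : (orb ω' b' 0).1 ∈ line v := by
    rw [orb_zero, hb0]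
    exact ⟨0, by simp⟩
  obtain ⟨n, -, hn, hlast⟩ := exists_last hf h0
  obtain ⟨j, hj⟩ := hn
  exact hω ω' hm j _ hj (inf_orb hinf n) hlast

end Pool.Agent.GRW
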