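import Pool.Agent.GRW.G1

/-! # GRW row G2 : at most one end is finite on a ray -/

namespace Pool.Agent.GRW

open MeasureTheory Filter Topology

/-- `tsl` translated: almost surely, for every `j ∈ ℤ` there is no infinite trail through `j v` which avoids
all `i v` with `i > j`. -/
theorem tsl_all {v : ℤ × ℤ} (hv : v ≠ 0) :
    ∀ᵐ ω ∂P, ∀ (j : ℤ) (y : Dart), y.1 = j • v → Inf ω y →
      ¬ ((∀ (n : ℕ) (i : ℤ), j < i → (orb ω y n).1 ≠ i • v) ∧
        ∀ (n : ℕ) (i : ℤ), j < i → (orb ω (R ω y) n).1 ≠ i • v) := by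
  have h0 := measure_eq_zero_iff_ae_notMem.1 (tsl hv)
  have h1 : ∀ j : ℤ, ∀ᵐ ω ∂P, shift (j • v) ω ∉ {ω | ∃ d : Fin 4, Inf ω (0, d) ∧
      (∀ (n : ℕ) (j : ℤ), 0 < j → (orb ω (0, d) n).1 ≠ j • v) ∧
      ∀ (n : ℕ) (j : ℤ), 0 < j → (orb ω (R ω (0, d)) n).1 ≠ j • v} := fun j =>
    (mp_shift (j • v)).quasiMeasurePreserving.ae h0
  filter_upwards [ae_all_iff.2 h1] with ω hω j y hy hI hcon
  have hyt : y = tr (j • v) (0, y.2) := Prod.ext (by simp [tr, hy]) rfl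
  refine hω j ⟨y.2, ?_, ?_, ?_⟩
  · rw [← inf_tr, ← hyt]
    exact hI
  · intro n i hi h2
    refine hcon.1 n (j + i) (by omega) ?_
    rw [hyt, orb_tr, tr, h2, add_smul, add_comm]
  · intro n i hi h2
    refine hcon.2 n (j + i) (by omega) ?_
    rw [hyt, R_tr, orb_tr, tr, h2, add_smul, add_comm]

theorem g2_sites (ω : Env) (w : Dart) (n k : ℕ) :
    (∃ m, (orb ω (R ω (orb ω w n)) k).1 = (orb ω w m).1) ∨
      ∃ m, (orb ω (R ω (orb ω w n)) k).1 = (orb ω (R ω w) m).1 := by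
  rcases le_total k n with h | h
  · left
    refine ⟨n - k, ?_⟩
    rw [orb_R ω w h]
    rfl
  · right
    refine ⟨k - n, ?_⟩
    obtain ⟨l, rfl⟩ := Nat.exists_eq_add_of_le h
    rw [orb_add, orb_R ω w le_rfl, Nat.sub_self, orb_zero, Nat.add_sub_cancel_left]

/-- the sites `i v` visited by `w` or `R w` -/
def G2vis (ω : Env) (v : ℤ × ℤ) (w : Dart) (i : ℤ) : Prop :=
  (∃ m, (orb ω w m).1 = i • v) ∨ ∃ m, (orb ω (R ω w) m).1 = i • v

theorem g2_vis_R {ω : Env} {v : ℤ × ℤ} {w : Dart} {i : ℤ} : G2vis ω v (R ω w) i ↔ G2vis ω v w i := by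
  unfold G2vis
  rw [R_R, or_comm]

theorem g2_false {ω : Env} {v : ℤ × ℤ} (ht : ∀ (j : ℤ) (y : Dart), y.1 = j • v → Inf ω y →
      ¬ ((∀ (n : ℕ) (i : ℤ), j < i → (orb ω y n).1 ≠ i • v) ∧
        ∀ (n : ℕ) (i : ℤ), j < i → (orb ω (R ω y) n).1 ≠ i • v)) {w : Dart} (hw : Inf ω w) {j : ℤ}
    (hj : ∀ i, G2vis ω v w i → i ≤ j) {n : ℕ} (hn : (orb ω w n).1 = j • v) : False := by
  refine ht j _ hn (inf_orb hw n) ⟨?_, ?_⟩
  · intro m i hi h
    rw [← orb_add] at h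
    have := hj i (Or.inl ⟨_, h⟩)
    omega
  · intro m i hi h
    rcases g2_sites ω w n m with ⟨k, hk⟩ | ⟨k, hk⟩
    · have := hj i (Or.inl ⟨k, by rw [← hk, h]⟩)
      omega
    · have := hj i (Or.inr ⟨k, by rw [← hk, h]⟩)
      omega

theorem g2_smul_inj {v : ℤ × ℤ} (hv : v ≠ 0) : Function.Injective fun i : ℤ => i • v := by
  intro a b h
  have h1 : (a - b) • v = 0 := by
    rw [sub_smul]
    exact sub_eq_zero.2 h
  rcases smul_eq_zero.1 h1 with h2 | h2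
  · omega
  · exact absurd h2 hv

theorem g2_fin {v : ℤ × ℤ} (hv : v ≠ 0) {s : ℕ → Dart} (hs : FinV (ray v) s) :
    {i : ℤ | 0 ≤ i ∧ ∃ m, (s m).1 = i • v}.Finite := by
  have h1 : ((fun m => (s m).1) '' {n | (s n).1 ∈ ray v}).Finite := Set.Finite.image _ hs
  refine (h1.preimage (f := fun i : ℤ => i • v) (g2_smul_inj hv).injOn).subset ?_
  rintro i ⟨hi, m, hm⟩
  refine ⟨m, ?_, hm⟩
  refine ⟨i.toNat, ?_⟩
  rw [hm, Int.toNat_of_nonneg hi]

theorem g2_bdd {v : ℤ × ℤ} (hv : v ≠ 0) {ω : Env} {z : Dart} (h1 : FinV (ray v) (orb ω z))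
    (h2 : FinV (ray v) (orb ω (R ω z))) : ∃ b, ∀ i, G2vis ω v z i → i ≤ b := by
  obtain ⟨b, hb⟩ := ((g2_fin hv h1).union (g2_fin hv h2)).bddAbove
  refine ⟨max b 0, fun i hi => ?_⟩
  by_cases h0 : 0 ≤ i
  · refine le_trans (hb ?_) (le_max_left _ _)
    rcases hi with hi | hi
    · exact Or.inl ⟨h0, hi⟩
    · exact Or.inr ⟨h0, hi⟩
  · exact le_trans (by omega) (le_max_right _ _)

/-- **Uniqueness.**  Take `ω` such that all finite modifications satisfy `hline` and `tsl_all`.  If `x`, `y` are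
finite on `ray v` and do not have the same tail, `join` gives `ω'` and `z`.  The set of `j ∈ ℤ` such that
`j v` is visited by `orb ω' z` or `orb ω' (R ω' z)` is nonempty (`hline`) and bounded above (`FinV (ray v)` for
both, `TEq.finV`; `v ≠ 0`).  Let `j` be its maximum, visited by `y₀ = orb ω' z n` (or `orb ω' (R z) n`).  The sites of the
orbits of `y₀` and of `R y₀` are sites of the orbits of `z` and `R z` (`orb_add`, `orb_R`), contradiction with
`tsl_all` at `j`. -/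
theorem uniq {v : ℤ × ℤ} (hv : v ≠ 0) :
    ∀ᵐ ω ∂P, ∀ x y, Inf ω x → Inf ω y → FinV (ray v) (orb ω x) → FinV (ray v) (orb ω y) →
      TEq (orb ω x) (orb ω y) := by
  filter_upwards [ae_finMod ((hline hv).and (tsl_all hv))] with ω hω x y hx hy hfx hfy
  by_contra hne
  obtain ⟨ω', hm, z, hz, hxz, hyz⟩ := join hx hy hne
  obtain ⟨hl, ht⟩ := hω ω' hm
  obtain ⟨j, hj, hmax⟩ := Int.exists_greatest_of_bdd (P := G2vis ω' v z)
    (g2_bdd hv (hxz.finV hfx) (hyz.finV hfy)) (by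
      have h1 : {n | (orb ω' z n).1 ∈ line v}.Nonempty := by
        by_contra h2
        rw [Set.not_nonempty_iff_eq_empty] at h2
        refine hl z hz ?_
        unfold FinV
        rw [h2]
        exact Set.finite_empty
      obtain ⟨n, i, hn⟩ := h1
      exact ⟨i, Or.inl ⟨n, hn⟩⟩)
  rcases hj with ⟨n, hn⟩ | ⟨n, hn⟩
  · exact g2_false ht hz hmax hn
  · exact g2_false ht (inf_R hz) (fun i hi => hmax i (g2_vis_R.1 hi)) hn

end Pool.Agent.GRW
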