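import Pool.Agent.GRW.G2
import Pool.Agent.GRW.C4

/-! # GRW row G3 : the events `Ev`, `Cv`, `Dv` -/

namespace Pool.Agent.GRW

open MeasureTheory Filter Topology

/-- some infinite trail is finite on `ray v` -/
def Ev (v : ℤ × ℤ) : Set Env := {ω | ∃ x, Inf ω x ∧ FinV (ray v) (orb ω x)}

/-- some trail is finite on `ray v` in one direction and finite on `ray (-v)` in the other direction -/
def Cv (v : ℤ × ℤ) : Set Env :=
  {ω | ∃ x, Inf ω x ∧ FinV (ray v) (orb ω x) ∧ FinV (ray (-v)) (orb ω (R ω x))}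

/-- some infinite trail is finite on `ray v` and on `ray (rho v)` -/
def Dv (v : ℤ × ℤ) : Set Env :=
  {ω | ∃ x, Inf ω x ∧ FinV (ray v) (orb ω x) ∧ FinV (ray (rho v)) (orb ω x)}

/-- countable unions; C5 -/
theorem measurableSet_Ev (v : ℤ × ℤ) : MeasurableSet (Ev v) := by
  have h : Ev v = ⋃ x : Dart, ({ω | Inf ω x} ∩ {ω | FinV (ray v) (orb ω x)}) := by
    ext ω
    simp [Ev]
  rw [h]
  exact MeasurableSet.iUnion fun x =>
    (measurableSet_inf measurable_const).inter (measurableSet_finV _ measurable_const)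

theorem measurableSet_Cv (v : ℤ × ℤ) : MeasurableSet (Cv v) := by
  have h : Cv v = ⋃ x : Dart, ({ω | Inf ω x} ∩ ({ω | FinV (ray v) (orb ω x)} ∩
      {ω | FinV (ray (-v)) (orb ω (R ω x))})) := by
    ext ω
    simp [Cv]
  rw [h]
  exact MeasurableSet.iUnion fun x =>
    (measurableSet_inf measurable_const).inter ((measurableSet_finV _ measurable_const).inter
      (measurableSet_finV _ (measurable_R measurable_const)))

theorem measurableSet_Dv (v : ℤ × ℤ) : MeasurableSet (Dv v) := by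
  have h : Dv v = ⋃ x : Dart, ({ω | Inf ω x} ∩ ({ω | FinV (ray v) (orb ω x)} ∩
      {ω | FinV (ray (rho v)) (orb ω x)})) := by
    ext ω
    simp [Dv]
  rw [h]
  exact MeasurableSet.iUnion fun x =>
    (measurableSet_inf measurable_const).inter ((measurableSet_finV _ measurable_const).inter
      (measurableSet_finV _ measurable_const))

/-- `exists_tail_finMod`, `TEq.finV`, `zero_one_finMod` -/
theorem Ev_zero_one (v : ℤ × ℤ) : P (Ev v) = 0 ∨ P (Ev v) = 1 := by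
  refine zero_one_finMod (measurableSet_Ev v) ?_
  rintro ω ω' hm ⟨x, hx, hf⟩
  obtain ⟨x', hx', ht⟩ := exists_tail_finMod hm hx
  exact ⟨x', hx', ht.finV hf⟩

theorem Dv_zero_one (v : ℤ × ℤ) : P (Dv v) = 0 ∨ P (Dv v) = 1 := by
  refine zero_one_finMod (measurableSet_Dv v) ?_
  rintro ω ω' hm ⟨x, hx, hf, hf'⟩
  obtain ⟨x', hx', ht⟩ := exists_tail_finMod hm hx
  exact ⟨x', hx', ht.finV hf, ht.finV hf'⟩

theorem g3_finV_rot (ω : Env) (x : Dart) (v : ℤ × ℤ) :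
    FinV (ray (rho v)) (orb ω (rotD x)) ↔ FinV (ray v) (orb (rotE ω) x) := by
  rw [finV_rot]
  have h : {s | rho s ∈ ray (rho v)} = ray v := by
    ext s
    exact rho_mem_ray v s
  rw [h]

/-- `mp_rotE`, `inf_rot`, `finV_rot`, `rho_mem_ray`: `rotE ⁻¹' Ev v = Ev (rho v)` -/
theorem P_Ev_rho (v : ℤ × ℤ) : P (Ev (rho v)) = P (Ev v) := by
  rw [← mp_rotE.measure_preimage (measurableSet_Ev v).nullMeasurableSet]
  congr 1
  ext ω
  constructor
  · rintro ⟨y, hy, hf⟩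
    obtain ⟨x, rfl⟩ := rotD_bijective.2 y
    exact ⟨x, (inf_rot ω x).1 hy, (g3_finV_rot ω x v).1 hf⟩
  · rintro ⟨x, hx, hf⟩
    exact ⟨rotD x, (inf_rot ω x).2 hx, (g3_finV_rot ω x v).2 hf⟩

theorem P_Dv_rho (v : ℤ × ℤ) : P (Dv (rho v)) = P (Dv v) := by
  rw [← mp_rotE.measure_preimage (measurableSet_Dv v).nullMeasurableSet]
  congr 1
  ext ω
  constructor
  · rintro ⟨y, hy, hf, hf'⟩
    obtain ⟨x, rfl⟩ := rotD_bijective.2 y
    exact ⟨x, (inf_rot ω x).1 hy, (g3_finV_rot ω x v).1 hf, (g3_finV_rot ω x _).1 hf'⟩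
  · rintro ⟨x, hx, hf, hf'⟩
    exact ⟨rotD x, (inf_rot ω x).2 hx, (g3_finV_rot ω x v).2 hf, (g3_finV_rot ω x _).2 hf'⟩

theorem g3_diff1 (v : ℤ × ℤ) : ({s | s + v ∈ ray v} \ ray v).Finite := by
  refine (Set.finite_singleton (-v)).subset ?_
  rintro s ⟨⟨k, hk⟩, h2⟩
  rcases Nat.eq_zero_or_pos k with rfl | hk0
  · simp only [Nat.cast_zero, zero_smul] at hk
    exact eq_neg_of_add_eq_zero_left hk
  · refine absurd ⟨k - 1, ?_⟩ h2
    rw [Nat.cast_sub hk0, sub_smul, ← hk, Nat.cast_one, one_smul, add_sub_cancel_right]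

theorem g3_diff2 (v : ℤ × ℤ) : (ray v \ {s | s + v ∈ ray v}).Finite := by
  refine Set.finite_empty.subset ?_
  rintro s ⟨⟨k, hk⟩, h2⟩
  refine h2 ⟨k + 1, ?_⟩
  rw [Nat.cast_add, add_smul, ← hk, Nat.cast_one, one_smul]

theorem g3_diff3 (v : ℤ × ℤ) : ({s | s + v ∈ ray (-v)} \ ray (-v)).Finite := by
  refine Set.finite_empty.subset ?_
  rintro s ⟨⟨k, hk⟩, h2⟩
  refine h2 ⟨k + 1, ?_⟩
  rw [Nat.cast_add, add_smul, ← hk, Nat.cast_one, one_smul, add_neg_cancel_right]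

theorem g3_diff4 (v : ℤ × ℤ) : (ray (-v) \ {s | s + v ∈ ray (-v)}).Finite := by
  refine (Set.finite_singleton 0).subset ?_
  rintro s ⟨⟨k, hk⟩, h2⟩
  rcases Nat.eq_zero_or_pos k with rfl | hk0
  · simpa using hk
  · refine absurd (show s + v ∈ ray (-v) from ⟨k - 1, ?_⟩) h2
    rw [Nat.cast_sub hk0, sub_smul, ← hk, Nat.cast_one, one_smul, sub_neg_eq_add]

theorem g3_tr1 {ω : Env} {v : ℤ × ℤ} {x : Dart} (hx : Inf (shift v ω) x) :
    FinV (ray v) (orb ω (tr v x)) ↔ FinV (ray v) (orb (shift v ω) x) := by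
  rw [finV_tr]
  exact ⟨finV_of_diff hx (g3_diff2 v), finV_of_diff hx (g3_diff1 v)⟩

theorem g3_tr2 {ω : Env} {v : ℤ × ℤ} {x : Dart} (hx : Inf (shift v ω) x) :
    FinV (ray (-v)) (orb ω (tr v x)) ↔ FinV (ray (-v)) (orb (shift v ω) x) := by
  rw [finV_tr]
  exact ⟨finV_of_diff hx (g3_diff4 v), finV_of_diff hx (g3_diff3 v)⟩

/-- `Cv v` is invariant under `shift v`: an infinite orbit visits a single site finitely often
(`inf_tr`, `finV_tr`, `R_tr`, `finV_of_diff`); `zero_one_shift`. -/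
theorem Cv_zero_one {v : ℤ × ℤ} (hv : v ≠ 0) : P (Cv v) = 0 ∨ P (Cv v) = 1 := by
  refine zero_one_shift (measurableSet_Cv v) hv fun ω => ?_
  constructor
  · rintro ⟨x, hx, hf, hf'⟩
    refine ⟨tr v x, (inf_tr ω v x).2 hx, (g3_tr1 hx).2 hf, ?_⟩
    rw [R_tr]
    exact (g3_tr2 (inf_R hx)).2 hf'
  · rintro ⟨y, hy, hf, hf'⟩
    obtain ⟨x, rfl⟩ : ∃ x, tr v x = y := ⟨tr (-v) y, by simp [tr]⟩
    have hx := (inf_tr ω v x).1 hy
    rw [R_tr] at hf'
    exact ⟨x, hx, (g3_tr1 hx).1 hf, (g3_tr2 (inf_R hx)).1 hf'⟩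

/-- `line v = ray v ∪ ray (-v)` -/
theorem finV_line {v : ℤ × ℤ} {s : ℕ → Dart} (h1 : FinV (ray v) s) (h2 : FinV (ray (-v)) s) :
    FinV (line v) s := by
  refine (Set.Finite.union h1 h2).subset ?_
  rintro n ⟨k, hk⟩
  rcases le_total 0 k with h | h
  · exact Or.inl ⟨k.toNat, by rw [Int.toNat_of_nonneg h]; exact hk⟩
  · refine Or.inr ⟨(-k).toNat, ?_⟩
    rw [Int.toNat_of_nonneg (by omega), neg_smul, smul_neg, neg_neg]
    exact hk

end Pool.Agent.GRW
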