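import Pool.Agent.GRW.G3

/-! # GRW row G4 : every half-line is visited infinitely often by every infinite trail -/

namespace Pool.Agent.GRW

open MeasureTheory Filter Topology

theorem g4_ae {J : Set Env} (h : P J = 1) (hJ : MeasurableSet J) : ∀ᵐ ω ∂P, ω ∈ J :=
  (prob_compl_eq_zero_iff hJ).2 h

theorem g4_false (h : ∀ᵐ _ω ∂P, False) : False := by
  rw [ae_iff] at h
  simp at h

theorem g4_tr (a : ℤ × ℤ) (x : Dart) : tr a (tr (-a) x) = x := by
  simp [tr]

theorem g4_rho_ne {v : ℤ × ℤ} (hv : v ≠ 0) : rho v ≠ 0 := by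
  intro h
  apply hv
  simp only [rho, Prod.mk_eq_zero, neg_eq_zero] at h
  exact Prod.ext h.2 h.1

/-- If `P (Cv v) = 0`, almost surely no finite modification of `ω` is in `Cv v` (`ae_finMod`).  But
almost surely there are `x` finite on `ray v` and `y` finite on `ray (-v)` (`P_Ev_rho` twice, `rho_rho`); they do not
have the same tail (`hline`, `finV_line`, `TEq.finV`), so `join` gives a finite modification in `Cv v`. -/
theorem P_Cv {v : ℤ × ℤ} (hv : v ≠ 0) (hE : P (Ev v) = 1) : P (Cv v) = 1 := by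
  rcases Cv_zero_one hv with h0 | h0
  swap
  · exact h0
  exfalso
  have h1 : ∀ᵐ ω ∂P, ω ∉ Cv v := measure_eq_zero_iff_ae_notMem.1 h0
  have hE' : P (Ev (-v)) = 1 := by rw [← rho_rho, P_Ev_rho, P_Ev_rho, hE]
  refine g4_false ?_
  · filter_upwards [ae_finMod h1, g4_ae hE (measurableSet_Ev v), g4_ae hE' (measurableSet_Ev (-v)),
      hline hv] with ω hω h3 h4 hl
    obtain ⟨x, hx, hfx⟩ := h3
    obtain ⟨y, hy, hfy⟩ := h4
    have hne : ¬ TEq (orb ω x) (orb ω y) := fun ht =>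
      hl y hy (finV_line (ht.finV hfx) hfy)
    obtain ⟨ω', hm, z, hz, hxz, hyz⟩ := join hx hy hne
    exact hω ω' hm ⟨z, hz, hxz.finV hfx, hyz.finV hfy⟩

/-- Take `ω` such that all finite modifications satisfy `Cv v`, `uniq` for `v`, and `ω ∈ Ev v`: `x` finite on
`ray v`.  Let `y` be infinite and not finite on `ray v`; `join` for `x` and `y` gives `ω'`, `z`.  By `Cv v` there is `x'`
with `x'` finite on `ray v` and `R x'` finite on `ray (-v)` for `ω'`; `uniq` gives that `z` and `x'` have the same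
tail, so `R z` and `R x'` too (`TEq.rev`), so `y` is finite on `ray (-v)`. -/
theorem two_ends {v : ℤ × ℤ} (hv : v ≠ 0) (hE : P (Ev v) = 1) :
    ∀ᵐ ω ∂P, ∀ y, Inf ω y → FinV (ray v) (orb ω y) ∨ FinV (ray (-v)) (orb ω y) := by
  filter_upwards [ae_finMod ((g4_ae (P_Cv hv hE) (measurableSet_Cv v)).and (uniq hv)),
    g4_ae hE (measurableSet_Ev v)] with ω hω h3 y hy
  obtain ⟨x, hx, hfx⟩ := h3
  by_cases hfy : FinV (ray v) (orb ω y)
  · exact Or.inl hfy
  right
  have hne : ¬ TEq (orb ω x) (orb ω y) := fun ht => hfy (ht.finV hfx)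
  obtain ⟨ω', hm, z, hz, hxz, hyz⟩ := join hx hy hne
  obtain ⟨⟨x', hx', h4, h5⟩, hu⟩ := hω ω' hm
  have h6 : TEq (orb ω' x') (orb ω' z) := hu x' z hx' hz h4 (hxz.finV hfx)
  exact hyz.symm.finV (h6.rev.finV h5)

/-- Suppose `P (Ev v) = 1`, so also `P (Ev (rho v)) = 1`.
If `P (Dv v) = 1` then `P (Dv (rho v)) = 1`: there are `x` finite on `ray v`, `ray (rho v)` and `y` finite on `ray (rho v)`,
`ray (-v)` (`rho_rho`), with the same tail by `uniq` for `rho v`, contradiction with `hline` (`finV_line`).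
If `P (Dv v) = 0` then `P (Dv (rho v)) = 0`: `x` finite on `ray (rho v)` (`Ev (rho v)`) is finite on `ray v` or on
`ray (-v) = ray (rho (rho v))` by `two_ends`, so `ω ∈ Dv v` or `ω ∈ Dv (rho v)`, contradiction. -/
theorem P_Ev {v : ℤ × ℤ} (hv : v ≠ 0) : P (Ev v) = 0 := by
  rcases Ev_zero_one v with h0 | h0
  · exact h0
  exfalso
  have hρ := g4_rho_ne hv
  have hE' : P (Ev (rho v)) = 1 := by rw [P_Ev_rho, h0]
  rcases Dv_zero_one v with hD | hD
  · have hD' : P (Dv (rho v)) = 0 := by rw [P_Dv_rho, hD]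
    refine g4_false ?_
    filter_upwards [measure_eq_zero_iff_ae_notMem.1 hD, measure_eq_zero_iff_ae_notMem.1 hD',
      g4_ae hE' (measurableSet_Ev _), two_ends hv h0] with ω h1 h2 h3 h4
    obtain ⟨x, hx, hfx⟩ := h3
    rcases h4 x hx with h5 | h5
    · exact h1 ⟨x, hx, h5, hfx⟩
    · exact h2 ⟨x, hx, hfx, by rw [rho_rho]; exact h5⟩
  · have hD' : P (Dv (rho v)) = 1 := by rw [P_Dv_rho, hD]
    refine g4_false ?_
    filter_upwards [g4_ae hD (measurableSet_Dv _), g4_ae hD' (measurableSet_Dv _), uniq hρ,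
      hline hv] with ω h1 h2 h3 hl
    obtain ⟨x, hx, hx1, hx2⟩ := h1
    obtain ⟨y, hy, hy1, hy2⟩ := h2
    rw [rho_rho] at hy2
    exact hl y hy (finV_line ((h3 x y hx hy hx2 hy1).finV hx1) hy2)

/-- `P_Ev`, translation by `a` (`mp_shift`, `finV_tr`), countably many `a`, `v`. -/
theorem env_main :
    ∀ᵐ ω ∂P, ∀ a v : ℤ × ℤ, v ≠ 0 → ∀ x, Inf ω x →
      ¬ FinV {s | ∃ k : ℕ, s = a + (k : ℤ) • v} (orb ω x) := by
  have h1 : ∀ a v : ℤ × ℤ, ∀ᵐ ω ∂P, v ≠ 0 → ∀ x, Inf ω x →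
      ¬ FinV {s | ∃ k : ℕ, s = a + (k : ℤ) • v} (orb ω x) := by
    intro a v
    by_cases hv : v = 0
    · exact Eventually.of_forall fun ω h => absurd hv h
    filter_upwards [(mp_shift a).quasiMeasurePreserving.ae
      (measure_eq_zero_iff_ae_notMem.1 (P_Ev hv))] with ω hω _ x hx hf
    refine hω ⟨tr (-a) x, ?_, ?_⟩
    · rw [← inf_tr, g4_tr]
      exact hx
    · have h2 := finV_tr ω a (tr (-a) x) {s | ∃ k : ℕ, s = a + (k : ℤ) • v}
      rw [g4_tr] at h2
      have h3 : {s : ℤ × ℤ | s + a ∈ {s | ∃ k : ℕ, s = a + (k : ℤ) • v}} = ray v := by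
        ext s
        simp only [Set.mem_setOf_eq, ray]
        constructor
        · rintro ⟨k, hk⟩
          refine ⟨k, ?_⟩
          rw [add_comm] at hk
          exact add_left_cancel hk
        · rintro ⟨k, hk⟩
          exact ⟨k, by rw [hk, add_comm]⟩
      rw [h3] at h2
      exact h2.1 hf
  exact ae_all_iff.2 fun a => ae_all_iff.2 fun v => h1 a v

end Pool.Agent.GRW
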