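import Pool.Agent.GRW.Defs

/-! # GRW row H1 : logarithmic cut-off functions on `ℤ²` -/

namespace Pool.Agent.GRW

open Filter Topology

/-- the sup norm -/
private def h1_r (s : ℤ × ℤ) : ℕ := max s.1.natAbs s.2.natAbs

/-- harmonic sums -/
private noncomputable def h1_H (n : ℕ) : ℝ := ∑ i ∈ Finset.range n, 1 / ((i : ℝ) + 1)

private theorem h1_H_succ (n : ℕ) : h1_H (n + 1) = h1_H n + 1 / ((n : ℝ) + 1) := by
  unfold h1_H
  rw [Finset.sum_range_succ]

private theorem h1_H_mono : Monotone h1_H := by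
  apply monotone_nat_of_le_succ
  intro n
  rw [h1_H_succ]
  have : (0 : ℝ) ≤ 1 / ((n : ℝ) + 1) := by positivity
  linarith

private theorem h1_H_nonneg (n : ℕ) : 0 ≤ h1_H n := Finset.sum_nonneg fun i _ => by positivity

/-- the radial profile -/
private noncomputable def h1_g (k N j : ℕ) : ℝ :=
  max 0 (min 1 (1 - (h1_H j - h1_H k) / (h1_H N - h1_H k)))

private theorem h1_clamp (a b : ℝ) : |max 0 (min 1 a) - max 0 (min 1 b)| ≤ |a - b| := by
  have h1 : |max 0 (min 1 a) - max 0 (min 1 b)| ≤ |min 1 a - min 1 b| := by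
    have := abs_max_sub_max_le_abs (min 1 a) (min 1 b) 0
    rwa [max_comm (min 1 a), max_comm (min 1 b)] at this
  have h2 : |min 1 a - min 1 b| ≤ |a - b| := by
    have := abs_min_sub_min_le_max 1 a 1 b
    simpa using this
  exact h1.trans h2

private theorem h1_g_step (k N j : ℕ) (hD : 0 < h1_H N - h1_H k) :
    |h1_g k N (j + 1) - h1_g k N j| ≤ 1 / (((j : ℝ) + 1) * (h1_H N - h1_H k)) := by
  refine (h1_clamp _ _).trans ?_
  rw [h1_H_succ]
  have hj : (0 : ℝ) < (j : ℝ) + 1 := by positivity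
  have e : (1 - (h1_H j + 1 / ((j : ℝ) + 1) - h1_H k) / (h1_H N - h1_H k)) -
      (1 - (h1_H j - h1_H k) / (h1_H N - h1_H k)) = -(1 / (((j : ℝ) + 1) * (h1_H N - h1_H k))) := by
    field_simp
    ring
  rw [e, abs_neg, abs_of_nonneg (by positivity)]

private theorem h1_g_zero (k N j : ℕ) (hD : 0 < h1_H N - h1_H k) (h : N ≤ j) : h1_g k N j = 0 := by
  unfold h1_g
  apply max_eq_left
  refine (min_le_right _ _).trans ?_
  have h1 : h1_H N ≤ h1_H j := h1_H_mono h
  rw [sub_nonpos, le_div_iff₀ hD]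
  linarith

private theorem h1_g_one (k N j : ℕ) (hD : 0 < h1_H N - h1_H k) (h : j ≤ k) : h1_g k N j = 1 := by
  unfold h1_g
  have h1 : h1_H j ≤ h1_H k := h1_H_mono h
  have h2 : (h1_H j - h1_H k) / (h1_H N - h1_H k) ≤ 0 :=
    div_nonpos_of_nonpos_of_nonneg (by linarith) hD.le
  rw [min_eq_left (by linarith)]
  simp

/-- the weight of a site at distance `j` -/
private noncomputable def h1_w (k N j : ℕ) : ℝ :=
  if j ≤ N then 1 / ((max (j : ℝ) 1) * (h1_H N - h1_H k)) ^ 2 else 0

private theorem h1_pair (k N : ℕ) (hD : 0 < h1_H N - h1_H k) (a b : ℕ)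
    (hab : a ≤ b + 1) (hba : b ≤ a + 1) :
    (h1_g k N b - h1_g k N a) ^ 2 ≤ h1_w k N a := by
  unfold h1_w
  split_ifs with haN
  · rw [one_div, ← inv_pow, ← one_div]
    apply sq_le_sq'
    · have : |h1_g k N b - h1_g k N a| ≤ 1 / ((max (a : ℝ) 1) * (h1_H N - h1_H k)) := ?_
      · exact (abs_le.1 this).1
      rcases Nat.lt_trichotomy a b with h | h | h
      · obtain rfl : b = a + 1 := by omega
        refine (h1_g_step k N a hD).trans ?_
        apply one_div_le_one_div_of_le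
        · positivity
        · gcongr
          exact max_le (by linarith) (by linarith [(Nat.cast_nonneg a : (0 : ℝ) ≤ a)])
      · subst h
        rw [sub_self, abs_zero]
        positivity
      · obtain rfl : a = b + 1 := by omega
        rw [abs_sub_comm]
        refine (h1_g_step k N b hD).trans ?_
        apply one_div_le_one_div_of_le
        · positivity
        · gcongr
          push_cast
          exact max_le (by linarith) (by linarith [(Nat.cast_nonneg b : (0 : ℝ) ≤ b)])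
    · have : |h1_g k N b - h1_g k N a| ≤ 1 / ((max (a : ℝ) 1) * (h1_H N - h1_H k)) := ?_
      · exact (abs_le.1 this).2
      rcases Nat.lt_trichotomy a b with h | h | h
      · obtain rfl : b = a + 1 := by omega
        refine (h1_g_step k N a hD).trans ?_
        apply one_div_le_one_div_of_le
        · positivity
        · gcongr
          exact max_le (by linarith) (by linarith [(Nat.cast_nonneg a : (0 : ℝ) ≤ a)])
      · subst h
        rw [sub_self, abs_zero]
        positivity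
      · obtain rfl : a = b + 1 := by omega
        rw [abs_sub_comm]
        refine (h1_g_step k N b hD).trans ?_
        apply one_div_le_one_div_of_le
        · positivity
        · gcongr
          push_cast
          exact max_le (by linarith) (by linarith [(Nat.cast_nonneg b : (0 : ℝ) ≤ b)])
  · rw [h1_g_zero k N a hD (by omega), h1_g_zero k N b hD (by omega)]
    simp

private theorem h1_r_step (s : ℤ × ℤ) (d : Fin 4) :
    h1_r s ≤ h1_r (s + dv d) + 1 ∧ h1_r (s + dv d) ≤ h1_r s + 1 := by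
  obtain ⟨x, y⟩ := s
  unfold h1_r
  fin_cases d <;> simp [dv] <;> omega

/-- the sites at distance `j` -/
private noncomputable def h1_shell (j : ℕ) : Finset (ℤ × ℤ) :=
  ((Finset.Icc (-(j : ℤ)) j).image fun t => ((j : ℤ), t)) ∪
  ((Finset.Icc (-(j : ℤ)) j).image fun t => (-(j : ℤ), t)) ∪
  ((Finset.Icc (-(j : ℤ)) j).image fun t => (t, (j : ℤ))) ∪
  ((Finset.Icc (-(j : ℤ)) j).image fun t => (t, -(j : ℤ)))

private theorem h1_mem_shell (s : ℤ × ℤ) : s ∈ h1_shell (h1_r s) := by
  obtain ⟨x, y⟩ := s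
  unfold h1_shell h1_r
  simp only [Finset.mem_union, Finset.mem_image, Finset.mem_Icc, Prod.mk.injEq, Nat.cast_max]
  rcases le_total x.natAbs y.natAbs with h | h
  · rw [max_eq_right (by exact_mod_cast h)]
    rcases Int.natAbs_eq y with hy | hy
    · left; right
      exact ⟨x, by omega, rfl, hy.symm⟩
    · right
      exact ⟨x, by omega, rfl, hy.symm⟩
  · rw [max_eq_left (by exact_mod_cast h)]
    rcases Int.natAbs_eq x with hx | hx
    · left; left; left
      exact ⟨y, by omega, hx.symm, rfl⟩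
    · left; left; right
      exact ⟨y, by omega, hx.symm, rfl⟩

private theorem h1_card_shell (j : ℕ) : (h1_shell j).card ≤ 8 * j + 4 := by
  unfold h1_shell
  have hI : (Finset.Icc (-(j : ℤ)) j).card = 2 * j + 1 := by
    rw [Int.card_Icc]
    omega
  refine (Finset.card_union_le _ _).trans ?_
  have h1 := Finset.card_union_le
    (((Finset.Icc (-(j : ℤ)) j).image fun t => ((j : ℤ), t)) ∪
    ((Finset.Icc (-(j : ℤ)) j).image fun t => (-(j : ℤ), t)))
    ((Finset.Icc (-(j : ℤ)) j).image fun t => (t, (j : ℤ)))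
  have h2 := Finset.card_union_le
    ((Finset.Icc (-(j : ℤ)) j).image fun t => ((j : ℤ), t))
    ((Finset.Icc (-(j : ℤ)) j).image fun t => (-(j : ℤ), t))
  have h3 : ((Finset.Icc (-(j : ℤ)) j).image fun t => ((j : ℤ), t)).card ≤ 2 * j + 1 :=
    Finset.card_image_le.trans hI.le
  have h4 : ((Finset.Icc (-(j : ℤ)) j).image fun t => (-(j : ℤ), t)).card ≤ 2 * j + 1 :=
    Finset.card_image_le.trans hI.le
  have h5 : ((Finset.Icc (-(j : ℤ)) j).image fun t => (t, (j : ℤ))).card ≤ 2 * j + 1 :=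
    Finset.card_image_le.trans hI.le
  have h6 : ((Finset.Icc (-(j : ℤ)) j).image fun t => (t, -(j : ℤ))).card ≤ 2 * j + 1 :=
    Finset.card_image_le.trans hI.le
  omega

private theorem h1_w_nonneg (k N j : ℕ) : 0 ≤ h1_w k N j := by
  unfold h1_w
  split_ifs <;> positivity

private theorem h1_shell_weight (k N j : ℕ) (hD : 0 < h1_H N - h1_H k) (hj : j ≤ N) :
    ((8 * j + 4 : ℕ) : ℝ) * h1_w k N j ≤
      12 / (h1_H N - h1_H k) ^ 2 * (1 / max (j : ℝ) 1) := by
  unfold h1_w
  rw [if_pos hj]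
  have hm : (0 : ℝ) < max (j : ℝ) 1 := lt_max_of_lt_right one_pos
  have h1 : ((8 * j + 4 : ℕ) : ℝ) ≤ 12 * max (j : ℝ) 1 := by
    push_cast
    have := le_max_left (j : ℝ) 1
    have := le_max_right (j : ℝ) 1
    linarith
  calc ((8 * j + 4 : ℕ) : ℝ) * (1 / ((max (j : ℝ) 1) * (h1_H N - h1_H k)) ^ 2)
      ≤ (12 * max (j : ℝ) 1) * (1 / ((max (j : ℝ) 1) * (h1_H N - h1_H k)) ^ 2) := by gcongr
    _ = 12 / (h1_H N - h1_H k) ^ 2 * (1 / max (j : ℝ) 1) := by
        field_simp

private theorem h1_sum_max (N : ℕ) :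
    ∑ j ∈ Finset.range (N + 1), (1 / max (j : ℝ) 1) = 1 + h1_H N := by
  rw [Finset.sum_range_succ']
  unfold h1_H
  rw [add_comm]
  congr 1
  · simp
  · refine Finset.sum_congr rfl fun i _ => ?_
    push_cast
    rw [max_eq_left (by linarith [(Nat.cast_nonneg i : (0 : ℝ) ≤ i)])]

private theorem h1_energy (k N : ℕ) (hD : 0 < h1_H N - h1_H k) (B : Finset (ℤ × ℤ)) :
    ∑ s ∈ B, h1_w k N (h1_r s) ≤ 12 / (h1_H N - h1_H k) ^ 2 * (1 + h1_H N) := by
  classical
  have h1 : ∑ s ∈ B, h1_w k N (h1_r s) ≤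
      ∑ j ∈ Finset.range (N + 1), ∑ s ∈ h1_shell j, h1_w k N j := by
    have h2 : ∑ s ∈ B, h1_w k N (h1_r s) =
        ∑ s ∈ B.filter (fun s => h1_r s < N + 1), h1_w k N (h1_r s) := by
      rw [Finset.sum_filter]
      refine Finset.sum_congr rfl fun s _ => ?_
      split_ifs with h
      · rfl
      · unfold h1_w
        rw [if_neg (by omega)]
    rw [h2, ← Finset.sum_fiberwise_of_maps_to (s := B.filter (fun s => h1_r s < N + 1))
      (t := Finset.range (N + 1)) (g := h1_r)
      (fun s hs => Finset.mem_range.2 (Finset.mem_filter.1 hs).2)]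
    refine Finset.sum_le_sum fun j _ => ?_
    have h3 : ∑ s ∈ (B.filter (fun s => h1_r s < N + 1)).filter (fun s => h1_r s = j),
        h1_w k N (h1_r s) =
        ∑ s ∈ (B.filter (fun s => h1_r s < N + 1)).filter (fun s => h1_r s = j), h1_w k N j := by
      refine Finset.sum_congr rfl fun s hs => ?_
      rw [(Finset.mem_filter.1 hs).2]
    rw [h3]
    refine Finset.sum_le_sum_of_subset_of_nonneg ?_ fun _ _ _ => h1_w_nonneg k N j
    intro s hs
    have := (Finset.mem_filter.1 hs).2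
    rw [← this]
    exact h1_mem_shell s
  refine h1.trans ?_
  rw [← h1_sum_max, Finset.mul_sum]
  refine Finset.sum_le_sum fun j hj => ?_
  rw [Finset.sum_const, nsmul_eq_mul]
  refine le_trans ?_ (h1_shell_weight k N j hD (by have := Finset.mem_range.1 hj; omega))
  have := h1_card_shell j
  have h2 : ((h1_shell j).card : ℝ) ≤ ((8 * j + 4 : ℕ) : ℝ) := by exact_mod_cast this
  exact mul_le_mul_of_nonneg_right h2 (h1_w_nonneg k N j)

private theorem h1_choose (k : ℕ) (ε : ℝ) (hε : 0 < ε) :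
    ∃ N : ℕ, 0 < h1_H N - h1_H k ∧
      4 * (12 / (h1_H N - h1_H k) ^ 2 * (1 + h1_H N)) ≤ ε := by
  have ht : Tendsto h1_H atTop atTop := Real.tendsto_sum_range_one_div_nat_succ_atTop
  obtain ⟨N, hN⟩ := (ht.eventually (eventually_ge_atTop
    (h1_H k + max 1 (48 * (2 + h1_H k) / ε)))).exists
  set x := h1_H N - h1_H k with hx
  have hx1 : 1 ≤ x := by
    have := le_max_left 1 (48 * (2 + h1_H k) / ε)
    linarith
  have hx2 : 48 * (2 + h1_H k) / ε ≤ x := by
    have := le_max_right 1 (48 * (2 + h1_H k) / ε)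
    linarith
  have hx0 : 0 < x := by linarith
  refine ⟨N, hx0, ?_⟩
  have hk := h1_H_nonneg k
  have e1 : 1 + h1_H N = 1 + h1_H k + x := by rw [hx]; ring
  rw [e1]
  have e2 : 1 + h1_H k + x ≤ (2 + h1_H k) * x := by nlinarith
  have e3 : 48 * (2 + h1_H k) ≤ x * ε := by
    rwa [div_le_iff₀ hε] at hx2
  calc 4 * (12 / x ^ 2 * (1 + h1_H k + x)) ≤ 4 * (12 / x ^ 2 * ((2 + h1_H k) * x)) := by gcongr
    _ = (48 * (2 + h1_H k)) / x := by field_simp; ring
    _ ≤ (x * ε) / x := by gcongr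
    _ = ε := by field_simp

/-- **Cut-off.**  Let `r s = max |s.1| |s.2|` (a natural number), `H r = ∑_{i=1}^{r} 1/i`, and for `N > k`
`φ s = max 0 (min 1 (1 - (H (r s) - H k) / (H N - H k)))`.  Then `φ = 1` for `r s ≤ k`, `φ = 0` for
`r s ≥ N`, and for neighbours `s, s'` one has `|r s - r s'| ≤ 1` and
`|φ s' - φ s| ≤ 1 / ((j+1) (H N - H k))` if `j = min (r s) (r s')`, and `φ s' = φ s` if `j ≥ N`.  There are at most
`8 j + 8` sites with `r s = j` (for `j ≥ 1`; one for `j = 0`), so the energy is at most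
`∑_{j<N} C (j+1) / ((j+1)^2 (H N - H k)^2) = C H N / (H N - H k)^2`, which tends to `0` as `N → ∞` since
the harmonic series diverges. -/
theorem cutoff (k : ℕ) (ε : ℝ) (hε : 0 < ε) :
    ∃ φ : ℤ × ℤ → ℝ, (Function.support φ).Finite ∧ (∀ s, 0 ≤ φ s) ∧ (∀ s, φ s ≤ 1) ∧
      (∀ s : ℤ × ℤ, |s.1| ≤ k → |s.2| ≤ k → φ s = 1) ∧
      ∀ B : Finset (ℤ × ℤ), ∑ s ∈ B, ∑ d : Fin 4, (φ (s + dv d) - φ s) ^ 2 ≤ ε := by
  obtain ⟨N, hD, hN⟩ := h1_choose k ε hε
  refine ⟨fun s => h1_g k N (h1_r s), ?_, fun s => le_max_left _ _, fun s => ?_,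
    fun s h1 h2 => ?_, fun B => ?_⟩
  · apply Set.Finite.subset
      ((Finset.Icc (-(N : ℤ)) N ×ˢ Finset.Icc (-(N : ℤ)) N : Finset (ℤ × ℤ)).finite_toSet)
    intro s hs
    rw [Function.mem_support] at hs
    have h3 : h1_r s < N := by
      by_contra hcon
      exact hs (h1_g_zero k N _ hD (by omega))
    unfold h1_r at h3
    rw [Finset.mem_coe, Finset.mem_product, Finset.mem_Icc, Finset.mem_Icc]
    omega
  · exact max_le zero_le_one (min_le_left _ _)
  · apply h1_g_one k N _ hD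
    unfold h1_r
    rw [abs_le] at h1 h2
    omega
  · refine le_trans ?_ ((mul_le_mul_of_nonneg_left (h1_energy k N hD B)
      (by norm_num : (0 : ℝ) ≤ 4)).trans hN)
    rw [Finset.mul_sum]
    refine Finset.sum_le_sum fun s _ => ?_
    have h4 : ∀ d ∈ (Finset.univ : Finset (Fin 4)),
        (h1_g k N (h1_r (s + dv d)) - h1_g k N (h1_r s)) ^ 2 ≤ h1_w k N (h1_r s) :=
      fun d _ => h1_pair k N hD _ _ (h1_r_step s d).1 (h1_r_step s d).2
    refine (Finset.sum_le_card_nsmul _ _ _ h4).trans ?_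
    simp

end Pool.Agent.GRW
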