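import Pool.Agent.GRW.H1

/-! # GRW row H2 : bounded subharmonic functions on `ℤ²` are constant -/

namespace Pool.Agent.GRW

open Filter Topology

/-- The elementary inequality behind the energy bound (`0 ≤ a, b ≤ 1`):
`t²b - s²a = (t²+s²)(b-a)/2 + (t²-s²)(a+b)/2` and
`|t-s| |t+s| |b-a| ≤ 2 (t-s)² + (t+s)² (b-a)² / 8 ≤ 2 (t-s)² + (t²+s²)(b-a)²/4`. -/
theorem energy_ineq (a b s t : ℝ) (ha : 0 ≤ a) (hb : 0 ≤ b) (ha1 : a ≤ 1) (hb1 : b ≤ 1) :
    (s ^ 2 + t ^ 2) * (b - a) ^ 2 / 4 - 2 * (t - s) ^ 2 ≤ (t ^ 2 * b - s ^ 2 * a) * (b - a) := by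
  have hc : 0 ≤ 1 - ((a + b) / 2) ^ 2 := by nlinarith
  have h1 := sq_nonneg ((t - s) + (a + b) / 2 * ((t + s) * (b - a)) / 4)
  have h2 : 0 ≤ (1 - ((a + b) / 2) ^ 2) * ((t + s) * (b - a)) ^ 2 :=
    mul_nonneg hc (sq_nonneg _)
  have h3 : 0 ≤ (t - s) ^ 2 * (b - a) ^ 2 := mul_nonneg (sq_nonneg _) (sq_nonneg _)
  nlinarith [h1, h2, h3]

/-- the reversal of a dart as a permutation -/
private def h2_e : Equiv.Perm Dart where
  toFun x := (x.1 + dv x.2, x.2 + 2)
  invFun x := (x.1 + dv x.2, x.2 + 2)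
  left_inv x := by
    simp [dv_add_two, add_two_add_two]
  right_inv x := by
    simp [dv_add_two, add_two_add_two]

/-- **Liouville.**  Let `φ` be a cut-off with energy `≤ ε` which is `1` at `s₀` and `s₀ + dv d₀`.  Since
`φ² u ≥ 0` and `∑_d (u (s + dv d) - u s) ≥ 0`,
`0 ≤ ∑_s ∑_d φ(s)² u(s) (u(s + dv d) - u s)`.  The involution `(s, d) ↦ (s + dv d, d + 2)` gives
`∑_s ∑_d φ(s)² u(s) (u(s + dv d) - u s) = - (1/2) ∑_s ∑_d (φ(s')² u(s') - φ(s)² u(s)) (u s' - u s)` with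
`s' = s + dv d` (all sums are over a finite set outside which the terms vanish; e.g. use `tsum`/`finsum`
over `ℤ × ℤ × Fin 4` or a large box).  With `energy_ineq`:
`∑ (φ(s)² + φ(s')²)(u s' - u s)² / 4 ≤ 2 ∑ (φ s' - φ s)² ≤ 2 ε`, in particular
`(u (s₀ + dv d₀) - u s₀)² ≤ 4 ε` for every `ε > 0`. -/
theorem liouville (u : ℤ × ℤ → ℝ) (h0 : ∀ s, 0 ≤ u s) (h1 : ∀ s, u s ≤ 1)
    (hs : ∀ s, u s ≤ (1 / 4) * ∑ d : Fin 4, u (s + dv d)) (s : ℤ × ℤ) (d : Fin 4) :
    u (s + dv d) = u s := by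
  classical
  by_contra hne
  have hD : 0 < (u (s + dv d) - u s) ^ 2 := by
    have : u (s + dv d) - u s ≠ 0 := sub_ne_zero.mpr hne
    positivity
  obtain ⟨φ, hfin, -, -, hone, hE⟩ :=
    cutoff (max s.1.natAbs s.2.natAbs) ((u (s + dv d) - u s) ^ 2 / 16) (by positivity)
  have hφs : φ s = 1 := by
    apply hone
    · have := le_max_left s.1.natAbs s.2.natAbs
      have h2 : |s.1| = (s.1.natAbs : ℤ) := Int.abs_eq_natAbs _
      rw [h2]; exact_mod_cast this
    · have := le_max_right s.1.natAbs s.2.natAbs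
      have h2 : |s.2| = (s.2.natAbs : ℤ) := Int.abs_eq_natAbs _
      rw [h2]; exact_mod_cast this
  set g : Dart → ℝ := fun x => φ x.1 ^ 2 * u x.1 * (u (x.1 + dv x.2) - u x.1) with hg
  set q : Dart → ℝ := fun x => (φ (x.1 + dv x.2) - φ x.1) ^ 2 with hq
  set w : Dart → ℝ := fun x =>
    (φ x.1 ^ 2 + φ (x.1 + dv x.2) ^ 2) * (u (x.1 + dv x.2) - u x.1) ^ 2 / 4 with hw
  set S : Finset (ℤ × ℤ) := hfin.toFinset with hS
  have hmS : ∀ a, a ∉ S → φ a = 0 := by
    intro a ha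
    by_contra h
    exact ha (by rw [hS, Set.Finite.mem_toFinset]; exact h)
  set SU : Finset Dart := S ×ˢ (Finset.univ : Finset (Fin 4)) with hSU
  set K : Finset Dart := SU ∪ SU.image h2_e with hK
  have hee : ∀ x, h2_e (h2_e x) = x := fun x => h2_e.left_inv x
  have hKe : ∀ x, x ∈ K ↔ h2_e x ∈ K := by
    intro x
    simp only [hK, Finset.mem_union, Finset.mem_image]
    constructor
    · rintro (h | ⟨y, hy, rfl⟩)
      · exact Or.inr ⟨x, h, rfl⟩
      · exact Or.inl (by rw [hee]; exact hy)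
    · rintro (h | ⟨y, hy, hyx⟩)
      · exact Or.inr ⟨h2_e x, h, hee x⟩
      · exact Or.inl (by rw [← h2_e.injective hyx]; exact hy)
  have hge : ∑ x ∈ K, g (h2_e x) = ∑ x ∈ K, g x :=
    Finset.sum_equiv h2_e (fun x => hKe x) (fun x _ => rfl)
  -- `T ≥ 0`
  have hT : 0 ≤ ∑ x ∈ K, g x := by
    have e1 : ∑ x ∈ SU, g x = ∑ x ∈ K, g x := by
      apply Finset.sum_subset Finset.subset_union_left
      intro x _ hx
      have : x.1 ∉ S := by
        intro h
        exact hx (by simp [hSU, h])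
      simp [hg, hmS _ this]
    rw [← e1, hSU, Finset.sum_product]
    apply Finset.sum_nonneg
    intro a _
    have e2 : ∑ b : Fin 4, g (a, b) =
        φ a ^ 2 * u a * ((∑ b : Fin 4, u (a + dv b)) - 4 * u a) := by
      simp only [hg, ← Finset.mul_sum, Finset.sum_sub_distrib, Finset.sum_const, Finset.card_univ,
        Fintype.card_fin, nsmul_eq_mul]
      norm_num
    rw [e2]
    apply mul_nonneg (mul_nonneg (sq_nonneg _) (h0 a))
    have := hs a
    linarith
  -- the energy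
  have hQ : ∑ x ∈ K, q x ≤ (u (s + dv d) - u s) ^ 2 / 16 := by
    refine le_trans ?_ (hE (K.image Prod.fst))
    rw [← Finset.sum_product (s := K.image Prod.fst) (t := (Finset.univ : Finset (Fin 4)))
      (f := fun x : Dart => (φ (x.1 + dv x.2) - φ x.1) ^ 2)]
    apply Finset.sum_le_sum_of_subset_of_nonneg
    · intro x hx
      simp only [Finset.mem_product, Finset.mem_image, Finset.mem_univ, and_true]
      exact ⟨x, hx, rfl⟩
    · intro x _ _
      positivity
  -- pointwise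
  have hpt : ∀ x ∈ K, w x - 2 * q x ≤ -(g x + g (h2_e x)) := by
    intro x _
    have hx1 : (h2_e x).1 = x.1 + dv x.2 := rfl
    have hx2 : (h2_e x).1 + dv (h2_e x).2 = x.1 := by
      change x.1 + dv x.2 + dv (x.2 + 2) = x.1
      rw [dv_add_two]; simp
    have := energy_ineq (u x.1) (u (x.1 + dv x.2)) (φ x.1) (φ (x.1 + dv x.2)) (h0 _) (h0 _)
      (h1 _) (h1 _)
    simp only [hg, hw, hq, hx2]
    rw [hx1]
    nlinarith [this]
  have hsum := Finset.sum_le_sum hpt
  rw [Finset.sum_sub_distrib, Finset.sum_neg_distrib, Finset.sum_add_distrib, hge,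
    ← Finset.mul_sum] at hsum
  -- the term at `(s, d)`
  have hsd : (s, d) ∈ K := by
    apply Finset.mem_union_left
    have : s ∈ S := by
      by_contra h
      have := hmS s h
      rw [hφs] at this
      exact one_ne_zero this
    simp [hSU, this]
  have hwle : w (s, d) ≤ ∑ x ∈ K, w x :=
    Finset.single_le_sum (f := w) (fun x _ => by simp only [hw]; positivity) hsd
  have hw1 : (u (s + dv d) - u s) ^ 2 / 4 ≤ w (s, d) := by
    simp only [hw, hφs]
    have := mul_nonneg (sq_nonneg (φ (s + dv d))) (sq_nonneg (u (s + dv d) - u s))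
    nlinarith [this]
  linarith

end Pool.Agent.GRW
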