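import Pool.Agent.GRW.H2

/-! # GRW row H3 : recurrence of the simple random walk, as an avoidance probability -/

namespace Pool.Agent.GRW

open Filter Topology

/-- `av z n y` = probability that the first `n` positions `S_0, ..., S_{n-1}` of the simple random walk
started at `y` differ from `z`. -/
noncomputable def av (z : ℤ × ℤ) : ℕ → ℤ × ℤ → ENNReal
  | 0, _ => 1
  | n + 1, y => by
      classical exact if y = z then 0 else (4 : ENNReal)⁻¹ * ∑ d : Fin 4, av z n (y + dv d)

theorem h3_self (z : ℤ × ℤ) (n : ℕ) : av z (n + 1) z = 0 := by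
  simp [av]

theorem h3_succ (z : ℤ × ℤ) (n : ℕ) {y : ℤ × ℤ} (h : y ≠ z) :
    av z (n + 1) y = (4 : ENNReal)⁻¹ * ∑ d : Fin 4, av z n (y + dv d) := by
  simp [av, h]

theorem av_le_one (z : ℤ × ℤ) (n : ℕ) (y : ℤ × ℤ) : av z n y ≤ 1 := by
  induction n generalizing y with
  | zero => exact le_of_eq rfl
  | succ n ih =>
    by_cases h : y = z
    · rw [h, h3_self]
      exact zero_le_one
    · rw [h3_succ z n h]
      have h1 : ∑ d : Fin 4, av z n (y + dv d) ≤ 4 := by
        refine (Finset.sum_le_sum fun d _ => ih (y + dv d)).trans ?_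
        simp
      calc (4 : ENNReal)⁻¹ * ∑ d : Fin 4, av z n (y + dv d) ≤ (4 : ENNReal)⁻¹ * 4 := by gcongr
        _ = 1 := ENNReal.inv_mul_cancel (by norm_num) (by norm_num)

theorem av_anti (z y : ℤ × ℤ) : Antitone fun n => av z n y := by
  refine antitone_nat_of_succ_le fun n => ?_
  induction n generalizing y with
  | zero => exact av_le_one z 1 y
  | succ n ih =>
    by_cases h : y = z
    · rw [h, h3_self, h3_self]
    · rw [h3_succ z _ h, h3_succ z _ h]
      gcongr with d _
      exact ih (y + dv d)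

/-- the limit -/
noncomputable def h3_L (z y : ℤ × ℤ) : ENNReal := ⨅ n, av z n y

theorem h3_tendsto (z y : ℤ × ℤ) : Tendsto (fun n => av z n y) atTop (𝓝 (h3_L z y)) :=
  tendsto_atTop_iInf (av_anti z y)

theorem h3_L_le (z y : ℤ × ℤ) : h3_L z y ≤ 1 := (iInf_le _ 0).trans (av_le_one z 0 y)

theorem h3_L_self (z : ℤ × ℤ) : h3_L z z = 0 := by
  refine le_antisymm ((iInf_le _ 1).trans ?_) zero_le
  rw [h3_self z 0]

theorem h3_L_rec (z : ℤ × ℤ) {y : ℤ × ℤ} (h : y ≠ z) :
    h3_L z y = (4 : ENNReal)⁻¹ * ∑ d : Fin 4, h3_L z (y + dv d) := by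
  have h1 : Tendsto (fun n => av z (n + 1) y) atTop (𝓝 (h3_L z y)) :=
    (h3_tendsto z y).comp (tendsto_add_atTop_nat 1)
  have h2 : Tendsto (fun n => (4 : ENNReal)⁻¹ * ∑ d : Fin 4, av z n (y + dv d)) atTop
      (𝓝 ((4 : ENNReal)⁻¹ * ∑ d : Fin 4, h3_L z (y + dv d))) := by
    refine ENNReal.Tendsto.const_mul ?_ (Or.inr (by simp))
    exact tendsto_finsetSum _ fun d _ => h3_tendsto z (y + dv d)
  have h3 : (fun n => av z (n + 1) y) = fun n => (4 : ENNReal)⁻¹ * ∑ d : Fin 4, av z n (y + dv d) :=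
    funext fun n => h3_succ z n h
  rw [h3] at h1
  exact tendsto_nhds_unique h1 h2

theorem h3_const {u : ℤ × ℤ → ℝ} (h : ∀ (s : ℤ × ℤ) (d : Fin 4), u (s + dv d) = u s)
    (s t : ℤ × ℤ) : u s = u t := by
  have e1 : ∀ (n : ℤ) (s : ℤ × ℤ), u (s + (n, 0)) = u s := by
    intro n
    induction n using Int.induction_on with
    | zero => intro s; rw [← Prod.zero_eq_mk, add_zero]
    | succ n ih =>
      intro s
      have h1 : s + ((n : ℤ) + 1, 0) = (s + ((n : ℤ), 0)) + dv 0 := by
        simp [dv, add_assoc]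
      rw [h1, h, ih]
    | pred n ih =>
      intro s
      have h1 : s + (-(n : ℤ), 0) = (s + (-(n : ℤ) - 1, 0)) + dv 0 := by
        simp [dv, add_assoc]
      rw [← ih s, h1, h]
  have e2 : ∀ (n : ℤ) (s : ℤ × ℤ), u (s + (0, n)) = u s := by
    intro n
    induction n using Int.induction_on with
    | zero => intro s; rw [← Prod.zero_eq_mk, add_zero]
    | succ n ih =>
      intro s
      have h1 : s + (0, (n : ℤ) + 1) = (s + (0, (n : ℤ))) + dv 1 := by
        simp [dv, add_assoc]
      rw [h1, h, ih]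
    | pred n ih =>
      intro s
      have h1 : s + (0, -(n : ℤ)) = (s + (0, -(n : ℤ) - 1)) + dv 1 := by
        simp [dv, add_assoc]
      rw [← ih s, h1, h]
  have h2 : t = (s + (t.1 - s.1, 0)) + (0, t.2 - s.2) := by
    ext <;> simp
  rw [h2, e2, e1]

/-- **Polya.**  `u y = (⨅ n, av z n y).toReal` satisfies `u z = 0` and `u y = (1/4) ∑ u (y + dv d)` for
`y ≠ z` (limit of the recursion: `tendsto_atTop_iInf`), so it is subharmonic and bounded, hence constant
by `liouville` (any two sites are joined by unit steps), hence `0`. -/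
theorem av_tendsto (z y : ℤ × ℤ) : Tendsto (fun n => av z n y) atTop (𝓝 0) := by
  have hfin : ∀ y, h3_L z y ≠ ⊤ := fun y => ne_top_of_le_ne_top ENNReal.one_ne_top (h3_L_le z y)
  have h : h3_L z y = 0 := by
    set u : ℤ × ℤ → ℝ := fun y => (h3_L z y).toReal with hu
    have h0 : ∀ s, 0 ≤ u s := fun s => ENNReal.toReal_nonneg
    have h1 : ∀ s, u s ≤ 1 := fun s => by
      have := ENNReal.toReal_mono ENNReal.one_ne_top (h3_L_le z s)
      simpa using this
    have hs : ∀ s, u s ≤ (1 / 4) * ∑ d : Fin 4, u (s + dv d) := by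
      intro s
      by_cases hsz : s = z
      · have : u s = 0 := by
          show (h3_L z s).toReal = 0
          rw [hsz, h3_L_self, ENNReal.toReal_zero]
        rw [this]
        exact mul_nonneg (by norm_num) (Finset.sum_nonneg fun d _ => h0 _)
      · refine le_of_eq ?_
        show (h3_L z s).toReal = _
        rw [h3_L_rec z hsz, ENNReal.toReal_mul, ENNReal.toReal_sum fun d _ => hfin _]
        norm_num
        rfl
    have hc := h3_const (liouville u h0 h1 hs) y z
    have hz : u z = 0 := by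
      show (h3_L z z).toReal = 0
      rw [h3_L_self, ENNReal.toReal_zero]
    rw [hz] at hc
    rcases (ENNReal.toReal_eq_zero_iff _).1 hc with h | h
    · exact h
    · exact absurd h (hfin y)
  rw [← h]
  exact h3_tendsto z y

end Pool.Agent.GRW
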