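import Pool.Agent.GRW.K3
import Pool.Agent.GRW.H3

/-! # GRW row K7 : infinitely many stuck times -/

namespace Pool.Agent.GRW

open MeasureTheory Filter Topology

variable {Ω : Type*} [MeasurableSpace Ω] {μ : Measure Ω} {X : ℕ → Ω → ℤ × ℤ}

/-- extension of a finite path by zero -/
def k7_pad (s : ℕ) (y : Fin (s + 1) → ℤ × ℤ) : ℕ → ℤ × ℤ :=
  fun k => if h : k < s + 1 then y ⟨k, h⟩ else 0

theorem k7_pad_apply (s : ℕ) (x : ℕ → ℤ × ℤ) (k : ℕ) (hk : k ≤ s) :
    k7_pad s (fun i => x i) k = x k := by
  unfold k7_pad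
  rw [dif_pos (by omega)]

theorem k7_measurable (hX : ∀ n, Measurable (X n)) (s : ℕ) (Q : (ℕ → ℤ × ℤ) → Prop)
    (hQ : ∀ x y : ℕ → ℤ × ℤ, (∀ k ≤ s, x k = y k) → Q x → Q y) :
    MeasurableSet {ω | Q (fun j => X j ω)} := by
  have : {ω | Q (fun j => X j ω)} =
      ⋃ y : {y : Fin (s + 1) → ℤ × ℤ // Q (k7_pad s y)}, cyl X s (k7_pad s y.1) := by
    ext ω
    rw [Set.mem_iUnion]
    constructor
    · intro h
      refine ⟨⟨fun i => X i ω, hQ _ _ (fun k hk => ?_) h⟩, fun k hk => ?_⟩
      · exact (k7_pad_apply s (fun j => X j ω) k hk).symm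
      · exact (k7_pad_apply s (fun j => X j ω) k hk).symm
    · rintro ⟨y, hy⟩
      exact hQ _ _ (fun k hk => (hy k hk).symm) y.2
  rw [this]
  exact MeasurableSet.iUnion fun y => measurableSet_cyl hX s _

omit [MeasurableSpace Ω] in
theorem k7_cyl_congr {s : ℕ} {x y : ℕ → ℤ × ℤ} (h : ∀ k ≤ s, x k = y k) :
    cyl X s x = cyl X s y := by
  ext ω
  exact ⟨fun h1 k hk => (h1 k hk).trans (h k hk), fun h1 k hk => (h1 k hk).trans (h k hk).symm⟩

theorem k7_stuck_congr {s : ℕ} {x y : ℕ → ℤ × ℤ} (h : ∀ k ≤ s, x k = y k) {r : ℕ} (hr : r ≤ s)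
    (hx : Stuck x r) : Stuck y r := by
  unfold Stuck at *
  rw [← freshDirs_congr (fun k hk => h k (hk.trans hr)), ← h r hr]
  exact hx

theorem k7_even_congr {s : ℕ} {x y : ℕ → ℤ × ℤ} (h : ∀ k ≤ s, x k = y k)
    (hx : EvenAt x s) : EvenAt y s := by
  intro u
  rw [← freshDirs_congr h]
  exact hx u

theorem k7_fresh_congr {s : ℕ} {x y : ℕ → ℤ × ℤ} (h : ∀ k ≤ s, x k = y k) {r : ℕ} (hr : r < s)
    (hx : FreshStep x r) : FreshStep y r := by
  obtain ⟨d, hd, h1⟩ := hx
  refine ⟨d, ?_, ?_⟩
  · rw [← freshDirs_congr (fun k hk => h k (hk.trans hr.le)), ← h r hr.le]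
    exact hd
  · rw [← h r hr.le, ← h (r + 1) hr]
    exact h1

/-- **Avoidance at stuck times.**  Induction on `n`, for all `t` and `x`.  For `n + 1`: on the event let `s ≥ t` be the
first stuck time; by `stuck_return` (the steps between `t` and `s` are fresh by `Greedy`) `X s = x t`, so the event is
empty if `x t = z`.  Otherwise decompose over `s`, over the path `y` up to time `s` (`y = x` up to `t`; countably many) and
over the direction `d` of the step `s → s + 1`:
`μ (event ∩ cyl X (s+1) (y, y s + dv d)) ≤ μ (cyl X (s+1) (y, y s + dv d)) av z n (x t + dv d)` by induction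
(`EvenAt` at time `s + 1`: `evenAt_stuck`-like facts for `y`, only needed if the event is nonempty) `= μ (cyl X s y) (1/4) av z n (x t + dv d)` by
`IsGRW.step` (`greedyProb = 1/4` at a stuck time).  Sum over `d`: `μ (cyl X s y) av z (n+1) (x t)`; the cylinders
`cyl X s y` for different `(s, y)` with first stuck time `s` are disjoint and contained in `cyl X t x`. -/
theorem Av_bound [IsProbabilityMeasure μ] (hX : IsGRW μ X) (z : ℤ × ℤ) (n : ℕ) (t : ℕ)
    (x : ℕ → ℤ × ℤ) (hE : EvenAt x t) :
    μ ({ω | Greedy (fun j => X j ω) ∧ Av z n (fun j => X j ω) t} ∩ cyl X t x) ≤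
      μ (cyl X t x) * av z n (x t) := by
  classical
  induction n generalizing t x with
  | zero =>
    simp only [av, mul_one]
    exact measure_mono Set.inter_subset_right
  | succ n ih =>
    -- the first stuck time after `t` is `s`
    set G : ℕ → Set Ω := fun s => {ω | (∀ k ≤ t, X k ω = x k) ∧ t ≤ s ∧
      Stuck (fun j => X j ω) s ∧ ∀ r, t ≤ r → r < s → ¬ Stuck (fun j => X j ω) r} with hG
    have hGm : ∀ s, MeasurableSet (G s) := by
      intro s
      by_cases hts : t ≤ s
      · refine k7_measurable hX.meas s (fun w => (∀ k ≤ t, w k = x k) ∧ t ≤ s ∧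
          Stuck w s ∧ ∀ r, t ≤ r → r < s → ¬ Stuck w r) ?_
        rintro w y hwy ⟨h1, h2, h3, h4⟩
        refine ⟨fun k hk => (hwy k (hk.trans hts)).symm.trans (h1 k hk), h2,
          k7_stuck_congr hwy le_rfl h3, fun r hr hrs hst => h4 r hr hrs
            (k7_stuck_congr (fun k hk => (hwy k hk).symm) hrs.le hst)⟩
      · have : G s = ∅ := by
          ext ω
          simp only [Set.mem_empty_iff_false, iff_false]
          exact fun h => hts h.2.1
        rw [this]
        exact MeasurableSet.empty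
    have hGd : Pairwise (Function.onFun Disjoint G) := by
      intro a b hab
      refine Set.disjoint_left.2 fun ω ha hb => ?_
      rcases lt_or_gt_of_ne hab with h | h
      · exact hb.2.2.2 a ha.2.1 h ha.2.2.1
      · exact ha.2.2.2 b hb.2.1 h hb.2.2.1
    have hGsum : ∑' s, μ (G s) ≤ μ (cyl X t x) := by
      rw [← measure_iUnion hGd hGm]
      refine measure_mono ?_
      intro ω hω
      obtain ⟨s, hs⟩ := Set.mem_iUnion.1 hω
      exact hs.1
    set E : ℕ → Set Ω := fun s => {ω | ω ∈ G s ∧ Greedy (fun j => X j ω) ∧ X s ω ≠ z ∧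
      Av z n (fun j => X j ω) (s + 1)} with hEdef
    have hsub : {ω | Greedy (fun j => X j ω) ∧ Av z (n + 1) (fun j => X j ω) t} ∩ cyl X t x ⊆
        ⋃ s, E s := by
      rintro ω ⟨⟨h1, s, hts, hs, hr, hz, hA⟩, h2⟩
      exact Set.mem_iUnion.2 ⟨s, ⟨⟨h2, hts, hs, hr⟩, h1, hz, hA⟩⟩
    have hEs : ∀ s, μ (E s) ≤ μ (G s) * av z (n + 1) (x t) := by
      intro s
      have hy : ∀ y : Fin (s + 1) → ℤ × ℤ, μ (E s ∩ cyl X s (k7_pad s y)) ≤
          μ (G s ∩ cyl X s (k7_pad s y)) * av z (n + 1) (x t) := by
        intro y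
        by_cases hne : (E s ∩ cyl X s (k7_pad s y)).Nonempty
        · obtain ⟨ω₀, ⟨⟨h1, hts, hs, hr⟩, hgr, hz, hA⟩, hcy⟩ := hne
          set w : ℕ → ℤ × ℤ := k7_pad s y with hw
          have hcw : ∀ k ≤ s, X k ω₀ = w k := hcy
          have hwt : ∀ k ≤ t, w k = x k := fun k hk =>
            (hcw k (hk.trans hts)).symm.trans (h1 k hk)
          have hwE : EvenAt w t := k7_even_congr (fun k hk => (hwt k hk).symm) hE
          have hws : Stuck w s := k7_stuck_congr (x := fun j => X j ω₀) hcw le_rfl hs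
          have hwr : ∀ r, t ≤ r → r < s → ¬ Stuck w r := fun r hr1 hr2 hst =>
            hr r hr1 hr2 (k7_stuck_congr (fun k hk => (hcw k hk).symm) hr2.le hst)
          have hwf : ∀ r, t ≤ r → r < s → FreshStep w r := fun r hr1 hr2 =>
            k7_fresh_congr (x := fun j => X j ω₀) hcw hr2 ((hgr.2 r).2 (hr r hr1 hr2))
          have hret : w s = w t := stuck_return hwE hts hwf hws
          have hwEs : EvenAt w s := evenAt_of_return hwE hts hwf hret
          have hwx : w s = x t := hret.trans (hwt t le_rfl)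
          have hxz : x t ≠ z := by
            rw [← hwx, ← hcw s le_rfl]
            exact hz
          have hcylG : cyl X s w ⊆ G s := by
            intro ω hω
            have h5 : ∀ k ≤ s, X k ω = w k := hω
            refine ⟨fun k hk => (h5 k (hk.trans hts)).trans (hwt k hk), hts,
              k7_stuck_congr (fun k hk => (h5 k hk).symm) le_rfl hws,
              fun r hr1 hr2 hst => hwr r hr1 hr2
                (k7_stuck_congr (x := fun j => X j ω) h5 hr2.le hst)⟩
          rw [Set.inter_eq_self_of_subset_right hcylG]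
          -- the paths extended by one step
          have hcov : E s ∩ cyl X s w ⊆ ⋃ d : Fin 4,
              ({ω | Greedy (fun j => X j ω) ∧ Av z n (fun j => X j ω) (s + 1)} ∩
                cyl X (s + 1) (Function.update w (s + 1) (w s + dv d))) := by
            rintro ω ⟨⟨_, hg, _, hAv⟩, hc⟩
            obtain ⟨d, hd⟩ := (hg.2 s).1
            refine Set.mem_iUnion.2 ⟨d, ⟨hg, hAv⟩, fun k hk => ?_⟩
            rcases Nat.lt_or_ge s k with h | h
            · have hk' : k = s + 1 := by omega
              subst hk'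
              rw [Function.update_self]
              have h6 : X s ω = w s := hc s le_rfl
              rw [← h6]
              exact hd
            · rw [Function.update_of_ne (by omega)]
              exact hc k h
          have hone : ∀ d : Fin 4,
              μ ({ω | Greedy (fun j => X j ω) ∧ Av z n (fun j => X j ω) (s + 1)} ∩
                cyl X (s + 1) (Function.update w (s + 1) (w s + dv d))) ≤
              μ (cyl X s w) * 4⁻¹ * av z n (x t + dv d) := by
            intro d
            set w' := Function.update w (s + 1) (w s + dv d) with hw'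
            have hww : ∀ k ≤ s, w k = w' k := fun k hk => by
              rw [hw', Function.update_of_ne (by omega)]
            have hw1 : w' (s + 1) = w' s + dv d := by
              rw [← hww s le_rfl, hw', Function.update_self]
            have hE' : EvenAt w' (s + 1) :=
              evenAt_succ_stuck (k7_even_congr hww hwEs) (k7_stuck_congr hww le_rfl hws) ⟨d, hw1⟩
            refine (ih (s + 1) w' hE').trans ?_
            have h7 : μ (cyl X (s + 1) w') = μ (cyl X s w') * greedyProb w' s (w' (s + 1)) :=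
              hX.step s w'
            have h8 : greedyProb w' s (w' (s + 1)) = 4⁻¹ := by
              have h9 : freshDirs w' s (w' s) = ∅ := k7_stuck_congr hww le_rfl hws
              unfold greedyProb
              rw [if_pos h9, if_pos ⟨d, hw1⟩]
            rw [h7, h8, ← k7_cyl_congr hww, hw1, ← hww s le_rfl, hwx]
          calc μ (E s ∩ cyl X s w) ≤ _ := measure_mono hcov
            _ ≤ ∑' d : Fin 4, _ := measure_iUnion_le _
            _ = ∑ d : Fin 4, _ := tsum_fintype _
            _ ≤ ∑ d : Fin 4, μ (cyl X s w) * 4⁻¹ * av z n (x t + dv d) :=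
                Finset.sum_le_sum fun d _ => hone d
            _ = μ (cyl X s w) * av z (n + 1) (x t) := by
                rw [← Finset.mul_sum]
                simp only [av]
                rw [if_neg hxz, mul_assoc]
        · rw [Set.not_nonempty_iff_eq_empty.1 hne, measure_empty]
          exact zero_le
      calc μ (E s) ≤ ∑' y : Fin (s + 1) → ℤ × ℤ, μ (E s ∩ cyl X s (k7_pad s y)) :=
            cyl_sum_le s (E s)
        _ ≤ ∑' y : Fin (s + 1) → ℤ × ℤ, μ (G s ∩ cyl X s (k7_pad s y)) * av z (n + 1) (x t) :=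
            ENNReal.tsum_le_tsum hy
        _ = (∑' y : Fin (s + 1) → ℤ × ℤ, μ (G s ∩ cyl X s (k7_pad s y))) *
              av z (n + 1) (x t) := ENNReal.tsum_mul_right
        _ = μ (G s) * av z (n + 1) (x t) := by
            congr 1
            exact (cyl_sum_eq hX.meas s (hGm s)).symm
    calc _ ≤ μ (⋃ s, E s) := measure_mono hsub
      _ ≤ ∑' s, μ (E s) := measure_iUnion_le _
      _ ≤ ∑' s, μ (G s) * av z (n + 1) (x t) := ENNReal.tsum_le_tsum hEs
      _ = (∑' s, μ (G s)) * av z (n + 1) (x t) := ENNReal.tsum_mul_right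
      _ ≤ μ (cyl X t x) * av z (n + 1) (x t) := by gcongr

/-- `Av_bound` and `av_tendsto`, `null_of_cyl'`, `caseI`. -/
theorem caseI_ae [IsProbabilityMeasure μ] (hX : IsGRW μ X) (z : ℤ × ℤ) :
    ∀ᵐ ω ∂μ, {n | Stuck (fun j => X j ω) n}.Infinite → {n | X n ω = z}.Infinite := by
  have hnull : μ (⋃ t, {ω | Greedy (fun j => X j ω) ∧ EvenAt (fun j => X j ω) t ∧
      ∀ n, Av z n (fun j => X j ω) t}) = 0 := by
    refine null_of_cyl' (X := X) fun t x => ?_
    by_cases hE : EvenAt x t
    · refine le_antisymm ?_ zero_le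
      refine ge_of_tendsto' (av_tendsto z (x t)) fun n => ?_
      calc _ ≤ μ ({ω | Greedy (fun j => X j ω) ∧ Av z n (fun j => X j ω) t} ∩ cyl X t x) := by
            refine measure_mono ?_
            rintro ω ⟨⟨h1, _, h3⟩, h4⟩
            exact ⟨⟨h1, h3 n⟩, h4⟩
        _ ≤ μ (cyl X t x) * av z n (x t) := Av_bound hX z n t x hE
        _ ≤ 1 * av z n (x t) := by
            gcongr
            exact prob_le_one
        _ = av z n (x t) := one_mul _
    · have : {ω | Greedy (fun j => X j ω) ∧ EvenAt (fun j => X j ω) t ∧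
          ∀ n, Av z n (fun j => X j ω) t} ∩ cyl X t x = ∅ := by
        ext ω
        simp only [Set.mem_empty_iff_false, iff_false]
        rintro ⟨⟨_, h2, _⟩, h4⟩
        exact hE (k7_even_congr (x := fun j => X j ω) h4 h2)
      rw [this, measure_empty]
  have h2 : ∀ᵐ ω ∂μ, ω ∉ ⋃ t, {ω | Greedy (fun j => X j ω) ∧ EvenAt (fun j => X j ω) t ∧
      ∀ n, Av z n (fun j => X j ω) t} := measure_eq_zero_iff_ae_notMem.1 hnull
  filter_upwards [greedy_ae hX, h2] with ω h3 h4 h5
  by_contra h6
  rw [Set.not_infinite] at h6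
  obtain ⟨t, ht1, ht2⟩ := caseI h3 h5 (z := z) h6
  exact h4 (Set.mem_iUnion.2 ⟨t, h3, ht1, ht2⟩)

end Pool.Agent.GRW
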