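import Pool.Agent.GRW.K6
import Pool.Agent.GRW.K7
import Pool.Agent.GRW.G4

/-! # GRW row K8 : transfer to the walk, main theorem -/

namespace Pool.Agent.GRW

open MeasureTheory Filter Topology

variable {Ω : Type*} [MeasurableSpace Ω] {μ : Measure Ω} {X : ℕ → Ω → ℤ × ℤ}

/-- `greedy_ae`; infinitely many stuck times: `caseI_ae` for a point of `S`; finitely many: `caseII`,
`caseII_null`, `null_of_cyl'`. -/
theorem transfer [IsProbabilityMeasure μ] (hX : IsGRW μ X) {S : Set (ℤ × ℤ)} (hne : S.Nonempty)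
    (hS : ∀ᵐ ω ∂P, ∀ y, Inf ω y → ¬ FinV S (orb ω y)) :
    ∀ᵐ ω ∂μ, {n | X n ω ∈ S}.Infinite := by
  obtain ⟨z, hz⟩ := hne
  have h2 := null_of_cyl' (μ := μ) (X := X) (fun L x => caseII_null hX hS L x)
  filter_upwards [greedy_ae hX, caseI_ae hX z, measure_eq_zero_iff_ae_notMem.1 h2] with ω hG hI hII
  by_cases hst : {n | Stuck (fun j => X j ω) n}.Infinite
  · exact (hI hst).mono fun n hn => by
      have hn' : X n ω = z := hn
      change X n ω ∈ S
      rw [hn']; exact hz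
  · intro hfin
    obtain ⟨L, hE, hf, hr⟩ := caseII hG (Set.not_infinite.1 hst)
    apply hII
    exact Set.mem_iUnion.2 ⟨L, hE, hf, hr, hfin⟩

theorem grw_main [IsProbabilityMeasure μ] (hX : IsGRW μ X) :
    ∀ᵐ ω ∂μ, ∀ a v : ℤ × ℤ, v ≠ 0 → {n | ∃ k : ℕ, X n ω = a + (k : ℤ) • v}.Infinite := by
  have key : ∀ a v : ℤ × ℤ, v ≠ 0 →
      ∀ᵐ ω ∂μ, {n | X n ω ∈ {s : ℤ × ℤ | ∃ k : ℕ, s = a + (k : ℤ) • v}}.Infinite := by
    intro a v hv
    refine transfer hX ⟨a, 0, by simp⟩ ?_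
    filter_upwards [env_main] with ω hω
    exact fun y hy => hω a v hv y hy
  rw [ae_all_iff]
  intro a
  rw [ae_all_iff]
  intro v
  by_cases hv : v = 0
  · exact Eventually.of_forall fun ω h => absurd hv h
  · filter_upwards [key a v hv] with ω hω _
    exact hω

end Pool.Agent.GRW
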